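import Pool.Agent.CYN.Lib
import Pool.Agent.CYF.InvK

/-!
CYN module Glo (size 5): the functions `K` and `λ_k` on `X`.
PROOFS. `KX_eq`: `dif_pos`; compare the chosen `(i', m')` with `(i, m)`: `A.c i x ∈ A.O i i'` and `A.γ i i' (A.c i x) = A.c i' x`, `Cc.Kf_chg` (CYF/InvK.lean)
for `cc_of η i i'`. `LX_eq`: the same with `lam_chg` for `ψ = A.Z k i'` (`A.Z k i = A.Z k i' ∘ A.γ i i'` near the point: `lam` depends only on `jm`, i.e. on
`fderiv ℂ (A.Z k i)`, which does not change for functions that are equal near the point: `Filter.EventuallyEq.fderiv_eq`).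
`KX_nonneg`: `Kf_nonneg` (CYF/Lgk.lean) or `0`. `LX_nonneg`: `lam_nonneg`. `LX_pos`: `lam_pos` with `A.imm`. `reg_of_LX`: `LX η k x ≠ 0` gives a chart `i` with
`x ∈ source` (`dif_neg` otherwise), `LX_eq`, `rho_of_lam`.
`LX_cont`: at `x ∈ V k`. If `x ∈ (A.c i).source`: near `x` (in the open set `source ∩ V k`) `LX η k y = lam (η.w i) (A.Z k i) (A.c i y)` and the right
side is continuous (`contDiffOn_lam` on `A.D k i`, `(A.c i).continuousAt`). If `x` is in no source: `LX η k x = 0`; take a compact neighbourhood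
`Q ⊆ V k` of `x` (`X` is compact Hausdorff, hence locally compact) and `C` from `bdd` (below); for `ε > 0` `A.jac` gives `O ∈ 𝓝 x` with
`dj < ε` on `O`, so `0 ≤ LX η k y ≤ C ε` for `y ∈ O ∩ Q` (`LX η k y = 0` if `y` is in no source). `squeeze`.
`bdd`: `kbd` with `K₀ = A.ζ k '' Q` (compact, `A.cont`), `emb_of`.
`KX_bdd`: for every `x ∈ Q` there are a neighbourhood of `x` and a constant bounding `dj (A.Z k i) z` for `(A.c i).symm z` in the neighbourhood (all charts `i`):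
if `x` is in no source by `A.jac` with `ε = 1`; if `x ∈ (A.c i₀).source` then `dj (A.Z k i₀)` is continuous (`contDiffOn_jm`) and
`dj (A.Z k i) z = dj (A.Z k i₀) (A.γ i i₀ z)` for `z ∈ A.O i i₀` (`jm (A.Z k i) z = jm (A.Z k i₀) (γ z) * TT γ z`, `|det TT| = 1`, `Cc.det`). Then
`IsCompact.induction_on` (or `elim_nhds_subcover`), `bdd`, and `KX η x = 0` if `x` is not regular.
-/

open scoped ContDiff ComplexConjugate Topology ComplexOrder
open Complex Matrix

namespace Pool.Agent.CYN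

open Pool.Agent.CYF

variable {n : ℕ} {X : Type*} [TopologicalSpace X] {ι κ : Type*} {A : Spc (Fin n) X ι κ}

open Classical in
/-- the function `K` on `X` -/
noncomputable def KX (η : Form A) (x : X) : ℝ :=
  if h : ∃ p : ι × Fin n, x ∈ (A.c p.1).source ∧ rho (η.w p.1) p.2 (A.c p.1 x) ≠ 0 then
    Kf (η.w h.choose.1) h.choose.2 (A.c h.choose.1 x) else 0

open Classical in
/-- the function `λ_k` on `X` -/
noncomputable def LX (η : Form A) (k : κ) (x : X) : ℝ :=
  if h : ∃ i, x ∈ (A.c i).source then lam (η.w h.choose) (A.Z k h.choose) (A.c h.choose x) else 0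

private theorem Glo_memO {x : X} {i j : ι} (hi : x ∈ (A.c i).source) (hj : x ∈ (A.c j).source) :
    A.c i x ∈ A.O i j ∧ A.γ i j (A.c i x) = A.c j x := by
  have h1 : (A.c i).symm (A.c i x) = x := (A.c i).left_inv hi
  refine ⟨⟨(A.c i).map_source hi, ?_⟩, ?_⟩
  · rw [Set.mem_preimage, h1]
    exact hj
  · simp only [Spc.γ, Function.comp_apply, h1]

private theorem Glo_memD {x : X} {i : ι} {k : κ} (hi : x ∈ (A.c i).source) (hk : x ∈ A.V k) :
    A.c i x ∈ A.D k i := by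
  refine ⟨(A.c i).map_source hi, ?_⟩
  rw [Set.mem_preimage, (A.c i).left_inv hi]
  exact hk

private theorem Glo_jm_congr {M : ℕ} {f g : E n → E M} {z : E n} (h : f =ᶠ[𝓝 z] g) :
    jm f z = jm g z := by
  unfold jm
  rw [h.fderiv_eq]

private theorem Glo_Z (k : κ) {i j : ι} {z : E n} (hz : z ∈ A.O i j) :
    A.Z k i =ᶠ[𝓝 z] fun y => A.Z k j (A.γ i j y) := by
  filter_upwards [(isOpen_O i j).mem_nhds hz] with y hy
  have h1 : (A.c j).symm (A.c j ((A.c i).symm y)) = (A.c i).symm y := (A.c j).left_inv hy.2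
  simp only [Spc.Z, Spc.γ, Function.comp_apply, h1]

private theorem Glo_diffZ (η : Form A) {k : κ} {i : ι} {z : E n} (hz : z ∈ A.D k i) :
    DifferentiableAt ℂ (A.Z k i) z :=
  diff_of_hol (isOpen_D k i) (emb_of η k i).hol hz

private theorem Glo_lam (η : Form A) {x : X} {i j : ι} {k : κ} (hi : x ∈ (A.c i).source)
    (hj : x ∈ (A.c j).source) (hk : x ∈ A.V k) :
    lam (η.w i) (A.Z k i) (A.c i x) = lam (η.w j) (A.Z k j) (A.c j x) := by
  obtain ⟨h1, h2⟩ := Glo_memO hi hj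
  have h3 : DifferentiableAt ℂ (A.Z k j) (A.γ i j (A.c i x)) := by
    rw [h2]
    exact Glo_diffZ η (Glo_memD hj hk)
  have h4 := lam_chg (cc_of η i j) h1 h3
  rw [h2] at h4
  rw [← h4]
  unfold lam
  rw [Glo_jm_congr (Glo_Z k h1)]

theorem KX_eq (η : Form A) {x : X} {i : ι} {m : Fin n} (hi : x ∈ (A.c i).source)
    (hm : rho (η.w i) m (A.c i x) ≠ 0) : KX η x = Kf (η.w i) m (A.c i x) := by
  have h : ∃ p : ι × Fin n, x ∈ (A.c p.1).source ∧ rho (η.w p.1) p.2 (A.c p.1 x) ≠ 0 :=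
    ⟨(i, m), hi, hm⟩
  unfold KX
  rw [dif_pos h]
  obtain ⟨h1, h2⟩ := h.choose_spec
  obtain ⟨h3, h4⟩ := Glo_memO hi h1
  have h5 := (cc_of η i h.choose.1).Kf_chg h3 hm (m' := h.choose.2) (by rw [h4]; exact h2)
  rw [h4] at h5
  exact h5.symm

theorem LX_eq (η : Form A) {x : X} {i : ι} {k : κ} (hi : x ∈ (A.c i).source)
    (hk : x ∈ A.V k) : LX η k x = lam (η.w i) (A.Z k i) (A.c i x) := by
  have h : ∃ i, x ∈ (A.c i).source := ⟨i, hi⟩
  unfold LX
  rw [dif_pos h]
  exact Glo_lam η h.choose_spec hi hk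

theorem KX_nonneg (η : Form A) (x : X) : 0 ≤ KX η x := by
  unfold KX
  split_ifs with h
  · obtain ⟨h1, h2⟩ := h.choose_spec
    exact Kf_nonneg (A.c h.choose.1).open_target (η.smooth h.choose.1) (fun z hz => psd η hz)
      (η.det_eq_zero h.choose.1) ⟨(A.c h.choose.1).map_source h1, h2⟩
  · exact le_rfl

theorem LX_nonneg (η : Form A) (k : κ) (x : X) : 0 ≤ LX η k x := by
  unfold LX
  split_ifs with h
  · exact lam_nonneg (psd η ((A.c h.choose).map_source h.choose_spec))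
  · exact le_rfl

theorem LX_pos (η : Form A) {x : X} {i : ι} {m : Fin n} {k : κ} (hi : x ∈ (A.c i).source)
    (hm : rho (η.w i) m (A.c i x) ≠ 0) (hk : x ∈ A.V k) : 0 < LX η k x := by
  rw [LX_eq η hi hk]
  exact lam_pos (psd η ((A.c i).map_source hi)) (η.det_eq_zero i _ ((A.c i).map_source hi)) hm
    ((emb_of η k i).imm _ (Glo_memD hi hk))

theorem reg_of_LX (η : Form A) {x : X} {k : κ} (hk : x ∈ A.V k) (h : LX η k x ≠ 0) :
    ∃ i m, x ∈ (A.c i).source ∧ rho (η.w i) m (A.c i x) ≠ 0 := by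
  by_cases h1 : ∃ i, x ∈ (A.c i).source
  · obtain ⟨i, hi⟩ := h1
    rw [LX_eq η hi hk] at h
    obtain ⟨m, hm⟩ := rho_of_lam (psd η ((A.c i).map_source hi)) h
    exact ⟨i, m, hi, hm⟩
  · exfalso
    apply h
    unfold LX
    rw [dif_neg h1]

theorem bdd (η : Form A) (k : κ) {Q : Set X} (hQ : IsCompact Q) (hQV : Q ⊆ A.V k) :
    ∃ C : ℝ, 0 ≤ C ∧ ∀ i, ∀ z ∈ (A.c i).target, (A.c i).symm z ∈ Q →
      (∀ m, rho (η.w i) m z ≠ 0 → Kf (η.w i) m z ≤ C * dj (A.Z k i) z) ∧
        lam (η.w i) (A.Z k i) z ≤ C * dj (A.Z k i) z := by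
  have hK : IsCompact (A.ζ k '' Q) := hQ.image_of_continuousOn ((A.cont k).mono hQV)
  have hKB : A.ζ k '' Q ⊆ η.B k := by
    rintro _ ⟨x, hx, rfl⟩
    exact η.maps k (hQV hx)
  obtain ⟨C, hC, h⟩ := kbd n (η.isOpen_B k) (η.smooth_W k) (η.psh k) hK hKB
  refine ⟨C, hC, fun i z hz hzQ => ?_⟩
  exact h (η.w i) (A.D k i) (A.Z k i) (emb_of η k i) z ⟨hz, hQV hzQ⟩ ⟨_, hzQ, rfl⟩

private theorem Glo_lam_cont (η : Form A) (k : κ) (i : ι) :
    ContinuousOn (lam (η.w i) (A.Z k i)) (A.D k i) :=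
  (contDiffOn_lam (isOpen_D k i) (emb_of η k i).sw (emb_of η k i).hol).continuousOn

theorem LX_cont [CompactSpace X] [T2Space X] (η : Form A) (k : κ) :
    ContinuousOn (LX η k) (A.V k) := by
  intro x hx
  by_cases h : ∃ i, x ∈ (A.c i).source
  · obtain ⟨i, hi⟩ := h
    refine ContinuousAt.continuousWithinAt ?_
    have h1 : ContinuousAt (fun y => lam (η.w i) (A.Z k i) (A.c i y)) x := by
      have h2 : ContinuousAt (lam (η.w i) (A.Z k i)) (A.c i x) :=
        (Glo_lam_cont η k i).continuousAt ((isOpen_D k i).mem_nhds (Glo_memD hi hx))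
      exact ContinuousAt.comp (f := fun y => A.c i y) (g := lam (η.w i) (A.Z k i)) h2
        ((A.c i).continuousAt hi)
    refine h1.congr ?_
    filter_upwards [(A.c i).open_source.mem_nhds hi, (A.isOpen_V k).mem_nhds hx] with y hy hy'
    exact (LX_eq η hy hy').symm
  · have h0 : LX η k x = 0 := by
      unfold LX
      rw [dif_neg h]
    have hno : ∀ i, x ∉ (A.c i).source := fun i hi => h ⟨i, hi⟩
    refine ContinuousAt.continuousWithinAt ?_
    rw [Metric.continuousAt_iff']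
    intro ε hε
    obtain ⟨Q, hQ, hxQ, hQV⟩ := exists_compact_subset (A.isOpen_V k) hx
    obtain ⟨C, hC, hb⟩ := bdd η k hQ hQV
    have hC1 : 0 < C + 1 := by linarith
    obtain ⟨O, hO, hj⟩ := A.jac k x hx hno (ε / (C + 1)) (div_pos hε hC1)
    filter_upwards [hO, mem_interior_iff_mem_nhds.1 hxQ] with y hyO hyQ
    rw [h0, Real.dist_eq, sub_zero, abs_of_nonneg (LX_nonneg η k y)]
    by_cases hy : ∃ i, y ∈ (A.c i).source
    · obtain ⟨i, hi⟩ := hy
      have h1 : (A.c i).symm (A.c i y) = y := (A.c i).left_inv hi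
      have h2 := (A.c i).map_source hi
      rw [LX_eq η hi (hQV hyQ)]
      have h3 := (hb i _ h2 (by rw [h1]; exact hyQ)).2
      have h4 : dj (A.Z k i) (A.c i y) < ε / (C + 1) := hj i _ h2 (by rw [h1]; exact hyO)
      have h5 : C * dj (A.Z k i) (A.c i y) ≤ C * (ε / (C + 1)) :=
        mul_le_mul_of_nonneg_left h4.le hC
      have h6 : C * (ε / (C + 1)) < ε := by
        rw [mul_div_assoc', div_lt_iff₀ hC1]
        nlinarith
      linarith
    · unfold LX
      rw [dif_neg hy]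
      exact hε

theorem KX_cont (η : Form A) {x : X} {k : κ} (hk : x ∈ A.V k) (h : LX η k x ≠ 0) :
    ContinuousAt (KX η) x := by
  obtain ⟨i, m, hi, hm⟩ := reg_of_LX η hk h
  have hT := (A.c i).open_target
  have kf := kf_of hT (η.smooth i) (fun z hz => psd η hz) (η.det_eq_zero i) m
  have hmem : A.c i x ∈ Um (η.w i) m (A.c i).target := ⟨(A.c i).map_source hi, hm⟩
  have hU : Um (η.w i) m (A.c i).target ∈ 𝓝 (A.c i x) := kf.isOpen.mem_nhds hmem
  have h1 : ContinuousAt (fun y => Kf (η.w i) m (A.c i y)) x := by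
    have h2 : ContinuousAt (Kf (η.w i) m) (A.c i x) :=
      (contDiffOn_Kf hT (η.smooth i) (fun z hz => psd η hz)
        (η.det_eq_zero i) m).continuousOn.continuousAt hU
    exact ContinuousAt.comp (f := fun y => A.c i y) (g := Kf (η.w i) m) h2
      ((A.c i).continuousAt hi)
  refine h1.congr ?_
  filter_upwards [(A.c i).open_source.mem_nhds hi, ((A.c i).continuousAt hi) hU] with y hy hy'
  exact (KX_eq η hy hy'.2).symm

private theorem Glo_det_cj (T : Matrix (Fin n) (Fin n) ℂ) :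
    ‖T.conjTranspose.det‖ = ‖T.det‖ := by
  rw [Matrix.det_conjTranspose]
  exact norm_star _

private theorem Glo_dj (η : Form A) (k : κ) {i j : ι} {z : E n} (hz : z ∈ A.O i j)
    (hk : z ∈ A.D k i) : dj (A.Z k i) z = dj (A.Z k j) (A.γ i j z) := by
  have hc := cc_of η i j
  have hγ : DifferentiableAt ℂ (A.γ i j) z := diff_of_hol (isOpen_O i j) hc.hol hz
  have hD : A.γ i j z ∈ A.D k j := by
    refine ⟨hc.maps z hz, ?_⟩
    have h1 : (A.c j).symm (A.c j ((A.c i).symm z)) = (A.c i).symm z := (A.c j).left_inv hz.2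
    show (A.c j).symm (A.c j ((A.c i).symm z)) ∈ A.V k
    rw [h1]
    exact hk.2
  have hψ : DifferentiableAt ℂ (A.Z k j) (A.γ i j z) := Glo_diffZ η hD
  have h1 : jm (A.Z k i) z = jm (A.Z k j) (A.γ i j z) * Matrix.of (TT (A.γ i j) z) := by
    rw [Glo_jm_congr (Glo_Z k hz)]
    ext p q
    have h2 : fderiv ℂ (fun y => A.Z k j (A.γ i j y)) z
        = (fderiv ℂ (A.Z k j) (A.γ i j z)).comp (fderiv ℂ (A.γ i j) z) :=
      fderiv_fun_comp z hψ hγ
    have h3 : jm (fun y => A.Z k j (A.γ i j y)) z p q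
        = fderiv ℂ (fun y => A.Z k j (A.γ i j y)) z (Pi.single q 1) p := rfl
    rw [h3, h2, ContinuousLinearMap.comp_apply, jm_apply, Matrix.mul_apply]
    rfl
  unfold dj
  rw [h1, Matrix.conjTranspose_mul]
  have h2 : (Matrix.of (TT (A.γ i j) z)).conjTranspose * (jm (A.Z k j) (A.γ i j z)).conjTranspose
      * (jm (A.Z k j) (A.γ i j z) * Matrix.of (TT (A.γ i j) z))
      = (Matrix.of (TT (A.γ i j) z)).conjTranspose
        * ((jm (A.Z k j) (A.γ i j z)).conjTranspose * jm (A.Z k j) (A.γ i j z))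
        * Matrix.of (TT (A.γ i j) z) := by
    simp only [Matrix.mul_assoc]
  rw [h2, Matrix.det_mul, Matrix.det_mul, norm_mul, norm_mul, Glo_det_cj, hc.det z hz]
  ring

private theorem Glo_dj_cont (η : Form A) (k : κ) (i : ι) :
    ContinuousOn (dj (A.Z k i)) (A.D k i) := by
  have h1 : ContinuousOn (jm (A.Z k i)) (A.D k i) :=
    continuousOn_pi.2 fun p => continuousOn_pi.2 fun q =>
      (contDiffOn_jm (isOpen_D k i) (emb_of η k i).hol p q).continuousOn
  have h2 : Continuous fun N : Matrix (Fin (A.dim k)) (Fin n) ℂ => ‖(N.conjTranspose * N).det‖ :=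
    (Continuous.matrix_det ((continuous_id.matrix_conjTranspose).matrix_mul continuous_id)).norm
  exact h2.comp_continuousOn h1

theorem KX_bdd (η : Form A) (k : κ) {Q : Set X} (hQ : IsCompact Q) (hQV : Q ⊆ A.V k) :
    ∃ C : ℝ, 0 ≤ C ∧ ∀ x ∈ Q, KX η x ≤ C := by
  obtain ⟨C, hC, hb⟩ := bdd η k hQ hQV
  have hD : ∃ D : ℝ, 0 ≤ D ∧ ∀ i, ∀ z ∈ (A.c i).target, (A.c i).symm z ∈ Q →
      dj (A.Z k i) z ≤ D := by
    refine hQ.induction_on (p := fun s => ∃ D : ℝ, 0 ≤ D ∧ ∀ i, ∀ z ∈ (A.c i).target,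
      (A.c i).symm z ∈ s → dj (A.Z k i) z ≤ D) ?_ ?_ ?_ ?_
    · exact ⟨0, le_rfl, fun i z _ h => absurd h (Set.notMem_empty _)⟩
    · rintro s t hst ⟨D, hD, h⟩
      exact ⟨D, hD, fun i z hz hs => h i z hz (hst hs)⟩
    · rintro s t ⟨D, hD, h⟩ ⟨D', hD', h'⟩
      refine ⟨max D D', le_max_of_le_left hD, fun i z hz hs => ?_⟩
      rcases hs with hs | hs
      · exact (h i z hz hs).trans (le_max_left _ _)
      · exact (h' i z hz hs).trans (le_max_right _ _)
    · intro x hx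
      have hxV := hQV hx
      by_cases hs : ∃ i, x ∈ (A.c i).source
      · obtain ⟨i₀, hi₀⟩ := hs
        have h1 : ContinuousAt (fun y => dj (A.Z k i₀) (A.c i₀ y)) x := by
          have h2 : ContinuousAt (dj (A.Z k i₀)) (A.c i₀ x) :=
            (Glo_dj_cont η k i₀).continuousAt ((isOpen_D k i₀).mem_nhds (Glo_memD hi₀ hxV))
          exact ContinuousAt.comp (f := fun y => A.c i₀ y) (g := dj (A.Z k i₀)) h2
            ((A.c i₀).continuousAt hi₀)
        have h3 : ∀ᶠ y in 𝓝 x, dj (A.Z k i₀) (A.c i₀ y) < dj (A.Z k i₀) (A.c i₀ x) + 1 :=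
          h1.eventually_lt_const (lt_add_one _)
        refine ⟨{y | y ∈ (A.c i₀).source ∧ y ∈ A.V k ∧
          dj (A.Z k i₀) (A.c i₀ y) < dj (A.Z k i₀) (A.c i₀ x) + 1},
          mem_nhdsWithin_of_mem_nhds ?_, dj (A.Z k i₀) (A.c i₀ x) + 1, ?_, ?_⟩
        · filter_upwards [(A.c i₀).open_source.mem_nhds hi₀, (A.isOpen_V k).mem_nhds hxV, h3]
            with y hy hy' hy''
          exact ⟨hy, hy', hy''⟩
        · have : 0 ≤ dj (A.Z k i₀) (A.c i₀ x) := norm_nonneg _
          linarith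
        · rintro i z hz ⟨hz1, hz2, hz3⟩
          rw [Glo_dj η k (j := i₀) ⟨hz, hz1⟩ ⟨hz, hz2⟩]
          exact hz3.le
      · have hno : ∀ i, x ∉ (A.c i).source := fun i hi => hs ⟨i, hi⟩
        obtain ⟨O, hO, hj⟩ := A.jac k x hxV hno 1 one_pos
        exact ⟨O, mem_nhdsWithin_of_mem_nhds hO, 1, zero_le_one,
          fun i z hz hzO => (hj i z hz hzO).le⟩
  obtain ⟨D, hD0, hD⟩ := hD
  refine ⟨C * D, mul_nonneg hC hD0, fun x hx => ?_⟩
  by_cases h : ∃ p : ι × Fin n, x ∈ (A.c p.1).source ∧ rho (η.w p.1) p.2 (A.c p.1 x) ≠ 0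
  · obtain ⟨⟨i, m⟩, hi, hm⟩ := h
    simp only at hi hm
    rw [KX_eq η hi hm]
    have h1 : (A.c i).symm (A.c i x) = x := (A.c i).left_inv hi
    have h2 := (A.c i).map_source hi
    have h3 := (hb i _ h2 (by rw [h1]; exact hx)).1 m hm
    have h4 := hD i _ h2 (by rw [h1]; exact hx)
    exact h3.trans (mul_le_mul_of_nonneg_left h4 hC)
  · unfold KX
    rw [dif_neg h]
    exact mul_nonneg hC hD0

end Pool.Agent.CYN
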