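import Pool.Agent.CYN.Lam

/-!
CYN module Mxp (size 3): the pointwise inequality at a maximum.
PROOF. Let `θ = 1 - nn c (φ ·) / r²`, `0 < θ z ≤ 1`, so `nn c (φ z) < r²`. Near `z` the functions `log Kf` (`contDiffOn_Kf` on
`Um w m U`, `0 < Kf`), `log θ`, `log lam` (`contDiffOn_lam`, `lam_pos`) are smooth. `lp_isLocalMax`, `lp_add`,
`lp_const_mul`: `0 ≥ lp (log Kf) + κ (lp (log θ) + lp (log lam))`. `lp (log Kf) ≥ Kf` (`lp_log_Kf`), `lp (log lam) ≥ Kf > 0`
(`lp_log_lam`). `lp (log θ) = lp θ / θ - gr θ / θ²` (`lp_log`), `lp θ = - lam / r²` (`lp_nn_comp`), `gr θ = gr (nn c ∘ φ) / r⁴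
≤ lam nn / r⁴ ≤ lam / r²` (`gr_const_mul`, `gr_nn_comp`; the constant `1` does not matter, unfold `gr`). As `θ ≤ 1`,
`lp (log θ) ≥ - 2 lam / (r² θ²)`.
-/

open scoped ContDiff ComplexConjugate Topology ComplexOrder
open Complex Matrix

namespace Pool.Agent.CYN

open Pool.Agent.CYF

variable {n M : ℕ} {φ : E n → E M} {z : E n} {U : Set (E n)} {w : E n → ℝ}

private theorem Mxp_gr_one_add {g : E n → ℝ} (hg : ContDiffAt ℝ ∞ g z) :
    gr w (fun y => 1 + g y) z = gr w g z := by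
  have h11 : ∀ k, pk k (cx (fun y => 1 + g y)) z = pk k (cx g) z := by
    intro k
    have h12 : cx (fun y => 1 + g y) = fun y => (1 : ℂ) + cx g y := by
      funext y
      unfold cx
      push_cast
      ring
    have h13 : DifferentiableAt ℝ (cx g) z := (contDiffAt_cx hg).differentiableAt (by simp)
    rw [h12]
    have h14 : pk k (fun y => (1 : ℂ) + cx g y) z
        = pk k (fun _ => (1 : ℂ)) z + pk k (cx g) z :=
      d10_add (differentiableAt_const _) h13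
    have h15 : pk k (fun _ : E n => (1 : ℂ)) z = 0 := d10_const _
    rw [h14, h15, zero_add]
  unfold gr
  congr 1
  refine Finset.sum_congr rfl fun k _ => Finset.sum_congr rfl fun l _ => ?_
  rw [h11, h11]

theorem max_pt (hU : IsOpen U) (hw : ContDiffOn ℝ ∞ w U)
    (hp : ∀ z ∈ U, (lm w z).PosSemidef) (hd : ∀ z ∈ U, (lm w z).det = 0)
    (hφ : ContDiffOn ℂ ∞ φ U) {m : Fin n} (hz : z ∈ U) (hm : rho w m z ≠ 0)
    (hi : Function.Injective (fderiv ℂ φ z)) (hK : 0 < Kf w m z) {c : E M} {r κ : ℝ}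
    (hr : 0 < r) (hκ : 0 < κ) (hθ : 0 < 1 - nn c (φ z) / r ^ 2)
    (hmax : IsLocalMax (fun y => Real.log (Kf w m y)
      + κ * (Real.log (1 - nn c (φ y) / r ^ 2) + Real.log (lam w φ y))) z) :
    Kf w m z ≤ 2 * κ * lam w φ z / (r ^ 2 * (1 - nn c (φ z) / r ^ 2) ^ 2) := by
  have hF := hp z hz
  have hzm : z ∈ Um w m U := ⟨hz, hm⟩
  have hφd : DifferentiableAt ℂ φ z := diff_of_hol hU hφ hz
  have sφ : ContDiffAt ℝ ∞ φ z := (hφ.restrict_scalars ℝ).contDiffAt (hU.mem_nhds hz)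
  have snn : ContDiffAt ℝ ∞ (fun y => nn c (φ y)) z := (contDiff_nn c).contDiffAt.comp z sφ
  have sθ : ContDiffAt ℝ ∞ (fun y => 1 - nn c (φ y) / r ^ 2) z :=
    contDiffAt_const.sub (snn.div_const _)
  have slθ : ContDiffAt ℝ ∞ (fun y => Real.log (1 - nn c (φ y) / r ^ 2)) z := sθ.log hθ.ne'
  have sK : ContDiffAt ℝ ∞ (Kf w m) z :=
    (contDiffOn_Kf hU hw hp hd m).contDiffAt ((kf_of hU hw hp hd m).isOpen.mem_nhds hzm)
  have slK : ContDiffAt ℝ ∞ (fun y => Real.log (Kf w m y)) z := sK.log hK.ne'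
  have hL : 0 < lam w φ z := lam_pos hF (hd z hz) hm hi
  have sL : ContDiffAt ℝ ∞ (lam w φ) z := (contDiffOn_lam hU hw hφ).contDiffAt (hU.mem_nhds hz)
  have slL : ContDiffAt ℝ ∞ (fun y => Real.log (lam w φ y)) z := sL.log hL.ne'
  have h1 := lp_isLocalMax hF (hd z hz) (slK.add (contDiffAt_const.mul (slθ.add slL))) hmax
  rw [lp_add slK (contDiffAt_const.mul (slθ.add slL)), lp_const_mul (slθ.add slL),
    lp_add slθ slL, lp_log sθ hθ] at h1
  have h2 := lp_log_Kf hU hw hp hd hzm hK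
  have h3 := lp_log_lam hU hw hp hd hφ hzm hi
  have heq : (fun y => 1 - nn c (φ y) / r ^ 2) = fun y => 1 + (-(1 / r ^ 2)) * nn c (φ y) := by
    funext y
    ring
  have h4 : lp w (fun y => 1 - nn c (φ y) / r ^ 2) z = -(lam w φ z / r ^ 2) := by
    rw [heq, lp_add contDiffAt_const (contDiffAt_const.mul snn), lp_const, lp_const_mul snn,
      lp_nn_comp hU hφ hz c]
    ring
  have h5 : gr w (fun y => 1 - nn c (φ y) / r ^ 2) z ≤ lam w φ z / r ^ 2 := by
    rw [heq, Mxp_gr_one_add (contDiffAt_const.mul snn), gr_const_mul snn]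
    have h6 := gr_nn_comp hF (hd z hz) hφd c
    have h7 : nn c (φ z) ≤ r ^ 2 := by
      by_contra hcon
      have h8 : 1 < nn c (φ z) / r ^ 2 := by
        rw [one_lt_div (by positivity)]
        exact not_le.1 hcon
      linarith
    have h9 : gr w (fun y => nn c (φ y)) z ≤ lam w φ z * r ^ 2 :=
      h6.trans (mul_le_mul_of_nonneg_left h7 hL.le)
    calc (-(1 / r ^ 2)) ^ 2 * gr w (fun y => nn c (φ y)) z
        ≤ (-(1 / r ^ 2)) ^ 2 * (lam w φ z * r ^ 2) :=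
          mul_le_mul_of_nonneg_left h9 (sq_nonneg _)
      _ = lam w φ z / r ^ 2 := by
          field_simp
  set θ : ℝ := 1 - nn c (φ z) / r ^ 2 with hθdef
  set L : ℝ := lam w φ z
  set K : ℝ := Kf w m z
  have hθ1 : θ ≤ 1 := by
    have : 0 ≤ nn c (φ z) / r ^ 2 := div_nonneg (nn_nonneg c (φ z)) (sq_nonneg r)
    rw [hθdef]
    linarith
  have hB : 0 ≤ L / (r ^ 2 * θ ^ 2) := by positivity
  have h10 : gr w (fun y => 1 - nn c (φ y) / r ^ 2) z / θ ^ 2 ≤ L / (r ^ 2 * θ ^ 2) := by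
    rw [← div_div]
    exact div_le_div_of_nonneg_right h5 (by positivity)
  have h11 : L / r ^ 2 / θ ≤ L / (r ^ 2 * θ ^ 2) := by
    rw [div_div]
    refine div_le_div_of_nonneg_left hL.le (by positivity) ?_
    have : θ ^ 2 ≤ θ := by nlinarith
    exact mul_le_mul_of_nonneg_left this (by positivity)
  rw [h4] at h1
  have h12 : -(L / r ^ 2) / θ = -(L / r ^ 2 / θ) := by rw [neg_div]
  rw [h12] at h1
  have h13 : -(2 * (L / (r ^ 2 * θ ^ 2))) ≤ -(L / r ^ 2 / θ)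
      - gr w (fun y => 1 - nn c (φ y) / r ^ 2) z / θ ^ 2 := by linarith
  have h14 : κ * (-(2 * (L / (r ^ 2 * θ ^ 2)))) ≤ κ * (-(L / r ^ 2 / θ)
      - gr w (fun y => 1 - nn c (φ y) / r ^ 2) z / θ ^ 2
      + lp w (fun y => Real.log (lam w φ y)) z) :=
    mul_le_mul_of_nonneg_left (by linarith) hκ.le
  have h15 : 2 * κ * L / (r ^ 2 * θ ^ 2) = κ * (2 * (L / (r ^ 2 * θ ^ 2))) := by ring
  rw [h15]
  linarith

end Pool.Agent.CYN
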