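import Pool.Agent.CYN.Pat
import Pool.Agent.CYN.Mxp

/-!
CYN module Psi (size 5): the maximum principle on `X`.
Notation `θ_b x = max (1 - nn b.cen (ζ b.k x) / b.r²) 0`.
PROOFS. `Psi_cont`: at `x ∈ b.Q`. If `LX η b.k x ≠ 0`: `KX_cont`, `LX_cont`, continuity of `ζ b.k`, of `nn`, of `max`, and `rpow` with the exponent `κ > 0`
(`Real.continuousAt_rpow_const`, `Or.inr`). If `LX η b.k x = 0`: `PsiX = 0` at `x` (`Real.zero_rpow`), and `0 ≤ PsiX ≤ C (θ_b LX)^κ → 0` (`KX_bdd`, squeeze).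
`Psi_max`: the constants: `R` with `LX η (b a).k x ≤ R` on `(b a).Q` for all `a` (`LX_cont`, compactness), `R ≥ 1`; `D ≥ 1` with
`LX η (b a).k x ≤ D LX η (b a').k x` for `x ∈ (b a).Q ∩ (b a').Q` (`LX_cmp`; `Q ∩ Q'` is compact, `X` is Hausdorff; finitely many pairs);
`r₀ > 0` with `r₀ ≤ (b a).r`. Let `x ∈ (b a).Q` be a maximum as in the statement; if `PsiX η κ (b a) x ≤ 0` trivial. Otherwise `K := KX η x > 0`,
`θ := θ_{b a} x > 0`, `L := LX η (b a).k x > 0` (all three factors are nonnegative). By `hb` there is `a'` with `x ∈ (b a').Q`, `nn < (r'/2)²`, so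
`θ_{b a'} x > 3/4`; `PsiX (b a') x ≤ PsiX (b a) x` and `K > 0` give `(θ' L')^κ ≤ (θ L)^κ`, so `θ' L' ≤ θ L ≤ θ D L'` and `L' > 0`, hence `θ ≥ 3/(4D)`.
As `θ > 0`, `x ∈ interior (b a).Q` (`Pt.int`). `reg_of_LX`: `i, m` with `x ∈ (A.c i).source`, `rho ≠ 0`; put `z = A.c i x`. For `y` near `z` the point
`(A.c i).symm y` is in `(b a).Q ∩ source`, `rho (η.w i) m y ≠ 0`, and `PsiX (b a) ((A.c i).symm y) = Kf (η.w i) m y *
((1 - nn cen (A.Z k i y) / r²) * lam (η.w i) (A.Z k i) y)^κ` with positive `Kf`, `1 - nn/r²`, `lam` (continuity), so the logarithm of it has a local maximum at `z`: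
hypothesis `hmax` of `max_pt` (`Real.log_mul`, `Real.log_rpow`). `max_pt` on `U = A.D k i`: `K ≤ 2 κ L / (r² θ²) ≤ κ 2 R (4 D / 3)² / r₀²`. Finally
`PsiX = K (θ L)^κ ≤ K R` (`θ ≤ 1`, `R ≥ 1`, `κ ≤ 1`). `C = 4 R² (4 D / 3)² / r₀²`.
`KX_zero`: fix `x` with `KX η x ≠ 0` (then `x` is regular, `KX` is `0` otherwise) and `a` with `x ∈ (b a).Q`, `nn < (r/2)²`. For `0 < κ ≤ 1` the functions `PsiX η κ (b a')` are continuous on
the compact sets `(b a').Q`, so the finite family has a maximum; `PsiX η κ (b a) x ≤ C κ`, i.e. `KX η x * t^κ ≤ C κ` with `t = θ LX > 0` (`LX_pos`). Let `κ → 0`: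
`t^κ → 1`, so `KX η x ≤ 0`.
-/

open scoped ContDiff ComplexConjugate Topology ComplexOrder
open Complex Matrix

namespace Pool.Agent.CYN

open Pool.Agent.CYF

variable {n : ℕ} {X : Type*} [TopologicalSpace X] {ι κ' : Type*} {A : Spc (Fin n) X ι κ'}

/-- the cut-off of a patch -/
noncomputable def thX (b : Pt A) (x : X) : ℝ := max (1 - nn b.cen (A.ζ b.k x) / b.r ^ 2) 0

/-- the test function -/
noncomputable def PsiX (η : Form A) (κ : ℝ) (b : Pt A) (x : X) : ℝ :=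
  KX η x * (thX b x * LX η b.k x) ^ κ

theorem thX_nonneg (b : Pt A) (x : X) : 0 ≤ thX b x := le_max_right _ _

theorem thX_le_one (b : Pt A) (x : X) : thX b x ≤ 1 := by
  refine max_le ?_ zero_le_one
  have h1 : 0 ≤ nn b.cen (A.ζ b.k x) / b.r ^ 2 := div_nonneg (nn_nonneg _ _) (sq_nonneg _)
  linarith

theorem thX_cont (b : Pt A) : ContinuousOn (thX b) b.Q := by
  have h1 : ContinuousOn (fun x => nn b.cen (A.ζ b.k x)) b.Q :=
    (contDiff_nn b.cen).continuous.comp_continuousOn ((A.cont b.k).mono b.sub)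
  have h2 : ContinuousOn (fun x => 1 - nn b.cen (A.ζ b.k x) / b.r ^ 2) b.Q :=
    continuousOn_const.sub (h1.div_const _)
  have h3 : Continuous fun t : ℝ => max t 0 := continuous_id.max continuous_const
  exact h3.comp_continuousOn h2

theorem PsiX_nonneg (η : Form A) (κ : ℝ) (b : Pt A) (x : X) : 0 ≤ PsiX η κ b x :=
  mul_nonneg (KX_nonneg η x)
    (Real.rpow_nonneg (mul_nonneg (thX_nonneg b x) (LX_nonneg η b.k x)) κ)

theorem Psi_cont [CompactSpace X] [T2Space X] (η : Form A) {κ : ℝ} (hκ : 0 < κ) (b : Pt A) :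
    ContinuousOn (PsiX η κ b) b.Q := by
  intro x hx
  have hk : x ∈ A.V b.k := b.sub hx
  have hL : ContinuousWithinAt (LX η b.k) b.Q x := ((LX_cont η b.k) x hk).mono b.sub
  have hT : ContinuousWithinAt (fun y => thX b y * LX η b.k y) b.Q x := (thX_cont b x hx).mul hL
  have hTκ : ContinuousWithinAt (fun y => (thX b y * LX η b.k y) ^ κ) b.Q x :=
    hT.rpow_const (Or.inr hκ.le)
  by_cases h0 : LX η b.k x = 0
  · obtain ⟨C, hC, hCb⟩ := KX_bdd η b.k b.comp b.sub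
    have hP : PsiX η κ b x = 0 := by
      unfold PsiX
      rw [h0, mul_zero, Real.zero_rpow hκ.ne', mul_zero]
    rw [ContinuousWithinAt, hP]
    have h1 : Filter.Tendsto (fun y => C * (thX b y * LX η b.k y) ^ κ) (𝓝[b.Q] x) (𝓝 0) := by
      have h2 : Filter.Tendsto (fun y => C * (thX b y * LX η b.k y) ^ κ) (𝓝[b.Q] x)
          (𝓝 (C * (thX b x * LX η b.k x) ^ κ)) := Filter.Tendsto.const_mul C hTκ
      rwa [h0, mul_zero, Real.zero_rpow hκ.ne', mul_zero] at h2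
    refine squeeze_zero' (Filter.Eventually.of_forall fun y => PsiX_nonneg η κ b y) ?_ h1
    filter_upwards [self_mem_nhdsWithin] with y hy
    exact mul_le_mul_of_nonneg_right (hCb y hy)
      (Real.rpow_nonneg (mul_nonneg (thX_nonneg b y) (LX_nonneg η b.k y)) κ)
  · exact (KX_cont η hk h0).continuousWithinAt.mul hTκ

/-- the inequality at a maximum in the interior of a patch -/
private theorem Psi_loc (η : Form A) {κ : ℝ} (hκ : 0 < κ) (b : Pt A) {x : X} (hx : x ∈ b.Q)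
    (hK : 0 < KX η x) (hθ : 0 < thX b x) (hL : LX η b.k x ≠ 0)
    (hmax : ∀ x' ∈ b.Q, PsiX η κ b x' ≤ PsiX η κ b x) :
    KX η x ≤ 2 * κ * LX η b.k x / (b.r ^ 2 * thX b x ^ 2) := by
  have hk : x ∈ A.V b.k := b.sub hx
  obtain ⟨i, m, hi, hm⟩ := reg_of_LX η hk hL
  have hz : A.c i x ∈ (A.c i).target := (A.c i).map_source hi
  have hsz : (A.c i).symm (A.c i x) = x := (A.c i).left_inv hi
  set z := A.c i x with hzdef
  have hzD : z ∈ A.D b.k i := ⟨hz, by rw [Set.mem_preimage, hsz]; exact hk⟩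
  have hp : ∀ y ∈ A.D b.k i, (lm (η.w i) y).PosSemidef := fun y hy => psd η hy.1
  have hd : ∀ y ∈ A.D b.k i, (lm (η.w i) y).det = 0 := fun y hy => η.det_eq_zero i y hy.1
  have hw : ContDiffOn ℝ ∞ (η.w i) (A.D b.k i) := (η.smooth i).mono Set.inter_subset_left
  have hφ : ContDiffOn ℂ ∞ (A.Z b.k i) (A.D b.k i) := A.hol_ζ b.k i
  have hzU : z ∈ Um (η.w i) m (A.D b.k i) := ⟨hzD, hm⟩
  have hUo : IsOpen (Um (η.w i) m (A.D b.k i)) :=
    (kf_of (isOpen_D b.k i) hw hp hd m).isOpen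
  -- the values
  have hKe : ∀ y ∈ (A.c i).target, rho (η.w i) m y ≠ 0 →
      KX η ((A.c i).symm y) = Kf (η.w i) m y := by
    intro y hy hry
    have h1 := KX_eq η (x := (A.c i).symm y) (i := i) (m := m) ((A.c i).map_target hy)
      (by rw [(A.c i).right_inv hy]; exact hry)
    rwa [(A.c i).right_inv hy] at h1
  have hLe : ∀ y ∈ A.D b.k i, LX η b.k ((A.c i).symm y) = lam (η.w i) (A.Z b.k i) y := by
    intro y hy
    have h1 := LX_eq η (x := (A.c i).symm y) (i := i) ((A.c i).map_target hy.1) hy.2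
    rwa [(A.c i).right_inv hy.1] at h1
  have hKz : Kf (η.w i) m z = KX η x := by
    rw [← hKe z hz hm, hsz]
  have hLz : lam (η.w i) (A.Z b.k i) z = LX η b.k x := by
    rw [← hLe z hzD, hsz]
  have hZz : A.Z b.k i z = A.ζ b.k x := by
    show A.ζ b.k ((A.c i).symm z) = _
    rw [hsz]
  have hθ1 : thX b x = 1 - nn b.cen (A.ζ b.k x) / b.r ^ 2 := by
    unfold thX at hθ ⊢
    rcases le_total (1 - nn b.cen (A.ζ b.k x) / b.r ^ 2) 0 with h | h
    · rw [max_eq_right h] at hθ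
      exact absurd hθ (lt_irrefl _)
    · exact max_eq_left h
  have hθz : 0 < 1 - nn b.cen (A.Z b.k i z) / b.r ^ 2 := by
    rw [hZz, ← hθ1]
    exact hθ
  have hLpos : 0 < LX η b.k x := lt_of_le_of_ne (LX_nonneg η b.k x) (Ne.symm hL)
  have hint : x ∈ interior b.Q := by
    refine b.int x hx ?_
    rw [hθ1] at hθ
    have h1 : nn b.cen (A.ζ b.k x) / b.r ^ 2 < 1 := by linarith
    rwa [div_lt_one (pow_pos b.pos 2)] at h1
  -- continuity near z
  have hcK : ContinuousAt (Kf (η.w i) m) z :=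
    ((contDiffOn_Kf (isOpen_D b.k i) hw hp hd m).contDiffAt (hUo.mem_nhds hzU)).continuousAt
  have hcL : ContinuousAt (lam (η.w i) (A.Z b.k i)) z :=
    ((contDiffOn_lam (isOpen_D b.k i) hw hφ).contDiffAt
      ((isOpen_D b.k i).mem_nhds hzD)).continuousAt
  have hcZ : ContinuousAt (A.Z b.k i) z :=
    (hφ.contDiffAt ((isOpen_D b.k i).mem_nhds hzD)).continuousAt
  have hcθ : ContinuousAt (fun y => 1 - nn b.cen (A.Z b.k i y) / b.r ^ 2) z := by
    have h1 : ContinuousAt (fun y => nn b.cen (A.Z b.k i y)) z :=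
      ContinuousAt.comp (g := nn b.cen) (f := A.Z b.k i)
        ((contDiff_nn b.cen).continuous.continuousAt) hcZ
    exact continuousAt_const.sub (h1.div_const _)
  have e1 : ∀ᶠ y in 𝓝 z, 0 < Kf (η.w i) m y :=
    hcK.eventually (lt_mem_nhds (by rw [hKz]; exact hK))
  have e2 : ∀ᶠ y in 𝓝 z, 0 < lam (η.w i) (A.Z b.k i) y :=
    hcL.eventually (lt_mem_nhds (by rw [hLz]; exact hLpos))
  have e3 : ∀ᶠ y in 𝓝 z, 0 < 1 - nn b.cen (A.Z b.k i y) / b.r ^ 2 :=
    hcθ.eventually (lt_mem_nhds hθz)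
  have e4 : ∀ᶠ y in 𝓝 z, (A.c i).symm y ∈ interior b.Q := by
    have h1 : ContinuousAt (A.c i).symm z := (A.c i).continuousAt_symm hz
    refine h1.eventually_mem ?_
    rw [hsz]
    exact isOpen_interior.mem_nhds hint
  have hlocmax : IsLocalMax (fun y => Real.log (Kf (η.w i) m y)
      + κ * (Real.log (1 - nn b.cen (A.Z b.k i y) / b.r ^ 2)
        + Real.log (lam (η.w i) (A.Z b.k i) y))) z := by
    have hval : ∀ y ∈ Um (η.w i) m (A.D b.k i), 0 < Kf (η.w i) m y →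
        0 < lam (η.w i) (A.Z b.k i) y → 0 < 1 - nn b.cen (A.Z b.k i y) / b.r ^ 2 →
        0 < PsiX η κ b ((A.c i).symm y) ∧ Real.log (PsiX η κ b ((A.c i).symm y))
          = Real.log (Kf (η.w i) m y) + κ * (Real.log (1 - nn b.cen (A.Z b.k i y) / b.r ^ 2)
            + Real.log (lam (η.w i) (A.Z b.k i) y)) := by
      intro y hy h1 h2 h3
      have h4 : thX b ((A.c i).symm y) = 1 - nn b.cen (A.Z b.k i y) / b.r ^ 2 := max_eq_left h3.le
      have h5 : PsiX η κ b ((A.c i).symm y) = Kf (η.w i) m y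
          * ((1 - nn b.cen (A.Z b.k i y) / b.r ^ 2) * lam (η.w i) (A.Z b.k i) y) ^ κ := by
        unfold PsiX
        rw [hKe y hy.1.1 hy.2, hLe y hy.1, h4]
      have h6 := mul_pos h3 h2
      rw [h5]
      refine ⟨mul_pos h1 (Real.rpow_pos_of_pos h6 κ), ?_⟩
      rw [Real.log_mul h1.ne' (Real.rpow_pos_of_pos h6 κ).ne', Real.log_rpow h6,
        Real.log_mul h3.ne' h2.ne']
    obtain ⟨p1, p2⟩ := hval z hzU (by rw [hKz]; exact hK) (by rw [hLz]; exact hLpos) hθz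
    show ∀ᶠ y in 𝓝 z, _ ≤ _
    filter_upwards [e1, e2, e3, e4, hUo.mem_nhds hzU] with y y1 y2 y3 y4 y5
    obtain ⟨q1, q2⟩ := hval y y5 y1 y2 y3
    rw [← q2, ← p2]
    refine Real.log_le_log q1 ?_
    rw [hsz]
    exact hmax _ (interior_subset y4)
  have hfin := max_pt (isOpen_D b.k i) hw hp hd hφ hzD hm (A.imm b.k i z hzD)
    (by rw [hKz]; exact hK) b.pos hκ hθz hlocmax
  rwa [hKz, hLz, hZz, ← hθ1] at hfin

theorem Psi_max [CompactSpace X] [T2Space X] (η : Form A) {N : ℕ} {b : Fin N → Pt A}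
    (hb : ∀ x : X, ∃ a, x ∈ (b a).Q ∧ nn (b a).cen (A.ζ (b a).k x) < ((b a).r / 2) ^ 2) :
    ∃ C : ℝ, 0 ≤ C ∧ ∀ κ : ℝ, 0 < κ → κ ≤ 1 → ∀ a, ∀ x ∈ (b a).Q,
      (∀ a', ∀ x' ∈ (b a').Q, PsiX η κ (b a') x' ≤ PsiX η κ (b a) x) →
        PsiX η κ (b a) x ≤ C * κ := by
  -- the constants
  have hR0 : ∀ a, ∃ R : ℝ, ∀ x ∈ (b a).Q, ‖LX η (b a).k x‖ ≤ R := fun a =>
    (b a).comp.exists_bound_of_continuousOn ((LX_cont η (b a).k).mono (b a).sub)
  choose R0 hR0 using hR0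
  have hD0 : ∀ a a', ∃ D : ℝ, 0 ≤ D ∧ ∀ x ∈ (b a).Q ∩ (b a').Q,
      LX η (b a).k x ≤ D * LX η (b a').k x := fun a a' =>
    LX_cmp η ((b a).comp.inter_right (b a').comp.isClosed)
      (Set.inter_subset_left.trans (b a).sub) (Set.inter_subset_right.trans (b a').sub)
  choose D0 hD0 hD0' using hD0
  set R : ℝ := 1 + ∑ a, |R0 a| with hR
  set D : ℝ := 1 + ∑ a, ∑ a', D0 a a' with hD
  set s : ℝ := ∑ a, 1 / (b a).r ^ 2 with hs
  have hR1 : 1 ≤ R := by
    have : 0 ≤ ∑ a, |R0 a| := Finset.sum_nonneg fun _ _ => abs_nonneg _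
    linarith
  have hRa : ∀ a, ∀ x ∈ (b a).Q, LX η (b a).k x ≤ R := by
    intro a x hx
    have h1 := hR0 a x hx
    rw [Real.norm_eq_abs] at h1
    have h2 : |R0 a| ≤ ∑ a, |R0 a| :=
      Finset.single_le_sum (f := fun a => |R0 a|) (fun _ _ => abs_nonneg _) (Finset.mem_univ a)
    have h3 := le_abs_self (LX η (b a).k x)
    have h4 := le_abs_self (R0 a)
    linarith
  have hD1 : 1 ≤ D := by
    have : 0 ≤ ∑ a, ∑ a', D0 a a' :=
      Finset.sum_nonneg fun a _ => Finset.sum_nonneg fun a' _ => hD0 a a'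
    linarith
  have hDa : ∀ a a', D0 a a' ≤ D := by
    intro a a'
    have h1 : D0 a a' ≤ ∑ a', D0 a a' :=
      Finset.single_le_sum (f := fun a' => D0 a a') (fun a' _ => hD0 a a') (Finset.mem_univ a')
    have h2 : ∑ a', D0 a a' ≤ ∑ a, ∑ a', D0 a a' :=
      Finset.single_le_sum (f := fun a => ∑ a', D0 a a')
        (fun a _ => Finset.sum_nonneg fun a' _ => hD0 a a') (Finset.mem_univ a)
    linarith
  have hs0 : ∀ a, 1 / (b a).r ^ 2 ≤ s := fun a =>
    Finset.single_le_sum (f := fun a => 1 / (b a).r ^ 2)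
      (fun a _ => by have := (b a).pos; positivity) (Finset.mem_univ a)
  have hs1 : 0 ≤ s := Finset.sum_nonneg fun a _ => by
    have := (b a).pos
    positivity
  refine ⟨2 * R * s * (4 * D / 3) ^ 2 * R, by positivity, ?_⟩
  intro κ hκ hκ1 a x hx hmax
  rcases eq_or_lt_of_le (PsiX_nonneg η κ (b a) x) with h0 | h0
  · rw [← h0]
    positivity
  -- positivity of the factors
  have hK0 : KX η x ≠ 0 := by
    intro h
    unfold PsiX at h0
    rw [h, zero_mul] at h0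
    exact lt_irrefl _ h0
  have hT0 : thX (b a) x * LX η (b a).k x ≠ 0 := by
    intro h
    unfold PsiX at h0
    rw [h, Real.zero_rpow hκ.ne', mul_zero] at h0
    exact lt_irrefl _ h0
  have hθ0 : 0 < thX (b a) x :=
    lt_of_le_of_ne (thX_nonneg _ _) (Ne.symm (left_ne_zero_of_mul hT0))
  have hL0 : 0 < LX η (b a).k x :=
    lt_of_le_of_ne (LX_nonneg _ _ _) (Ne.symm (right_ne_zero_of_mul hT0))
  have hK1 : 0 < KX η x := lt_of_le_of_ne (KX_nonneg η x) (Ne.symm hK0)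
  have hT1 : 0 < thX (b a) x * LX η (b a).k x := mul_pos hθ0 hL0
  -- lower bound of the cut-off
  obtain ⟨a', ha', hn'⟩ := hb x
  have hθ' : 3 / 4 ≤ thX (b a') x := by
    refine le_trans ?_ (le_max_left _ _)
    have h1 : nn (b a').cen (A.ζ (b a').k x) / (b a').r ^ 2 < 1 / 4 := by
      rw [div_lt_iff₀ (pow_pos (b a').pos 2)]
      calc nn (b a').cen (A.ζ (b a').k x) < ((b a').r / 2) ^ 2 := hn'
        _ = 1 / 4 * (b a').r ^ 2 := by ring
    linarith
  have hcmp : thX (b a') x * LX η (b a').k x ≤ thX (b a) x * LX η (b a).k x := by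
    have h1 := hmax a' x ha'
    unfold PsiX at h1
    have h2 := le_of_mul_le_mul_left h1 hK1
    exact (Real.rpow_le_rpow_iff (mul_nonneg (thX_nonneg _ _) (LX_nonneg _ _ _)) hT1.le hκ).1 h2
  have hLL : LX η (b a).k x ≤ D * LX η (b a').k x := by
    refine (hD0' a a' x ⟨hx, ha'⟩).trans ?_
    exact mul_le_mul_of_nonneg_right (hDa a a') (LX_nonneg _ _ _)
  have hL' : 0 < LX η (b a').k x := by
    by_contra h
    have h1 : LX η (b a').k x = 0 := le_antisymm (not_lt.1 h) (LX_nonneg _ _ _)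
    rw [h1, mul_zero] at hLL
    linarith
  have hθD : 3 / 4 ≤ thX (b a) x * D := by
    have h1 : 3 / 4 * LX η (b a').k x ≤ (thX (b a) x * D) * LX η (b a').k x := by
      calc 3 / 4 * LX η (b a').k x ≤ thX (b a') x * LX η (b a').k x :=
            mul_le_mul_of_nonneg_right hθ' hL'.le
        _ ≤ thX (b a) x * LX η (b a).k x := hcmp
        _ ≤ thX (b a) x * (D * LX η (b a').k x) := mul_le_mul_of_nonneg_left hLL hθ0.le
        _ = (thX (b a) x * D) * LX η (b a').k x := by ring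
    exact le_of_mul_le_mul_right h1 hL'
  -- the estimate of K
  have hloc := Psi_loc η hκ (b a) hx hK1 hθ0 hL0.ne' (fun x' hx' => hmax a x' hx')
  have hinv : 1 / thX (b a) x ≤ 4 * D / 3 := by
    rw [div_le_iff₀ hθ0]
    nlinarith
  have hinv2 : (1 / thX (b a) x) ^ 2 ≤ (4 * D / 3) ^ 2 :=
    pow_le_pow_left₀ (by positivity) hinv 2
  have hKb : KX η x ≤ 2 * κ * R * s * (4 * D / 3) ^ 2 := by
    refine hloc.trans ?_
    have h1 : 2 * κ * LX η (b a).k x / ((b a).r ^ 2 * thX (b a) x ^ 2)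
        = 2 * κ * LX η (b a).k x * (1 / (b a).r ^ 2) * (1 / thX (b a) x) ^ 2 := by
      have := (b a).pos
      field_simp
    rw [h1]
    have h2 : 2 * κ * LX η (b a).k x ≤ 2 * κ * R :=
      mul_le_mul_of_nonneg_left (hRa a x hx) (by positivity)
    have h3 : 2 * κ * LX η (b a).k x * (1 / (b a).r ^ 2) ≤ 2 * κ * R * s :=
      mul_le_mul h2 (hs0 a) (by have := (b a).pos; positivity) (by positivity)
    exact mul_le_mul h3 hinv2 (by positivity) (by positivity)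
  have hTR : (thX (b a) x * LX η (b a).k x) ^ κ ≤ R := by
    have h1 : thX (b a) x * LX η (b a).k x ≤ R := by
      calc thX (b a) x * LX η (b a).k x ≤ 1 * R :=
            mul_le_mul (thX_le_one _ _) (hRa a x hx) hL0.le zero_le_one
        _ = R := one_mul R
    calc (thX (b a) x * LX η (b a).k x) ^ κ ≤ R ^ κ := Real.rpow_le_rpow hT1.le h1 hκ.le
      _ ≤ R ^ (1 : ℝ) := Real.rpow_le_rpow_of_exponent_le hR1 hκ1
      _ = R := Real.rpow_one R
  calc PsiX η κ (b a) x = KX η x * (thX (b a) x * LX η (b a).k x) ^ κ := rfl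
    _ ≤ (2 * κ * R * s * (4 * D / 3) ^ 2) * R :=
        mul_le_mul hKb hTR (Real.rpow_nonneg hT1.le κ) (by positivity)
    _ = 2 * R * s * (4 * D / 3) ^ 2 * R * κ := by ring

theorem KX_zero [CompactSpace X] [T2Space X] (η : Form A) (x : X) : KX η x = 0 := by
  by_contra hne
  have hK : 0 < KX η x := lt_of_le_of_ne (KX_nonneg η x) (Ne.symm hne)
  obtain ⟨i, m, hi, hm⟩ : ∃ i m, x ∈ (A.c i).source ∧ rho (η.w i) m (A.c i x) ≠ 0 := by
    by_contra h
    apply hne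
    unfold KX
    rw [dif_neg]
    rintro ⟨p, hp⟩
    exact h ⟨p.1, p.2, hp⟩
  obtain ⟨N, b, hb⟩ := exists_pt A
  obtain ⟨a, ha, hn⟩ := hb x
  obtain ⟨C, hC, hCm⟩ := Psi_max η hb
  have hL : 0 < LX η (b a).k x := LX_pos η hi hm ((b a).sub ha)
  have hθ : 0 < thX (b a) x := by
    refine lt_of_lt_of_le ?_ (le_max_left _ _)
    have h1 : nn (b a).cen (A.ζ (b a).k x) / (b a).r ^ 2 < 1 := by
      rw [div_lt_one (pow_pos (b a).pos 2)]
      have h2 : ((b a).r / 2) ^ 2 ≤ (b a).r ^ 2 := by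
        have := sq_nonneg (b a).r
        nlinarith
      linarith
    linarith
  set t : ℝ := thX (b a) x * LX η (b a).k x with ht
  have ht0 : 0 < t := mul_pos hθ hL
  -- the bound for every exponent
  have key : ∀ κ : ℝ, 0 < κ → κ ≤ 1 → KX η x * t ^ κ ≤ C * κ := by
    intro κ hκ hκ1
    set S : Set ℝ := ⋃ a', PsiX η κ (b a') '' (b a').Q with hS
    have hSc : IsCompact S :=
      isCompact_iUnion fun a' => (b a').comp.image_of_continuousOn (Psi_cont η hκ (b a'))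
    have hmem : PsiX η κ (b a) x ∈ S := Set.mem_iUnion.2 ⟨a, x, ha, rfl⟩
    obtain ⟨v, hvS, hv⟩ := hSc.exists_isGreatest ⟨_, hmem⟩
    obtain ⟨a0, x0, hx0, hx0v⟩ := Set.mem_iUnion.1 hvS
    have h1 := hCm κ hκ hκ1 a0 x0 hx0 (fun a' x' hx' => by
      rw [hx0v]
      exact hv (Set.mem_iUnion.2 ⟨a', x', hx', rfl⟩))
    rw [hx0v] at h1
    exact (hv hmem).trans h1
  have hmin : ∀ κ : ℝ, 0 < κ → κ ≤ 1 → min t 1 ≤ t ^ κ := by
    intro κ hκ hκ1
    rcases le_total t 1 with h | h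
    · rw [min_eq_left h]
      calc t = t ^ (1 : ℝ) := (Real.rpow_one t).symm
        _ ≤ t ^ κ := Real.rpow_le_rpow_of_exponent_ge ht0 h hκ1
    · rw [min_eq_right h]
      exact Real.one_le_rpow h hκ.le
  have hδ : 0 < KX η x * min t 1 := mul_pos hK (lt_min ht0 one_pos)
  set δ : ℝ := KX η x * min t 1 with hδdef
  set κ : ℝ := min 1 (δ / (2 * (C + 1))) with hκdef
  have hκ0 : 0 < κ := lt_min one_pos (by positivity)
  have hκ1 : κ ≤ 1 := min_le_left _ _
  have h1 : δ ≤ C * κ :=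
    (mul_le_mul_of_nonneg_left (hmin κ hκ0 hκ1) hK.le).trans (key κ hκ0 hκ1)
  have h2 : C * κ ≤ C * (δ / (2 * (C + 1))) := mul_le_mul_of_nonneg_left (min_le_right _ _) hC
  have h3 : C * (δ / (2 * (C + 1))) < δ := by
    rw [mul_div_assoc', div_lt_iff₀ (by positivity)]
    nlinarith
  linarith

end Pool.Agent.CYN
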