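import Pool.Agent.CYN.Glo

/-!
CYN module Pat (size 4): patches, comparison of the weights.
PROOFS. `exists_pt`: for `x : X` take `k` with `x ∈ V k` and a compact neighbourhood `Q ⊆ V k` of `x`. The compact set `frontier Q ⊆ Q` does not contain `x`; its image under
`ζ k` is compact and does not contain `ζ k x` (`inj`), so there is `r > 0` with `r² ≤ nn (ζ k x) (ζ k y)` for `y ∈ frontier Q` (if the frontier is empty take
`r = 1`): then `y ∈ Q`, `nn (ζ k x) (ζ k y) < r²` imply `y ∉ frontier Q`, so `y ∈ interior Q` (`Q` is closed). This gives a patch `b_x`, and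
`{y ∈ interior Q | nn (ζ k x) (ζ k y) < (r/2)²}` is open (continuity of `ζ k` on the open set `interior Q`) and contains `x`. `X` is compact: finite subcover
(`isCompact_univ.elim_nhds_subcover`, then enumerate the finset, `Finset.equivFin`, as in `exists_cover` of CYF/Geo.lean).
`LX_cmp`: `IsCompact.induction_on` for `Q`: empty set, monotone, union trivial. At `x ∈ Q`: `A.chg k l x` gives `O`, `g` with `ζ k = g ∘ ζ l` on
`V k ∩ V l ∩ ζ l ⁻¹' O`; choose a compact neighbourhood `O₁ ⊆ O` of `ζ l x` and `C` with `∑ ‖jm g y a b‖² ≤ C` on `O₁` (`contDiffOn_jm`). For `y` near `x` in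
`V k ∩ V l`, `ζ l y ∈ O₁`: if `y` is in no source both `LX` are `0`; otherwise `LX_eq` for `k` and `l`, `A.Z k i = g ∘ A.Z l i` near `A.c i y`
(so the same `fderiv`, `jm`, `lam`) and `lam_comp_le`.
-/

open scoped ContDiff ComplexConjugate Topology ComplexOrder
open Complex Matrix

namespace Pool.Agent.CYN

open Pool.Agent.CYF

variable {n : ℕ} {X : Type*} [TopologicalSpace X] {ι κ : Type*}

/-- a patch: a compact subset `Q` of `V k` and a ball of `ℂ^(dim k)` whose inverse image in `Q`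
lies in the interior of `Q` -/
structure Pt (A : Spc (Fin n) X ι κ) where
  /-- the embedding -/
  k : κ
  /-- the compact set -/
  Q : Set X
  /-- the center of the ball -/
  cen : E (A.dim k)
  /-- the radius of the ball -/
  r : ℝ
  pos : 0 < r
  comp : IsCompact Q
  sub : Q ⊆ A.V k
  int : ∀ x ∈ Q, nn cen (A.ζ k x) < r ^ 2 → x ∈ interior Q

variable {A : Spc (Fin n) X ι κ}

private theorem Pat_nn_self {m : ℕ} (c : E m) : nn c c = 0 := by
  unfold nn
  simp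

private theorem Pat_nn_pos {m : ℕ} {c z : E m} (h : z ≠ c) : 0 < nn c z := by
  obtain ⟨k, hk⟩ := Function.ne_iff.1 h
  unfold nn
  refine Finset.sum_pos' (fun _ _ => sq_nonneg _) ⟨k, Finset.mem_univ k, ?_⟩
  have h1 : 0 < ‖z k - c k‖ := norm_pos_iff.2 (sub_ne_zero.2 hk)
  positivity

private theorem Pat_nn_cont {m : ℕ} (c : E m) : Continuous (nn c) := by
  unfold nn
  fun_prop

private theorem Pat_one [CompactSpace X] [T2Space X] (A : Spc (Fin n) X ι κ) (x : X) :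
    ∃ b : Pt A, x ∈ interior b.Q ∧ b.cen = A.ζ b.k x := by
  obtain ⟨k, hk⟩ := A.cover x
  obtain ⟨Q, hQ, hxQ, hQV⟩ := exists_compact_subset (A.isOpen_V k) hk
  have hf : IsCompact (frontier Q) :=
    hQ.of_isClosed_subset isClosed_frontier hQ.isClosed.frontier_subset
  have hc : ContinuousOn (fun y => nn (A.ζ k x) (A.ζ k y)) (frontier Q) :=
    ((Pat_nn_cont _).comp_continuousOn ((A.cont k).mono hQV)).mono hQ.isClosed.frontier_subset
  have hp : ∀ y ∈ frontier Q, 0 < nn (A.ζ k x) (A.ζ k y) := by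
    intro y hy
    refine Pat_nn_pos fun h => ?_
    have hyQ : y ∈ Q := hQ.isClosed.frontier_subset hy
    have h1 : y = x := A.inj k (hQV hyQ) hk h
    rw [hQ.isClosed.frontier_eq] at hy
    exact hy.2 (h1 ▸ hxQ)
  obtain ⟨m, hm, hmy⟩ := hf.exists_forall_le' hc hp
  refine ⟨⟨k, Q, A.ζ k x, Real.sqrt m, Real.sqrt_pos.2 hm, hQ, hQV, fun y hy hlt => ?_⟩, hxQ, rfl⟩
  rw [Real.sq_sqrt hm.le] at hlt
  by_contra hni
  have h1 : y ∈ frontier Q := by
    rw [hQ.isClosed.frontier_eq]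
    exact ⟨hy, hni⟩
  exact absurd (hmy y h1) (not_le.2 hlt)

theorem exists_pt [CompactSpace X] [T2Space X] (A : Spc (Fin n) X ι κ) :
    ∃ (N : ℕ) (b : Fin N → Pt A), ∀ x : X, ∃ a, x ∈ (b a).Q ∧
      nn (b a).cen (A.ζ (b a).k x) < ((b a).r / 2) ^ 2 := by
  classical
  choose b hb hbc using Pat_one A
  obtain ⟨U, hUd⟩ : ∃ U : X → Set X, ∀ x, U x = interior (b x).Q ∩
      (fun y => nn (b x).cen (A.ζ (b x).k y)) ⁻¹' Set.Iio (((b x).r / 2) ^ 2) := ⟨_, fun _ => rfl⟩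
  have hU : ∀ x, IsOpen (U x) := by
    intro x
    rw [hUd]
    refine ContinuousOn.isOpen_inter_preimage ?_ isOpen_interior isOpen_Iio
    exact (Pat_nn_cont _).comp_continuousOn
      ((A.cont _).mono (interior_subset.trans (b x).sub))
  have hxU : ∀ x, x ∈ U x := by
    intro x
    rw [hUd]
    refine ⟨hb x, ?_⟩
    show nn (b x).cen (A.ζ (b x).k x) < ((b x).r / 2) ^ 2
    rw [← hbc x, Pat_nn_self]
    have := (b x).pos
    positivity
  obtain ⟨t, ht⟩ := CompactSpace.elim_nhds_subcover U (fun x => (hU x).mem_nhds (hxU x))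
  refine ⟨t.card, fun a => b (t.equivFin.symm a : X), fun x => ?_⟩
  have h2 : x ∈ ⋃ y ∈ t, U y := by rw [ht]; trivial
  simp only [Set.mem_iUnion] at h2
  obtain ⟨y, hy, hx⟩ := h2
  rw [hUd] at hx
  refine ⟨t.equivFin ⟨y, hy⟩, ?_⟩
  show x ∈ (b ((t.equivFin.symm (t.equivFin ⟨y, hy⟩) : t) : X)).Q ∧
    nn (b ((t.equivFin.symm (t.equivFin ⟨y, hy⟩) : t) : X)).cen
      (A.ζ (b ((t.equivFin.symm (t.equivFin ⟨y, hy⟩) : t) : X)).k x)
      < ((b ((t.equivFin.symm (t.equivFin ⟨y, hy⟩) : t) : X)).r / 2) ^ 2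
  rw [Equiv.symm_apply_apply]
  exact ⟨interior_subset hx.1, hx.2⟩

private theorem Pat_lam_congr {m : ℕ} {w : E n → ℝ} {φ ψ : E n → E m} {z : E n}
    (h : φ =ᶠ[𝓝 z] ψ) : lam w φ z = lam w ψ z := by
  unfold lam jm
  rw [h.fderiv_eq]

private theorem Pat_loc (η : Form A) {k l : κ} {x : X} (hk : x ∈ A.V k) (hl : x ∈ A.V l) :
    ∃ C : ℝ, 0 ≤ C ∧ ∃ T ∈ 𝓝 x, ∀ y ∈ T, LX η k y ≤ C * LX η l y := by
  obtain ⟨O, g, hO, hxO, hg, hgy⟩ := A.chg k l x ⟨hk, hl⟩
  obtain ⟨J, hJ⟩ : ∃ J : E (A.dim l) → ℝ, J = fun y => ∑ a, ∑ b, ‖jm g y a b‖ ^ 2 := ⟨_, rfl⟩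
  have hJc : ContinuousOn J O := by
    rw [hJ]
    refine continuousOn_finsetSum _ fun a _ => continuousOn_finsetSum _ fun b _ => ?_
    exact (contDiffOn_jm hO hg a b).continuousOn.norm.pow 2
  have hJ0 : ∀ y, 0 ≤ J y := by
    intro y
    rw [hJ]
    positivity
  have hζ : ContinuousAt (A.ζ l) x := (A.cont l).continuousAt ((A.isOpen_V l).mem_nhds hl)
  have h1 : ∀ᶠ y in 𝓝 x, A.ζ l y ∈ O := hζ.eventually (hO.mem_nhds hxO)
  have h2 : ∀ᶠ y in 𝓝 x, J (A.ζ l y) < J (A.ζ l x) + 1 := by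
    have h3 : ContinuousAt (fun y => J (A.ζ l y)) x :=
      ContinuousAt.comp (f := A.ζ l) (hJc.continuousAt (hO.mem_nhds hxO)) hζ
    exact h3.eventually (gt_mem_nhds (by linarith))
  have h4 : ∀ᶠ y in 𝓝 x, y ∈ A.V k := (A.isOpen_V k).mem_nhds hk
  have h5 : ∀ᶠ y in 𝓝 x, y ∈ A.V l := (A.isOpen_V l).mem_nhds hl
  refine ⟨J (A.ζ l x) + 1, by linarith [hJ0 (A.ζ l x)], _, (h1.and h2).and (h4.and h5), ?_⟩
  rintro y ⟨⟨hyO, hyJ⟩, hyk, hyl⟩
  by_cases hs : ∃ i, y ∈ (A.c i).source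
  · obtain ⟨i, hi⟩ := hs
    have hyk' : y ∈ A.V k := hyk
    have hyl' : y ∈ A.V l := hyl
    rw [LX_eq η hi hyk', LX_eq η hi hyl']
    have hz : A.c i y ∈ (A.c i).target := (A.c i).map_source hi
    have hinv : (A.c i).symm (A.c i y) = y := (A.c i).left_inv hi
    have hDk : A.c i y ∈ A.D k i := ⟨hz, by rw [Set.mem_preimage, hinv]; exact hyk'⟩
    have hDl : A.c i y ∈ A.D l i := ⟨hz, by rw [Set.mem_preimage, hinv]; exact hyl'⟩
    have hZ : A.Z l i (A.c i y) = A.ζ l y := by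
      show A.ζ l ((A.c i).symm (A.c i y)) = A.ζ l y
      rw [hinv]
    have hφ : ContDiffOn ℂ ∞ (A.Z l i) (A.D l i) := A.hol_ζ l i
    have hφd : DifferentiableAt ℂ (A.Z l i) (A.c i y) := diff_of_hol (isOpen_D l i) hφ hDl
    have hgd : DifferentiableAt ℂ g (A.Z l i (A.c i y)) := by
      rw [hZ]
      exact diff_of_hol hO hg hyO
    have he : A.Z k i =ᶠ[𝓝 (A.c i y)] fun y' => g (A.Z l i y') := by
      have e1 : ∀ᶠ y' in 𝓝 (A.c i y), A.Z l i y' ∈ O := by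
        apply hφd.continuousAt.eventually
        rw [hZ]
        exact hO.mem_nhds hyO
      filter_upwards [(isOpen_D k i).mem_nhds hDk, (isOpen_D l i).mem_nhds hDl, e1] with y' a1 a2 a3
      exact hgy _ ⟨a1.2, a2.2⟩ a3
    rw [Pat_lam_congr he]
    refine (lam_comp_le (psd η hz) (η.det_eq_zero i _ hz) hφd hgd).trans ?_
    refine mul_le_mul_of_nonneg_right ?_ (lam_nonneg (psd η hz))
    have e2 : J (A.ζ l y) ≤ J (A.ζ l x) + 1 := le_of_lt hyJ
    rw [hZ]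
    rw [hJ] at e2 ⊢
    exact e2
  · have e1 : LX η k y = 0 := by
      unfold LX
      rw [dif_neg hs]
    have e2 : LX η l y = 0 := by
      unfold LX
      rw [dif_neg hs]
    rw [e1, e2, mul_zero]

theorem LX_cmp (η : Form A) {k l : κ} {Q : Set X} (hQ : IsCompact Q) (hk : Q ⊆ A.V k)
    (hl : Q ⊆ A.V l) : ∃ C : ℝ, 0 ≤ C ∧ ∀ x ∈ Q, LX η k x ≤ C * LX η l x := by
  refine hQ.induction_on (p := fun T => ∃ C : ℝ, 0 ≤ C ∧ ∀ x ∈ T, LX η k x ≤ C * LX η l x)
    ⟨0, le_refl _, fun x hx => absurd hx (Set.notMem_empty x)⟩ ?_ ?_ ?_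
  · rintro s t hst ⟨C, hC, h⟩
    exact ⟨C, hC, fun x hx => h x (hst hx)⟩
  · rintro s t ⟨C, hC, h⟩ ⟨D, hD, h'⟩
    refine ⟨max C D, hC.trans (le_max_left _ _), fun x hx => ?_⟩
    rcases hx with hx | hx
    · exact (h x hx).trans (mul_le_mul_of_nonneg_right (le_max_left _ _) (LX_nonneg η l x))
    · exact (h' x hx).trans (mul_le_mul_of_nonneg_right (le_max_right _ _) (LX_nonneg η l x))
  · intro x hx
    obtain ⟨C, hC, T, hT, h⟩ := Pat_loc η (hk hx) (hl hx)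
    exact ⟨T, mem_nhdsWithin_of_mem_nhds hT, C, hC, h⟩

end Pool.Agent.CYN
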