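import Pool.Agent.CYF.Pos
import Pool.Agent.CYF.Adj

/-!
CYN module Alg (size 5): the linear algebra of the a priori bound.
PROOF. `simdiag`: `pos_factor` (CYF/Pos.lean) gives `N = Gᵀ * posC G` with `G * K = 1`, `K * G = 1`. The matrix
`F₁ = Kᵀ * F * posC K` is hermitian, so by the spectral theorem `F₁ = Q * diagonal μ * Qᴴ` with `Q` unitary; put
`P = K * posC Q` (`Pᵀ = Qᴴ * Kᵀ`): `Pᵀ * F * posC P = Qᴴ F₁ Q = diagonal μ`, `Pᵀ * N * posC P = Qᴴ Q = 1`,
and `P` is invertible.
`alg`: take `P, R, μ` from `simdiag` (`P * R = 1`). `μ j ≥ 0` since `F` is psd, `μ j ≤ c` since `hFN` for the vector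
`a = P e_j` reads `μ j ≤ c`. `v := R u`: `u = P v`, `∑_k v_k μ_k δ_kl = 0`, so `μ k v k = 0`. `v ≠ 0`, choose `i₀` with
`v i₀ ≠ 0`: `μ i₀ = 0`, and `μ j > 0` for `j ≠ i₀` (otherwise the kernel of `F` has dimension `≥ 2`, contradiction with
`adj_uniq`). So `v = v_{i₀} e_{i₀}`. `X' := R * X * posC P`; `tr (X' posC X') = tr (X posC X)` and
`X' conj v = 0`, i.e. the column `i₀` of `X'` is zero. Put `S j l = ∑_k X k j F k l` (symmetric, `hX.symm`);
`S' = Pᴴ`-transform: `S' j l := ∑_{a, b} conj (P a j) conj (P b l) S a b = X' l j μ l`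
(from `Xᵀ F = S` one gets `(X')ᵀ diagonal μ = (posC P)ᵀ S (posC P)`). `hS` with `b = P e_j`, `a = P e_l` :
`‖S' j l‖² ≤ C (N(u,u)) · 1 · μ l = C |v_{i₀}|² μ l`, by symmetry also `≤ C |v_{i₀}|² μ j`.
`tr (X' posC X') = ∑_{l, j ≠ i₀} X' l j conj (X' j l)` (terms with `j = i₀` or `l = i₀` vanish)
`= ∑ S' j l conj (S' l j) / (μ l μ j) ≤ ∑_{l, j ≠ i₀} C |v_{i₀}|² / μ j`.
`adj F`: `adjugate (Pᵀ F posC P) = adjugate (posC P) * adjugate F * adjugate Pᵀ` (`Matrix.adjugate_mul_distrib`);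
`adj F l k = ρ u k conj (u l)` (`adj_rank`, `ρ = adj F m m`, `u = adj F m · / adj F m m`), so the entry `(i₀, i₀)` gives
`|det P|² ρ |v_{i₀}|² = ∏_{j ≠ i₀} μ j`. `det N * |det P|² = 1`. Hence
`ρ tr ≤ C |det P|⁻² ∑_{l, j ≠ i₀} ∏_{k ≠ i₀, j} μ k ≤ C n² (1 + c)^n det N` and
`∑ adj F l k N k l = ρ N(u,u) = ρ |v_{i₀}|² = |det P|⁻² ∏_{j ≠ i₀} μ j ≤ (1 + c)^n det N`.
-/

set_option linter.unusedSectionVars false

open scoped ContDiff ComplexConjugate Topology ComplexOrder MatrixOrder Matrix.Norms.L2Operator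
open Complex Matrix

namespace Pool.Agent.CYN

open Pool.Agent.CYF

variable {n : ℕ}

private theorem Alg_cj_mul (A B : Matrix (Fin n) (Fin n) ℂ) : cj (A * B) = cj A * cj B :=
  posC_mul A B

private theorem Alg_cj_cj (A : Matrix (Fin n) (Fin n) ℂ) : cj (cj A) = A := posC_posC A

private theorem Alg_cj_one : cj (1 : Matrix (Fin n) (Fin n) ℂ) = 1 := posC_one

private theorem Alg_cj_T (A : Matrix (Fin n) (Fin n) ℂ) : (cj A)ᵀ = Aᴴ := rfl

private theorem Alg_H_T (A : Matrix (Fin n) (Fin n) ℂ) : (Aᵀ)ᴴ = cj A := rfl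

private theorem Alg_cj_H (A : Matrix (Fin n) (Fin n) ℂ) : (cj A)ᴴ = Aᵀ := by
  rw [← Alg_cj_T, Alg_cj_cj]

private theorem Alg_cj_Hc (A : Matrix (Fin n) (Fin n) ℂ) : cj Aᴴ = Aᵀ := by
  ext i j
  rw [cj_apply, Matrix.conjTranspose_apply, Matrix.transpose_apply]
  exact Complex.conj_conj _

private theorem Alg_entry (M P : Matrix (Fin n) (Fin n) ℂ) (j l : Fin n) :
    (Pᵀ * M * cj P) j l = ∑ k, ∑ k', P k j * conj (P k' l) * M k k' := by
  simp only [Matrix.mul_apply, Matrix.transpose_apply, cj_apply, Finset.sum_mul]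
  rw [Finset.sum_comm]
  exact Finset.sum_congr rfl fun k _ => Finset.sum_congr rfl fun k' _ => by ring

private theorem Alg_adj {P R : Matrix (Fin n) (Fin n) ℂ} (h : P * R = 1) :
    P.adjugate = P.det • R := by
  calc P.adjugate = P.adjugate * (P * R) := by rw [h, Matrix.mul_one]
    _ = (P.adjugate * P) * R := by rw [Matrix.mul_assoc]
    _ = P.det • R := by rw [Matrix.adjugate_mul, Matrix.smul_mul, Matrix.one_mul]

/-- simultaneous diagonalisation -/
theorem simdiag {F N : Matrix (Fin n) (Fin n) ℂ} (hF : F.PosSemidef) (hN : N.PosDef) :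
    ∃ (P R : Matrix (Fin n) (Fin n) ℂ) (μ : Fin n → ℝ), P * R = 1 ∧ R * P = 1 ∧
      Pᵀ * N * cj P = 1 ∧ Pᵀ * F * cj P = Matrix.diagonal (fun j => (μ j : ℂ)) := by
  obtain ⟨G, K, h1, h2, h3⟩ := pos_factor hN
  have h3' : N = Gᵀ * cj G := h3
  have hH : (Kᵀ * F * cj K).IsHermitian := by
    show (Kᵀ * F * cj K)ᴴ = _
    rw [Matrix.conjTranspose_mul, Matrix.conjTranspose_mul, Alg_cj_H, Alg_H_T,
      hF.isHermitian.eq, Matrix.mul_assoc]
  obtain ⟨Q, μ, q1, q2, hd⟩ : ∃ (Q : Matrix (Fin n) (Fin n) ℂ) (μ : Fin n → ℝ), Qᴴ * Q = 1 ∧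
      Q * Qᴴ = 1 ∧ Qᴴ * (Kᵀ * F * cj K) * Q = Matrix.diagonal (fun j => (μ j : ℂ)) := by
    refine ⟨(hH.eigenvectorUnitary : Matrix (Fin n) (Fin n) ℂ), hH.eigenvalues,
      Unitary.coe_star_mul_self hH.eigenvectorUnitary,
      Unitary.coe_mul_star_self hH.eigenvectorUnitary, ?_⟩
    have h := hH.conjStarAlgAut_star_eigenvectorUnitary
    rw [Unitary.conjStarAlgAut_star_apply] at h
    exact h
  refine ⟨K * cj Q, Qᵀ * G, μ, ?_, ?_, ?_, ?_⟩
  · have e1 : cj Q * Qᵀ = 1 := by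
      have : cj (Q * Qᴴ) = cj Q * Qᵀ := by rw [Alg_cj_mul, Alg_cj_Hc]
      rw [← this, q2, Alg_cj_one]
    calc K * cj Q * (Qᵀ * G) = K * (cj Q * Qᵀ) * G := by simp only [Matrix.mul_assoc]
      _ = 1 := by rw [e1, Matrix.mul_one, h2]
  · have e1 : Qᵀ * cj Q = 1 := by
      have : (Qᴴ * Q)ᵀ = Qᵀ * cj Q := by rw [Matrix.transpose_mul]; rfl
      rw [← this, q1, Matrix.transpose_one]
    calc Qᵀ * G * (K * cj Q) = Qᵀ * (G * K) * cj Q := by simp only [Matrix.mul_assoc]
      _ = 1 := by rw [h1, Matrix.mul_one, e1]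
  · rw [Matrix.transpose_mul, Alg_cj_T, Alg_cj_mul, Alg_cj_cj, h3']
    have e1 : Kᵀ * Gᵀ = 1 := by rw [← Matrix.transpose_mul, h1, Matrix.transpose_one]
    have e2 : cj G * cj K = 1 := by rw [← Alg_cj_mul, h1, Alg_cj_one]
    calc Qᴴ * Kᵀ * (Gᵀ * cj G) * (cj K * Q) = Qᴴ * (Kᵀ * Gᵀ) * (cj G * cj K) * Q := by
          simp only [Matrix.mul_assoc]
      _ = 1 := by rw [e1, e2, Matrix.mul_one, Matrix.mul_one, q1]
  · rw [Matrix.transpose_mul, Alg_cj_T, Alg_cj_mul, Alg_cj_cj, ← hd]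
    simp only [Matrix.mul_assoc]

private theorem Alg_col {P R : Matrix (Fin n) (Fin n) ℂ} (hPR : P * R = 1) {u v : Fin n → ℂ}
    (hv : v = R *ᵥ u) : u = P *ᵥ v := by
  rw [hv, Matrix.mulVec_mulVec, hPR, Matrix.one_mulVec]

private theorem Alg_prod {n : ℕ} {c : ℝ} (hc : 0 ≤ c) {μ : Fin n → ℝ} (h0 : ∀ j, 0 ≤ μ j)
    (h1 : ∀ j, μ j ≤ c) (s : Finset (Fin n)) : ∏ k ∈ s, μ k ≤ (1 + c) ^ n := by
  calc ∏ k ∈ s, μ k ≤ ∏ k ∈ s, (1 + c) :=
        Finset.prod_le_prod (fun k _ => h0 k) fun k _ => by linarith [h1 k]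
    _ = (1 + c) ^ s.card := by rw [Finset.prod_const]
    _ ≤ (1 + c) ^ n := by
        refine pow_le_pow_right₀ (by linarith) ?_
        simpa using s.card_le_univ

/-- everything in the diagonal coordinates -/
private theorem Alg_core {c C V d ρ : ℝ} (hc : 0 ≤ c) (hC : 0 ≤ C) {μ : Fin n → ℝ}
    (h0 : ∀ j, 0 ≤ μ j) (h1 : ∀ j, μ j ≤ c) {i₀ : Fin n} (hi : ∀ j, j ≠ i₀ → μ j ≠ 0)
    {Y : Matrix (Fin n) (Fin n) ℂ} (hY : ∀ k, Y k i₀ = 0)
    (hsym : ∀ j l, Y l j * μ l = Y j l * μ j)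
    (hS : ∀ j l, ‖Y l j * μ l‖ ^ 2 ≤ C * V * μ l) (hd : 0 < d) (hρ : 0 ≤ ρ)
    (hρV : ρ * V = d * ∏ k ∈ Finset.univ.erase i₀, μ k) :
    ρ * (Y * cj Y).trace.re ≤ C * n ^ 2 * (1 + c) ^ n * d ∧ ρ * V ≤ (1 + c) ^ n * d := by
  have hb : ρ * V ≤ (1 + c) ^ n * d := by
    rw [hρV, mul_comm]
    exact mul_le_mul_of_nonneg_right (Alg_prod hc h0 h1 _) hd.le
  refine ⟨?_, hb⟩
  have ht : (Y * cj Y).trace.re = ∑ l, ∑ j, (Y l j * conj (Y j l)).re := by
    unfold Matrix.trace
    rw [Complex.re_sum]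
    refine Finset.sum_congr rfl fun l _ => ?_
    rw [Matrix.diag_apply, Matrix.mul_apply, Complex.re_sum]
    exact Finset.sum_congr rfl fun j _ => by rw [cj_apply]
  have hterm : ∀ l j, ρ * (Y l j * conj (Y j l)).re ≤ C * (1 + c) ^ n * d := by
    intro l j
    have hpos : 0 ≤ C * (1 + c) ^ n * d :=
      mul_nonneg (mul_nonneg hC (pow_nonneg (by linarith) _)) hd.le
    by_cases hj : j = i₀
    · rw [hj, hY, zero_mul, Complex.zero_re, mul_zero]
      exact hpos
    by_cases hl : l = i₀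
    · rw [hl, hY, map_zero, mul_zero, Complex.zero_re, mul_zero]
      exact hpos
    have hμj : 0 < μ j := lt_of_le_of_ne (h0 j) (Ne.symm (hi j hj))
    have hμl : 0 < μ l := lt_of_le_of_ne (h0 l) (Ne.symm (hi l hl))
    have hμjc : (μ j : ℂ) ≠ 0 := by exact_mod_cast hμj.ne'
    have hμlc : (μ l : ℂ) ≠ 0 := by exact_mod_cast hμl.ne'
    have e1 : Y l j = (Y l j * μ l) / μ l := by field_simp
    have e2 : Y j l = (Y l j * μ l) / μ j := by rw [hsym j l]; field_simp
    have e3 : Y l j * conj (Y j l) = ((‖Y l j * μ l‖ ^ 2 / (μ l * μ j) : ℝ) : ℂ) := by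
      calc Y l j * conj (Y j l)
          = ((Y l j * μ l) / μ l) * conj ((Y l j * μ l) / μ j) := by rw [← e1, ← e2]
        _ = ((Y l j * μ l) * conj (Y l j * μ l)) / (μ l * μ j) := by
            rw [map_div₀, Complex.conj_ofReal]
            field_simp
        _ = ((‖Y l j * μ l‖ ^ 2 / (μ l * μ j) : ℝ) : ℂ) := by
            rw [Complex.mul_conj, Complex.normSq_eq_norm_sq]
            push_cast
            rfl
    rw [e3, Complex.ofReal_re]
    have h2 : ‖Y l j * μ l‖ ^ 2 / (μ l * μ j) ≤ C * V / μ j := by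
      rw [div_le_div_iff₀ (mul_pos hμl hμj) hμj]
      have := mul_le_mul_of_nonneg_right (hS j l) hμj.le
      linarith
    have h3 : ρ * (‖Y l j * μ l‖ ^ 2 / (μ l * μ j)) ≤ ρ * (C * V / μ j) :=
      mul_le_mul_of_nonneg_left h2 hρ
    have h4 : ρ * (C * V / μ j) = C * d * ∏ k ∈ (Finset.univ.erase i₀).erase j, μ k := by
      have h5 := Finset.mul_prod_erase (Finset.univ.erase i₀) μ
        (Finset.mem_erase.2 ⟨hj, Finset.mem_univ j⟩)
      have h6 : ρ * (C * V / μ j) = C * (ρ * V) / μ j := by ring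
      rw [h6, hρV, ← h5]
      field_simp
    have h7 : C * d * ∏ k ∈ (Finset.univ.erase i₀).erase j, μ k ≤ C * d * (1 + c) ^ n :=
      mul_le_mul_of_nonneg_left (Alg_prod hc h0 h1 _) (mul_nonneg hC hd.le)
    linarith
  rw [ht, Finset.mul_sum]
  calc ∑ l, ρ * ∑ j, (Y l j * conj (Y j l)).re
      = ∑ l, ∑ j, ρ * (Y l j * conj (Y j l)).re :=
        Finset.sum_congr rfl fun l _ => Finset.mul_sum _ _ _
    _ ≤ ∑ _l : Fin n, ∑ _j : Fin n, C * (1 + c) ^ n * d :=
        Finset.sum_le_sum fun l _ => Finset.sum_le_sum fun j _ => hterm l j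
    _ = C * n ^ 2 * (1 + c) ^ n * d := by
        simp only [Finset.sum_const, Finset.card_univ, Fintype.card_fin, nsmul_eq_mul]
        ring

theorem alg {c C : ℝ} (hc : 0 ≤ c) (hC : 0 ≤ C) {F N X : Matrix (Fin n) (Fin n) ℂ}
    (hF : F.PosSemidef) (hd : F.det = 0) (hN : N.PosDef) {m : Fin n} {u : Fin n → ℂ}
    (hm : F.adjugate m m ≠ 0) (hu : u m = 1) (hk : ∀ l, ∑ k, u k * F k l = 0)
    (hX : Adm F m u X)
    (hFN : ∀ a : Fin n → ℂ, (∑ k, ∑ l, a k * conj (a l) * F k l).re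
      ≤ c * (∑ k, ∑ l, a k * conj (a l) * N k l).re)
    (hS : ∀ a b : Fin n → ℂ,
      ‖∑ j, ∑ l, conj (b j) * conj (a l) * (∑ k, X k j * F k l)‖ ^ 2
        ≤ C * (∑ k, ∑ l, u k * conj (u l) * N k l).re
          * (∑ k, ∑ l, b k * conj (b l) * N k l).re * (∑ k, ∑ l, a k * conj (a l) * F k l).re) :
    (F.adjugate m m).re * (X * cj X).trace.re ≤ C * n ^ 2 * (1 + c) ^ n * N.det.re ∧
      (∑ k, ∑ l, F.adjugate l k * N k l).re ≤ (1 + c) ^ n * N.det.re := by
  obtain ⟨P, R, μ, hPR, hRP, hN1, hF1⟩ := simdiag hF hN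
  have hcRP : cj R * cj P = 1 := by rw [← Alg_cj_mul, hRP, Alg_cj_one]
  have hcPR : cj P * cj R = 1 := by rw [← Alg_cj_mul, hPR, Alg_cj_one]
  have fN : ∀ j l, ∑ k, ∑ k', P k j * conj (P k' l) * N k k' = if j = l then 1 else 0 := by
    intro j l
    rw [← Alg_entry, hN1, Matrix.one_apply]
  have fF : ∀ j l, ∑ k, ∑ k', P k j * conj (P k' l) * F k k' = if j = l then (μ j : ℂ) else 0 := by
    intro j l
    rw [← Alg_entry, hF1, Matrix.diagonal_apply]
  -- eigenvalues
  have h0 : ∀ j, 0 ≤ μ j := by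
    intro j
    have h := (hF.conjTranspose_mul_mul_same (cj P)).diag_nonneg (i := j)
    rw [Alg_cj_H, hF1, Matrix.diagonal_apply_eq] at h
    exact_mod_cast h
  have h1 : ∀ j, μ j ≤ c := by
    intro j
    have h := hFN fun k => P k j
    rw [fF j j, fN j j] at h
    simpa using h
  -- the kernel vector
  obtain ⟨v, hv⟩ : ∃ v : Fin n → ℂ, v = R *ᵥ u := ⟨_, rfl⟩
  have hu' := Alg_col hPR hv
  have hvμ : ∀ k, v k * μ k = 0 := by
    have e1 : u ᵥ* F = 0 := by
      funext l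
      exact hk l
    have e2 : v ᵥ* (Pᵀ * F * cj P) = 0 := by
      rw [← Matrix.vecMul_vecMul, ← Matrix.vecMul_vecMul, Matrix.vecMul_transpose, ← hu', e1,
        Matrix.zero_vecMul]
    intro k
    have e3 := congrFun e2 k
    rw [hF1, Matrix.vecMul_diagonal] at e3
    exact e3
  obtain ⟨i₀, hi₀⟩ : ∃ i, v i ≠ 0 := by
    by_contra hcon
    push Not at hcon
    have : v = 0 := funext hcon
    rw [this, Matrix.mulVec_zero] at hu'
    rw [hu'] at hu
    simp at hu
  have hker : ∀ j, μ j = 0 → ∀ l, ∑ k, P k j * F k l = 0 := by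
    intro j hj l
    have e1 : (Pᵀ * F) = (Pᵀ * F * cj P) * cj R := by
      rw [Matrix.mul_assoc (Pᵀ * F), hcPR, Matrix.mul_one]
    have e2 : (Pᵀ * F) j l = 0 := by
      rw [e1, hF1, Matrix.diagonal_mul, hj, Complex.ofReal_zero, zero_mul]
    rw [Matrix.mul_apply] at e2
    exact e2
  have hμi : μ i₀ = 0 := by
    rcases mul_eq_zero.1 (hvμ i₀) with h | h
    · exact absurd h hi₀
    · exact_mod_cast h
  have hi : ∀ j, j ≠ i₀ → μ j ≠ 0 := by
    intro j hj hμ
    have a1 := adj_ker hd hm (hker j hμ)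
    have a2 := adj_ker hd hm (hker i₀ hμi)
    -- `P m i₀ • col j = P m j • col i₀`
    have e1 : P *ᵥ (fun k => if k = j then P m i₀ else if k = i₀ then -P m j else 0) = 0 := by
      funext k
      have e2 : (P *ᵥ (fun k => if k = j then P m i₀ else if k = i₀ then -P m j else 0)) k
          = P k j * P m i₀ + P k i₀ * (-P m j) := by
        have e3 : (fun k => if k = j then P m i₀ else if k = i₀ then -P m j else 0)
            = (Pi.single j (P m i₀) : Fin n → ℂ) + Pi.single i₀ (-P m j) := by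
          funext l
          rw [Pi.add_apply]
          by_cases hl : l = j
          · subst hl
            rw [if_pos rfl, Pi.single_eq_same, Pi.single_eq_of_ne hj, add_zero]
          · by_cases hl2 : l = i₀
            · subst hl2
              rw [if_neg hl, if_pos rfl, Pi.single_eq_same, Pi.single_eq_of_ne hl, zero_add]
            · rw [if_neg hl, if_neg hl2, Pi.single_eq_of_ne hl, Pi.single_eq_of_ne hl2, add_zero]
        rw [e3, Matrix.mulVec_add, Pi.add_apply, Matrix.mulVec_single, Matrix.mulVec_single]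
        simp [Matrix.col_apply]
      rw [e2, a1 k, a2 k, Pi.zero_apply]
      ring
    have e4 : (fun k => if k = j then P m i₀ else if k = i₀ then -P m j else 0)
        = (0 : Fin n → ℂ) := by
      have := congrArg (fun x => R *ᵥ x) e1
      simp only [Matrix.mulVec_mulVec, hRP, Matrix.one_mulVec, Matrix.mulVec_zero] at this
      exact this
    have e5 : P m i₀ = 0 := by
      have := congrFun e4 j
      simpa using this
    have e6 : ∀ k, P k i₀ = 0 := by
      intro k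
      rw [a2 k, e5, zero_mul]
    have e7 : (R * P) i₀ i₀ = 0 := by
      rw [Matrix.mul_apply]
      exact Finset.sum_eq_zero fun k _ => by rw [e6 k, mul_zero]
    rw [hRP, Matrix.one_apply_eq] at e7
    exact one_ne_zero e7
  have hvj : ∀ j, j ≠ i₀ → v j = 0 := by
    intro j hj
    rcases mul_eq_zero.1 (hvμ j) with h | h
    · exact h
    · exact absurd (by exact_mod_cast h) (hi j hj)
  have hvs : v = Pi.single i₀ (v i₀) := by
    funext j
    by_cases hj : j = i₀
    · rw [hj, Pi.single_eq_same]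
    · rw [Pi.single_eq_of_ne hj, hvj j hj]
  have huk : ∀ k, u k = P k i₀ * v i₀ := by
    intro k
    have := congrFun hu' k
    rw [hvs, Matrix.mulVec_single] at this
    rw [this]
    simp [Matrix.col_apply]
  have hNu : ∑ k, ∑ l, u k * conj (u l) * N k l = ((Complex.normSq (v i₀) : ℝ) : ℂ) := by
    have e1 : ∑ k, ∑ l, u k * conj (u l) * N k l
        = v i₀ * conj (v i₀) * ∑ k, ∑ l, P k i₀ * conj (P l i₀) * N k l := by
      rw [Finset.mul_sum]
      refine Finset.sum_congr rfl fun k _ => ?_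
      rw [Finset.mul_sum]
      refine Finset.sum_congr rfl fun l _ => ?_
      rw [huk k, huk l, map_mul]
      ring
    rw [e1, fN, if_pos rfl, mul_one, Complex.mul_conj]
  -- the transformed matrix
  obtain ⟨Y, hYd⟩ : ∃ Y : Matrix (Fin n) (Fin n) ℂ, Y = R * X * cj P := ⟨_, rfl⟩
  have hPY : P * Y = X * cj P := by
    rw [hYd]
    calc P * (R * X * cj P) = (P * R) * X * cj P := by simp only [Matrix.mul_assoc]
      _ = X * cj P := by rw [hPR, Matrix.one_mul]
  have htr : (Y * cj Y).trace = (X * cj X).trace := by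
    have e1 : Y * cj Y = R * (X * cj X * P) := by
      rw [hYd, Alg_cj_mul, Alg_cj_mul, Alg_cj_cj]
      calc R * X * cj P * (cj R * cj X * P) = R * X * (cj P * cj R) * (cj X * P) := by
            simp only [Matrix.mul_assoc]
        _ = R * (X * cj X * P) := by rw [hcPR]; simp only [Matrix.mul_assoc, Matrix.mul_one]
    rw [e1, Matrix.trace_mul_comm, Matrix.mul_assoc, hPR, Matrix.mul_one]
  have hY : ∀ k, Y k i₀ = 0 := by
    have e1 : ∀ k, (X * cj P) k i₀ = 0 := by
      intro k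
      have e2 := hX.kill k
      have e3 : ∑ j, X k j * conj (u j) = conj (v i₀) * (X * cj P) k i₀ := by
        rw [Matrix.mul_apply, Finset.mul_sum]
        refine Finset.sum_congr rfl fun j _ => ?_
        rw [huk j, map_mul, cj_apply]
        ring
      rw [e3] at e2
      rcases mul_eq_zero.1 e2 with h | h
      · exact absurd ((map_eq_zero _).1 h) hi₀
      · exact h
    intro k
    rw [hYd, Matrix.mul_assoc, Matrix.mul_apply]
    exact Finset.sum_eq_zero fun j _ => by rw [e1 j, mul_zero]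
  have hSy : ∀ j l, ∑ j', ∑ l', conj (P j' j) * conj (P l' l) * (∑ k, X k j' * F k l')
      = Y l j * μ l := by
    intro j l
    have e1 : (cj P)ᵀ * (Xᵀ * F) * cj P = Yᵀ * Matrix.diagonal (fun j => (μ j : ℂ)) := by
      rw [← hF1]
      calc (cj P)ᵀ * (Xᵀ * F) * cj P = (X * cj P)ᵀ * F * cj P := by
            rw [Matrix.transpose_mul]; simp only [Matrix.mul_assoc]
        _ = Yᵀ * (Pᵀ * F * cj P) := by
            rw [← hPY, Matrix.transpose_mul]; simp only [Matrix.mul_assoc]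
    have e2 : ((cj P)ᵀ * (Xᵀ * F) * cj P) j l
        = ∑ j', ∑ l', conj (P j' j) * conj (P l' l) * (∑ k, X k j' * F k l') := by
      simp only [Matrix.mul_apply, Matrix.transpose_apply, cj_apply]
      simp only [Finset.sum_mul]
      rw [Finset.sum_comm]
      refine Finset.sum_congr rfl fun j' _ => Finset.sum_congr rfl fun l' _ => ?_
      ring
    rw [← e2, e1, Matrix.mul_diagonal, Matrix.transpose_apply]
  have hsym : ∀ j l, Y l j * μ l = Y j l * μ j := by
    intro j l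
    rw [← hSy j l, ← hSy l j, Finset.sum_comm]
    refine Finset.sum_congr rfl fun j' _ => Finset.sum_congr rfl fun l' _ => ?_
    rw [hX.symm l' j']
    ring
  have hS' : ∀ j l, ‖Y l j * μ l‖ ^ 2 ≤ C * Complex.normSq (v i₀) * μ l := by
    intro j l
    have h := hS (fun k => P k l) (fun k => P k j)
    rw [hNu, fN j j, fF l l, if_pos rfl, if_pos rfl, Complex.ofReal_re, Complex.ofReal_re,
      Complex.one_re, mul_one] at h
    rw [hSy j l] at h
    exact h
  -- the adjugate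
  obtain ⟨him, hre⟩ := adj_diag_real hF m
  have hρ : F.adjugate m m = ((F.adjugate m m).re : ℂ) := by
    apply Complex.ext
    · simp
    · simpa using him
  have hadj : ∀ k l, F.adjugate l k = F.adjugate m m * u k * conj (u l) := by
    intro k l
    have e1 : ∀ k, u k = F.adjugate m k / F.adjugate m m := by
      intro k
      have := adj_ker hd hm hk k
      rwa [hu, one_mul] at this
    rw [adj_rank hF hd hm k l, ← e1, ← e1]
  have hdet : N.det * ((Complex.normSq P.det : ℝ) : ℂ) = 1 := by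
    have h := congrArg Matrix.det hN1
    rw [Matrix.det_mul, Matrix.det_mul, Matrix.det_transpose, Matrix.det_one] at h
    have e1 : (cj P).det = conj P.det := by
      have := (RingHom.map_det (starRingEnd ℂ) P).symm
      exact this
    rw [e1] at h
    rw [← Complex.mul_conj]
    linear_combination h
  have hdp : 0 < Complex.normSq P.det := by
    rw [Complex.normSq_pos]
    intro h
    rw [h, Complex.normSq_zero, Complex.ofReal_zero, mul_zero] at hdet
    exact zero_ne_one hdet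
  have hdN : N.det = (((Complex.normSq P.det)⁻¹ : ℝ) : ℂ) := by
    have : ((Complex.normSq P.det : ℝ) : ℂ) ≠ 0 := by exact_mod_cast hdp.ne'
    rw [Complex.ofReal_inv]
    exact eq_inv_of_mul_eq_one_left hdet
  have hρV : (F.adjugate m m).re * Complex.normSq (v i₀)
      = (Complex.normSq P.det)⁻¹ * ∏ k ∈ Finset.univ.erase i₀, μ k := by
    have e1 : (Pᵀ * F * cj P).adjugate i₀ i₀ = ((∏ k ∈ Finset.univ.erase i₀, μ k : ℝ) : ℂ) := by
      rw [hF1, Matrix.adjugate_diagonal, Matrix.diagonal_apply_eq]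
      push_cast
      rfl
    have e2 : (Pᵀ * F * cj P).adjugate = (conj P.det * P.det) • (cj R * F.adjugate * Rᵀ) := by
      rw [Matrix.adjugate_mul_distrib, Matrix.adjugate_mul_distrib, Alg_adj hcPR,
        Alg_adj (P := Pᵀ) (R := Rᵀ) (by rw [← Matrix.transpose_mul, hRP, Matrix.transpose_one]),
        Matrix.det_transpose]
      have e3 : (cj P).det = conj P.det := (RingHom.map_det (starRingEnd ℂ) P).symm
      rw [e3]
      simp only [Matrix.smul_mul, Matrix.mul_smul, smul_smul, Matrix.mul_assoc]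
      rw [mul_comm P.det]
    have e4 : (cj R * F.adjugate * Rᵀ) i₀ i₀
        = ((F.adjugate m m).re * Complex.normSq (v i₀) : ℝ) := by
      have e5 : (cj R * F.adjugate * Rᵀ) i₀ i₀
          = F.adjugate m m * (∑ l, conj (R i₀ l * u l)) * ∑ k, R i₀ k * u k := by
        simp only [Matrix.mul_apply, Matrix.transpose_apply, cj_apply, Finset.mul_sum,
          Finset.sum_mul]
        refine Finset.sum_congr rfl fun k _ => Finset.sum_congr rfl fun l _ => ?_
        rw [hadj k l, map_mul]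
        ring
      have e6 : ∑ k, R i₀ k * u k = v i₀ := by rw [hv]; rfl
      rw [e5, ← map_sum, e6, hρ]
      push_cast
      rw [← Complex.mul_conj]
      simp only [Complex.ofReal_re]
      ring
    rw [e2, Matrix.smul_apply, e4, smul_eq_mul, mul_comm (conj P.det), Complex.mul_conj] at e1
    have e7 : Complex.normSq P.det * ((F.adjugate m m).re * Complex.normSq (v i₀))
        = ∏ k ∈ Finset.univ.erase i₀, μ k := by exact_mod_cast e1
    rw [← e7]
    field_simp
  have hcore := Alg_core hc hC h0 h1 hi hY hsym hS' (inv_pos.2 hdp)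
    hre hρV
  have hsum : (∑ k, ∑ l, F.adjugate l k * N k l).re
      = (F.adjugate m m).re * Complex.normSq (v i₀) := by
    have e1 : ∑ k, ∑ l, F.adjugate l k * N k l
        = F.adjugate m m * ∑ k, ∑ l, u k * conj (u l) * N k l := by
      rw [Finset.mul_sum]
      refine Finset.sum_congr rfl fun k _ => ?_
      rw [Finset.mul_sum]
      refine Finset.sum_congr rfl fun l _ => ?_
      rw [hadj k l]
      ring
    rw [e1, hNu, hρ, ← Complex.ofReal_mul, Complex.ofReal_re, Complex.ofReal_re]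
  rw [hsum, ← htr, hdN, Complex.ofReal_re]
  exact hcore

end Pool.Agent.CYN
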