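import Pool.Agent.CYF.Defs

/-!
Definitions: compact complex spaces with a flat canonical bundle, given by holomorphic charts of
the smooth part and by local embeddings; smooth semipositive closed (1,1)-forms on them.
-/

open scoped ContDiff Topology
open Complex

namespace Pool.Agent.CYN

open Pool.Agent.CYF

/-- The Jacobian matrix at `z` of a map `f` with values in `ℂ^M`. -/
noncomputable def jm {α : Type*} [DecidableEq α] [Fintype α] {M : ℕ} (f : (α → ℂ) → E M)
    (z : α → ℂ) : Matrix (Fin M) α ℂ :=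
  Matrix.of fun a b => fderiv ℂ f z (Pi.single b 1) a

/-- A complex space with underlying topological space `X` and a unitary flat canonical bundle.
The smooth part is the union of the sources of the charts `c i`, whose changes are holomorphic with
a Jacobian determinant of absolute value `1`. Every point of `X` lies in an open set `V k` with an
injective continuous map `ζ k` to some `ℂ^(dim k)`, holomorphic and immersive on the smooth part;
two of these local embeddings are locally holomorphic functions of each other. `jac`: at the points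
that are not in the smooth part the volume form of the metric induced by `ζ k`, divided by the
volume form of the charts, tends to zero. -/
structure Spc (α : Type*) [DecidableEq α] [Fintype α] (X : Type*) [TopologicalSpace X]
    (ι κ : Type*) where
  /-- the charts of the smooth part -/
  c : ι → OpenPartialHomeomorph X (α → ℂ)
  hol : ∀ i j, ContDiffOn ℂ ∞ (c j ∘ (c i).symm)
    ((c i).target ∩ (c i).symm ⁻¹' (c j).source)
  unit : ∀ i j, ∀ z ∈ (c i).target ∩ (c i).symm ⁻¹' (c j).source,
    ‖(fderiv ℂ (c j ∘ (c i).symm) z).det‖ = 1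
  /-- the dimensions of the ambient spaces of the local embeddings -/
  dim : κ → ℕ
  /-- the domains of the local embeddings -/
  V : κ → Set X
  /-- the local embeddings -/
  ζ : (k : κ) → X → E (dim k)
  isOpen_V : ∀ k, IsOpen (V k)
  cover : ∀ x, ∃ k, x ∈ V k
  cont : ∀ k, ContinuousOn (ζ k) (V k)
  inj : ∀ k, Set.InjOn (ζ k) (V k)
  chg : ∀ k l, ∀ x ∈ V k ∩ V l, ∃ (O : Set (E (dim l))) (g : E (dim l) → E (dim k)),
    IsOpen O ∧ ζ l x ∈ O ∧ ContDiffOn ℂ ∞ g O ∧ ∀ y ∈ V k ∩ V l, ζ l y ∈ O → ζ k y = g (ζ l y)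
  hol_ζ : ∀ k i, ContDiffOn ℂ ∞ (ζ k ∘ (c i).symm) ((c i).target ∩ (c i).symm ⁻¹' V k)
  imm : ∀ k i, ∀ z ∈ (c i).target ∩ (c i).symm ⁻¹' V k,
    Function.Injective (fderiv ℂ (ζ k ∘ (c i).symm) z)
  jac : ∀ k, ∀ x ∈ V k, (∀ i, x ∉ (c i).source) → ∀ ε : ℝ, 0 < ε → ∃ O ∈ 𝓝 x,
    ∀ i, ∀ z ∈ (c i).target, (c i).symm z ∈ O →
      ‖((jm (ζ k ∘ (c i).symm) z).conjTranspose * jm (ζ k ∘ (c i).symm) z).det‖ < ε

variable {n : ℕ} {X : Type*} [TopologicalSpace X] {ι κ : Type*}

/-- A smooth semipositive closed real (1,1)-form `η` on `A` with `η^n = 0`, given by local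
potentials: `η = i ∂∂̄ (w i)` in the chart `i` of the smooth part, and `η` is on the smooth part of
`V k` the pull-back by `ζ k` of the form `i ∂∂̄ (W k)`, where `W k` is a smooth plurisubharmonic
function on an open set `B k` of `ℂ^(dim k)`. -/
structure Form (A : Spc (Fin n) X ι κ) where
  /-- the potentials in the charts of the smooth part -/
  w : ι → E n → ℝ
  smooth : ∀ i, ContDiffOn ℝ ∞ (w i) (A.c i).target
  /-- the domains of the ambient potentials -/
  B : (k : κ) → Set (E (A.dim k))
  /-- the ambient potentials -/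
  W : (k : κ) → E (A.dim k) → ℝ
  isOpen_B : ∀ k, IsOpen (B k)
  maps : ∀ k, Set.MapsTo (A.ζ k) (A.V k) (B k)
  smooth_W : ∀ k, ContDiffOn ℝ ∞ (W k) (B k)
  psh : ∀ k, ∀ y ∈ B k, ∀ a, 0 ≤ (levi (W k) y a a).re
  compat : ∀ k i, ∀ z ∈ (A.c i).target ∩ (A.c i).symm ⁻¹' A.V k, ∀ a b : E n,
    levi (w i) z a b = levi (W k) (A.ζ k ((A.c i).symm z))
      (fderiv ℂ (A.ζ k ∘ (A.c i).symm) z a) (fderiv ℂ (A.ζ k ∘ (A.c i).symm) z b)
  det_eq_zero : ∀ i, ∀ z ∈ (A.c i).target, (lm (w i) z).det = 0

variable {A : Spc (Fin n) X ι κ}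

/-- `η^(n-1)` does not vanish at the point `z` of the chart `i`: the adjugate of the Levi matrix is
not zero. -/
def Form.Reg (η : Form A) (i : ι) (z : E n) : Prop :=
  z ∈ (A.c i).target ∧ (lm (η.w i) z).adjugate ≠ 0

/-- The vector `a` lies in the kernel of `η` at the point `z` of the chart `i`. -/
def Form.Ker (η : Form A) (i : ι) (z a : E n) : Prop :=
  ∀ b : E n, levi (η.w i) z a b = 0

end Pool.Agent.CYN
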