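import Pool.Agent.CYN.Psi

/-!
CYN module Fin (size 2): the theorem.
PROOF. As `partA` in CYF/Fin.lean: choose `m` with `rho (η.w i) m z ≠ 0` (`adj_diag`); on `O = Um (η.w i) m (A.c i).target` (open, `kf_of`) `Kf (η.w i) m = 0` by
`KX_eq` and `KX_zero` (`A.c i ((A.c i).symm y) = y`), so the kernel field `uu (η.w i) m` is holomorphic there (`hol_of_Kf`).
-/

open scoped ContDiff ComplexConjugate Topology ComplexOrder
open Complex Matrix

namespace Pool.Agent.CYN

open Pool.Agent.CYF

variable {n : ℕ} {X : Type*} [TopologicalSpace X] {ι κ : Type*} {A : Spc (Fin n) X ι κ}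

private theorem Fin_reg_exists (η : Form A) {i : ι} {z : E n} (hz : η.Reg i z) :
    ∃ m, z ∈ Um (η.w i) m (A.c i).target := by
  obtain ⟨m, hm⟩ := adj_diag (psd η hz.1) hz.2
  exact ⟨m, hz.1, hm⟩

private theorem Fin_kf (η : Form A) (i : ι) (m : Fin n) :
    KF (η.w i) m (Um (η.w i) m (A.c i).target) (fun k => uu (η.w i) m k) :=
  kf_of (A.c i).open_target (η.smooth i) (fun _ hz => psd η hz) (fun z hz => η.det_eq_zero i z hz) m

private theorem Fin_ker_sum (η : Form A) {i : ι} {z : E n} (hz : z ∈ (A.c i).target) (a : E n)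
    (ha : η.Ker i z a) (l : Fin n) : ∑ k, a k * LM (η.w i) z k l = 0 := by
  have hw : ContDiffAt ℝ ∞ (η.w i) z := (η.smooth i).contDiffAt ((A.c i).open_target.mem_nhds hz)
  have h := ha (e l)
  rw [levi_eq_sum hw] at h
  rw [← h]
  refine Finset.sum_congr rfl fun k _ => ?_
  rw [Finset.sum_eq_single l]
  · simp [e]
  · intro b _ hb
    simp [e, hb]
  · intro hl
    exact absurd (Finset.mem_univ l) hl

private theorem Fin_ker_eq (η : Form A) {i : ι} {z : E n} {m : Fin n}
    (hz : z ∈ Um (η.w i) m (A.c i).target) (a : E n) (ha : η.Ker i z a) (k : Fin n) :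
    a k = a m * uu (η.w i) m k z :=
  adj_ker (F := lm (η.w i) z) (η.det_eq_zero i z hz.1) hz.2
    (fun l => Fin_ker_sum η hz.1 a ha l) k

private theorem Fin_ker_of (η : Form A) {i : ι} {z : E n} {m : Fin n}
    (hz : z ∈ Um (η.w i) m (A.c i).target) (c : ℂ) :
    η.Ker i z (c • fun k => uu (η.w i) m k z) := by
  intro b
  have hw : ContDiffAt ℝ ∞ (η.w i) z := (η.smooth i).contDiffAt ((A.c i).open_target.mem_nhds hz.1)
  rw [levi_eq_sum hw, Finset.sum_comm]
  refine Finset.sum_eq_zero fun l _ => ?_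
  have h := (Fin_kf η i m).ker z hz l
  have h2 : ∑ k, (c • fun k => uu (η.w i) m k z) k * conj (b l) * LM (η.w i) z k l
      = c * conj (b l) * ∑ k, uu (η.w i) m k z * LM (η.w i) z k l := by
    rw [Finset.mul_sum]
    refine Finset.sum_congr rfl fun k _ => ?_
    simp only [Pi.smul_apply, smul_eq_mul]
    ring
  rw [h2, h, mul_zero]

theorem main [CompactSpace X] [T2Space X] (η : Form A) (i : ι) (z : E n) (hz : η.Reg i z) :
    ∃ O : Set (E n), IsOpen O ∧ z ∈ O ∧ O ⊆ (A.c i).target ∧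
      ∃ u : E n → E n, DifferentiableOn ℂ u O ∧
        ∀ y ∈ O, u y ≠ 0 ∧ ∀ a : E n, η.Ker i y a ↔ ∃ c : ℂ, a = c • u y := by
  obtain ⟨m, hm⟩ := Fin_reg_exists η hz
  refine ⟨Um (η.w i) m (A.c i).target, (Fin_kf η i m).isOpen, hm, fun y hy => hy.1,
    fun y k => uu (η.w i) m k y, ?_, ?_⟩
  · refine differentiableOn_pi.2 fun k => ?_
    refine hol_of_Kf (A.c i).open_target (η.smooth i) (fun _ hz => psd η hz)
      (fun z hz => η.det_eq_zero i z hz) ?_ k
    intro y hy
    have hs : (A.c i).symm y ∈ (A.c i).source := (A.c i).map_target hy.1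
    have hr : A.c i ((A.c i).symm y) = y := (A.c i).right_inv hy.1
    have h := KX_eq η hs (m := m) (by rw [hr]; exact hy.2)
    rw [hr] at h
    rw [← h]
    exact KX_zero η _
  · intro y hy
    refine ⟨fun h => ?_, fun a => ⟨fun ha => ⟨a m, ?_⟩, ?_⟩⟩
    · have h1 := (Fin_kf η i m).one y hy
      have h2 := congrFun h m
      simp only [Pi.zero_apply] at h2
      rw [h2] at h1
      exact zero_ne_one h1
    · funext k
      exact Fin_ker_eq η hy a ha k
    · rintro ⟨c, rfl⟩
      exact Fin_ker_of η hy c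

end Pool.Agent.CYN
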