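import Pool.Agent.CYN.Defs
import Pool.Agent.CYF.Chg

/-!
CYN module Hol (size 3): Wirtinger calculus for a holomorphic map `φ : ℂ^n → ℂ^M`.
-/

open scoped ContDiff ComplexConjugate Topology
open Complex

namespace Pool.Agent.CYN

open Pool.Agent.CYF

variable {n M : ℕ} {φ : E n → E M} {G : E M → ℂ} {z : E n} {U : Set (E n)} {W : E M → ℝ}
  {B : Set (E M)}

theorem fderiv_comp_hol' (hφ : DifferentiableAt ℂ φ z) (hG : DifferentiableAt ℝ G (φ z))
    (v : E n) : fderiv ℝ (fun y => G (φ y)) z v = fderiv ℝ G (φ z) (fderiv ℂ φ z v) := by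
  have h : HasFDerivAt φ ((fderiv ℂ φ z).restrictScalars ℝ) z := hφ.hasFDerivAt.restrictScalars ℝ
  have h2 : HasFDerivAt (fun y => G (φ y))
      ((fderiv ℝ G (φ z)).comp ((fderiv ℂ φ z).restrictScalars ℝ)) z := hG.hasFDerivAt.comp z h
  rw [h2.fderiv]
  rfl

theorem d10_comp' (hφ : DifferentiableAt ℂ φ z) (hG : DifferentiableAt ℝ G (φ z)) (a : E n) :
    d10 (fun y => G (φ y)) z a = d10 G (φ z) (fderiv ℂ φ z a) := by
  unfold d10
  rw [fderiv_comp_hol' hφ hG, fderiv_comp_hol' hφ hG, (fderiv ℂ φ z).map_smul]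

theorem d01_comp' (hφ : DifferentiableAt ℂ φ z) (hG : DifferentiableAt ℝ G (φ z)) (a : E n) :
    d01 (fun y => G (φ y)) z a = d01 G (φ z) (fderiv ℂ φ z a) := by
  unfold d01
  rw [fderiv_comp_hol' hφ hG, fderiv_comp_hol' hφ hG, (fderiv ℂ φ z).map_smul]

theorem jm_apply (φ : E n → E M) (z a : E n) (p : Fin M) :
    fderiv ℂ φ z a p = ∑ k, jm φ z p k * a k := by
  conv_lhs => rw [vec_eq_sum a, map_sum]
  rw [Finset.sum_apply]
  refine Finset.sum_congr rfl fun k _ => ?_
  rw [(fderiv ℂ φ z).map_smul, Pi.smul_apply, smul_eq_mul, mul_comm]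
  rfl

theorem pk_comp' (hφ : DifferentiableAt ℂ φ z) (hG : DifferentiableAt ℝ G (φ z)) (k : Fin n) :
    pk k (fun y => G (φ y)) z = ∑ p, jm φ z p k * pk p G (φ z) := by
  have h : pk k (fun y => G (φ y)) z = d10 G (φ z) (fderiv ℂ φ z (e k)) := d10_comp' hφ hG (e k)
  rw [h, d10_eq_sum]
  rfl

theorem pb_comp' (hφ : DifferentiableAt ℂ φ z) (hG : DifferentiableAt ℝ G (φ z)) (k : Fin n) :
    pb k (fun y => G (φ y)) z = ∑ p, conj (jm φ z p k) * pb p G (φ z) := by
  have h : pb k (fun y => G (φ y)) z = d01 G (φ z) (fderiv ℂ φ z (e k)) := d01_comp' hφ hG (e k)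
  rw [h, d01_eq_sum]
  rfl

theorem diff_of_hol (hU : IsOpen U) (hφ : ContDiffOn ℂ ∞ φ U) (hz : z ∈ U) :
    DifferentiableAt ℂ φ z :=
  (hφ.contDiffAt (hU.mem_nhds hz)).differentiableAt (by simp)

theorem diff_jm (hU : IsOpen U) (hφ : ContDiffOn ℂ ∞ φ U) (hz : z ∈ U) (p : Fin M) (k : Fin n) :
    DifferentiableAt ℂ (fun y => jm φ y p k) z := by
  have h2 : ContDiffAt ℂ ∞ (fderiv ℂ φ) z :=
    (hφ.contDiffAt (hU.mem_nhds hz)).fderiv_right (m := ∞) (by simp)
  have h3 : DifferentiableAt ℂ (fun y => fderiv ℂ φ y (e k)) z :=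
    (h2.clm_apply contDiffAt_const).differentiableAt (by simp)
  exact differentiableAt_pi.1 h3 p

theorem contDiffOn_jm (hU : IsOpen U) (hφ : ContDiffOn ℂ ∞ φ U) (p : Fin M) (k : Fin n) :
    ContDiffOn ℂ ∞ (fun y => jm φ y p k) U := by
  have h2 : ContDiffOn ℂ ∞ (fderiv ℂ φ) U := hφ.fderiv_of_isOpen hU (by simp)
  have h3 : ContDiffOn ℂ ∞ (fun y => fderiv ℂ φ y (e k)) U := h2.clm_apply contDiffOn_const
  exact contDiffOn_pi.1 h3 p

theorem LM_comp' (hU : IsOpen U) (hφ : ContDiffOn ℂ ∞ φ U) (hB : IsOpen B)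
    (hW : ContDiffOn ℝ ∞ W B) (hz : z ∈ U) (hz' : φ z ∈ B) (k l : Fin n) :
    LM (fun y => W (φ y)) z k l
      = ∑ p, ∑ q, jm φ z p k * conj (jm φ z q l) * LM W (φ z) p q := by
  have hW' := contDiffOn_cx hW
  have dφ : ∀ y ∈ U, DifferentiableAt ℂ φ y := fun y hy => diff_of_hol hU hφ hy
  have hev : ∀ᶠ y in 𝓝 z, y ∈ U ∧ φ y ∈ B := by
    have h1 : ContinuousAt φ z := (dφ z hz).continuousAt
    filter_upwards [hU.mem_nhds hz, h1 (hB.mem_nhds hz')] with y h2 h3
    exact ⟨h2, h3⟩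
  have h1 : pb l (cx (fun y => W (φ y))) =ᶠ[𝓝 z]
      fun y => ∑ q, conj (jm φ y q l) * pb q (cx W) (φ y) := by
    filter_upwards [hev] with y hy
    exact pb_comp' (G := cx W) (dφ y hy.1) (diffAt_of hB hW' hy.2) l
  have hT : ∀ q, DifferentiableAt ℂ (fun y => jm φ y q l) z := fun q => diff_jm hU hφ hz q l
  have hTr : ∀ q, DifferentiableAt ℝ (fun y => jm φ y q l) z := fun q =>
    (hT q).restrictScalars ℝ
  have dφr : DifferentiableAt ℝ φ z := (dφ z hz).restrictScalars ℝ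
  have dP : ∀ q, DifferentiableAt ℝ (pb q (cx W)) (φ z) := fun q =>
    diffAt_of hB (contDiffOn_pb hB hW' q) hz'
  have dPc : ∀ q, DifferentiableAt ℝ (fun y => pb q (cx W) (φ y)) z := fun q =>
    (dP q).comp z dφr
  rw [LM_eq, pk_congr h1]
  have h2 := d10_sum (z := z) (a := e k) Finset.univ
    (fun q y => conj (jm φ y q l) * pb q (cx W) (φ y))
    (fun q _ => (conjd (hTr q)).mul (dPc q))
  have h3 : pk k (fun y => ∑ q, conj (jm φ y q l) * pb q (cx W) (φ y)) z
      = ∑ q, d10 (fun y => conj (jm φ y q l) * pb q (cx W) (φ y)) z (e k) := h2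
  rw [h3, Finset.sum_comm]
  refine Finset.sum_congr rfl fun q _ => ?_
  rw [d10_mul (conjd (hTr q)) (dPc q), d10_conj (hTr q), d01_of_diff (hT q), map_zero, zero_mul,
    zero_add, d10_comp' (G := pb q (cx W)) (dφ z hz) (dP q), d10_eq_sum, Finset.mul_sum]
  refine Finset.sum_congr rfl fun p _ => ?_
  rw [LM_eq]
  have h4 : fderiv ℂ φ z (e k) p = jm φ z p k := rfl
  rw [h4]
  ring

theorem pb_LM_comp (hU : IsOpen U) (hφ : ContDiffOn ℂ ∞ φ U) (hB : IsOpen B)
    (hW : ContDiffOn ℝ ∞ W B) (hmaps : ∀ y ∈ U, φ y ∈ B) (hz : z ∈ U) (j k l : Fin n) :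
    pb j (fun y => LM (fun x => W (φ x)) y k l) z
      = (∑ p, ∑ q, ∑ s, jm φ z p k * conj (jm φ z q l) * conj (jm φ z s j)
          * pb s (fun x => LM W x p q) (φ z))
        + ∑ q, (∑ p, jm φ z p k * LM W (φ z) p q) * conj (pk j (fun y => jm φ y q l) z) := by
  have hφz := diff_of_hol hU hφ hz
  have hφr : DifferentiableAt ℝ φ z := hφz.restrictScalars ℝ
  have hLs : ∀ p q, ContDiffOn ℝ ∞ (fun x => LM W x p q) B := fun p q =>
    contDiffOn_pk hB (contDiffOn_pb hB (contDiffOn_cx hW) q) p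
  have hL : ∀ p q, DifferentiableAt ℝ (fun x => LM W x p q) (φ z) := fun p q =>
    diffAt_of hB (hLs p q) (hmaps z hz)
  have hLc : ∀ p q, DifferentiableAt ℝ (fun y => LM W (φ y) p q) z := fun p q =>
    (hL p q).comp z hφr
  have hA : ∀ p, DifferentiableAt ℂ (fun y => jm φ y p k) z := fun p => diff_jm hU hφ hz p k
  have hAr : ∀ p, DifferentiableAt ℝ (fun y => jm φ y p k) z := fun p =>
    (hA p).restrictScalars ℝ
  have hBr : ∀ q, DifferentiableAt ℝ (fun y => jm φ y q l) z := fun q =>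
    (diff_jm hU hφ hz q l).restrictScalars ℝ
  have h1 : (fun y => LM (fun x => W (φ x)) y k l) =ᶠ[𝓝 z]
      fun y => ∑ p, ∑ q, jm φ y p k * conj (jm φ y q l) * LM W (φ y) p q := by
    filter_upwards [hU.mem_nhds hz] with y hy
    exact LM_comp' hU hφ hB hW hy (hmaps y hy) k l
  have hterm : ∀ p q, DifferentiableAt ℝ
      (fun y => jm φ y p k * conj (jm φ y q l) * LM W (φ y) p q) z := fun p q =>
    ((hAr p).mul (conjd (hBr q))).mul (hLc p q)
  have hrow : ∀ p, DifferentiableAt ℝ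
      (fun y => ∑ q, jm φ y p k * conj (jm φ y q l) * LM W (φ y) p q) z := fun p =>
    DifferentiableAt.fun_sum fun q _ => hterm p q
  have h2 : pb j (fun y => ∑ p, ∑ q, jm φ y p k * conj (jm φ y q l) * LM W (φ y) p q) z
      = ∑ p, ∑ q, d01 (fun y => jm φ y p k * conj (jm φ y q l) * LM W (φ y) p q) z (e j) := by
    have h3 : pb j (fun y => ∑ p, ∑ q, jm φ y p k * conj (jm φ y q l) * LM W (φ y) p q) z
        = ∑ p, d01 (fun y => ∑ q, jm φ y p k * conj (jm φ y q l) * LM W (φ y) p q) z (e j) :=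
      d01_sum (z := z) (a := e j) Finset.univ
        (fun p y => ∑ q, jm φ y p k * conj (jm φ y q l) * LM W (φ y) p q)
        (fun p _ => hrow p)
    rw [h3]
    refine Finset.sum_congr rfl fun p _ => ?_
    exact d01_sum (z := z) (a := e j) Finset.univ
      (fun q y => jm φ y p k * conj (jm φ y q l) * LM W (φ y) p q) (fun q _ => hterm p q)
  have h4 : ∀ p q, d01 (fun y => jm φ y p k * conj (jm φ y q l) * LM W (φ y) p q) z (e j)
      = (∑ s, jm φ z p k * conj (jm φ z q l) * conj (jm φ z s j)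
          * pb s (fun x => LM W x p q) (φ z))
        + jm φ z p k * LM W (φ z) p q * conj (pk j (fun y => jm φ y q l) z) := by
    intro p q
    have h5 : d01 (fun y => LM W (φ y) p q) z (e j)
        = ∑ s, conj (jm φ z s j) * pb s (fun x => LM W x p q) (φ z) :=
      pb_comp' (G := fun x => LM W x p q) hφz (hL p q) j
    have h6 : d10 (fun y => jm φ y q l) z (e j) = pk j (fun y => jm φ y q l) z := rfl
    have h9 : d01 (fun y => jm φ y p k * conj (jm φ y q l) * LM W (φ y) p q) z (e j)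
        = d01 (fun y => jm φ y p k * conj (jm φ y q l)) z (e j) * LM W (φ z) p q
          + jm φ z p k * conj (jm φ z q l) * d01 (fun y => LM W (φ y) p q) z (e j) :=
      d01_mul (f := fun y => jm φ y p k * conj (jm φ y q l))
        (g := fun y => LM W (φ y) p q) ((hAr p).mul (conjd (hBr q))) (hLc p q)
    have h10 : d01 (fun y => jm φ y p k * conj (jm φ y q l)) z (e j)
        = d01 (fun y => jm φ y p k) z (e j) * conj (jm φ z q l)
          + jm φ z p k * d01 (fun y => conj (jm φ y q l)) z (e j) :=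
      d01_mul (f := fun y => jm φ y p k) (g := fun y => conj (jm φ y q l)) (hAr p)
        (conjd (hBr q))
    have h11 : d01 (fun y => jm φ y p k) z (e j) = 0 := d01_of_diff (hA p) (e j)
    have h12 : d01 (fun y => conj (jm φ y q l)) z (e j)
        = conj (d10 (fun y => jm φ y q l) z (e j)) := d01_conj (hBr q)
    rw [h9, h10, h11, h12, h5, h6, zero_mul, zero_add, Finset.mul_sum]
    have h7 : ∑ s, jm φ z p k * conj (jm φ z q l)
        * (conj (jm φ z s j) * pb s (fun x => LM W x p q) (φ z))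
        = ∑ s, jm φ z p k * conj (jm φ z q l) * conj (jm φ z s j)
          * pb s (fun x => LM W x p q) (φ z) :=
      Finset.sum_congr rfl fun s _ => by ring
    rw [h7]
    ring
  rw [pb_congr h1, h2]
  have h8 : ∑ p, ∑ q, d01 (fun y => jm φ y p k * conj (jm φ y q l) * LM W (φ y) p q) z (e j)
      = (∑ p, ∑ q, ∑ s, jm φ z p k * conj (jm φ z q l) * conj (jm φ z s j)
          * pb s (fun x => LM W x p q) (φ z))
        + ∑ p, ∑ q, jm φ z p k * LM W (φ z) p q * conj (pk j (fun y => jm φ y q l) z) := by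
    rw [← Finset.sum_add_distrib]
    refine Finset.sum_congr rfl fun p _ => ?_
    rw [← Finset.sum_add_distrib]
    exact Finset.sum_congr rfl fun q _ => h4 p q
  rw [h8]
  congr 1
  rw [Finset.sum_comm]
  exact Finset.sum_congr rfl fun q _ => (Finset.sum_mul _ _ _).symm

/-- the tensor `S_jl = ∑ u_k ∂̄_j F_kl` of a kernel vector is the restriction of the ambient one -/
theorem S_comp (hU : IsOpen U) (hφ : ContDiffOn ℂ ∞ φ U) (hB : IsOpen B)
    (hW : ContDiffOn ℝ ∞ W B) (hmaps : ∀ y ∈ U, φ y ∈ B) (hz : z ∈ U) {u : E n}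
    (hu : ∀ q, ∑ p, fderiv ℂ φ z u p * LM W (φ z) p q = 0) (j l : Fin n) :
    ∑ k, u k * pb j (fun y => LM (fun x => W (φ x)) y k l) z
      = ∑ p, ∑ q, ∑ s, fderiv ℂ φ z u p * conj (jm φ z q l) * conj (jm φ z s j)
          * pb s (fun x => LM W x p q) (φ z) := by
  have h1 : ∀ k, u k * pb j (fun y => LM (fun x => W (φ x)) y k l) z
      = (∑ p, ∑ q, ∑ s, jm φ z p k * u k * conj (jm φ z q l) * conj (jm φ z s j)
          * pb s (fun x => LM W x p q) (φ z))
        + ∑ q, (∑ p, jm φ z p k * u k * LM W (φ z) p q)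
          * conj (pk j (fun y => jm φ y q l) z) := by
    intro k
    rw [pb_LM_comp hU hφ hB hW hmaps hz j k l, mul_add]
    congr 1
    · simp only [Finset.mul_sum]
      refine Finset.sum_congr rfl fun p _ => Finset.sum_congr rfl fun q _ =>
        Finset.sum_congr rfl fun s _ => ?_
      ring
    · rw [Finset.mul_sum]
      refine Finset.sum_congr rfl fun q _ => ?_
      rw [← mul_assoc, Finset.mul_sum]
      congr 1
      exact Finset.sum_congr rfl fun p _ => by ring
  rw [Finset.sum_congr rfl fun k _ => h1 k, Finset.sum_add_distrib]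
  have h2 : ∑ k, ∑ q, (∑ p, jm φ z p k * u k * LM W (φ z) p q)
      * conj (pk j (fun y => jm φ y q l) z) = 0 := by
    rw [Finset.sum_comm]
    refine Finset.sum_eq_zero fun q _ => ?_
    rw [← Finset.sum_mul, Finset.sum_comm]
    have h3 : ∑ p, ∑ k, jm φ z p k * u k * LM W (φ z) p q
        = ∑ p, fderiv ℂ φ z u p * LM W (φ z) p q := by
      refine Finset.sum_congr rfl fun p _ => ?_
      rw [jm_apply, Finset.sum_mul]
    rw [h3, hu q, zero_mul]
  rw [h2, add_zero, Finset.sum_comm]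
  refine Finset.sum_congr rfl fun p _ => ?_
  rw [Finset.sum_comm]
  refine Finset.sum_congr rfl fun q _ => ?_
  rw [Finset.sum_comm]
  refine Finset.sum_congr rfl fun s _ => ?_
  rw [jm_apply, Finset.sum_mul, Finset.sum_mul, Finset.sum_mul]

end Pool.Agent.CYN
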