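import Pool.Agent.CYF.Comm

/-!
CYN module Trk (size 4): the psd trick: third derivatives of a plurisubharmonic function in
kernel directions of its Levi form.
PROOF. `grd_gen`: `grd_local` of CYF/Grd.lean for an arbitrary finite dimensional real normed space
(same proof word for word: only norms, Lipschitz bound of `fderiv ℝ g`, mean value inequality are used),
then a compactness argument (`IsCompact.induction_on`, as in `grad_bound` there).
`trk`: apply `grd_gen` to `g (x, v) = (levi W x v v).re` on `B ×ˢ univ ⊆ E M × E M` (smooth: it is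
`(∑ p, ∑ q, v p * conj (v q) * LM W x p q).re`, `levi_eq_sum`; nonnegative by `hpsh`) and the compact set
`K₀ ×ˢ closedBall 0 2`. Let `y ∈ K₀`, `L(u, ·) = 0`, first `‖u‖ ≤ 1`, `‖b‖ ≤ 1`, `‖c‖ ≤ 1`. For real `τ ∈ [-1, 1]` and
`v = u + τ b` we have `g (y, v) = τ² g (y, b)`, so, with `D = fderiv` in the direction `(c, 0)`,
`(D_c g (y, u + τ b))² ≤ C τ² g (y, b)`. `D_c g (y, v) = Re ∑ v_p conj v_q D_c L_pq`
`= D_c g (y,u) + 2 τ Re (∑ u_p conj b_q D_c L_pq) + τ² D_c g (y, b)` (`D_c L` is hermitian, `LM_conj`). `τ = 0`: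
`D_c g (y, u) = 0`. Divide by `τ²`, `τ → 0`: `4 (Re ∑ u_p conj b_q D_c L_pq)² ≤ C g (y, b)`. Replace `b` by `i b`: the
same for the imaginary part, so `‖∑ u_p conj b_q D_c L_pq‖² ≤ C g (y, b) / 2` for all `‖c‖ ≤ 1`; use it for `c` and `i c`:
`∑ u_p conj b_q d01 (L_pq) y c = (∑ u_p conj b_q D_c L_pq + i ∑ u_p conj b_q D_(ic) L_pq) / 2` (`d01`, `d01_eq_sum`).
General `u, b, c`: homogeneity (`‖u‖` is the sup norm, `‖u‖² ≤ ∑ ‖u p‖²`; if `u = 0`, `b = 0` or `c = 0` both sides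
are trivial).
-/

open scoped ContDiff ComplexConjugate Topology
open Complex

namespace Pool.Agent.CYN

open Pool.Agent.CYF

private theorem Trk_local {F : Type*} [NormedAddCommGroup F] [NormedSpace ℝ F]
    [FiniteDimensional ℝ F] {O : Set F} (hO : IsOpen O) {g : F → ℝ} (hg : ContDiffOn ℝ ∞ g O)
    (h0 : ∀ z ∈ O, 0 ≤ g z) {z0 : F} (hz0 : z0 ∈ O) :
    ∃ t ∈ 𝓝 z0, ∃ M : ℝ, 0 ≤ M ∧ ∀ z ∈ t, ∀ v : F, ‖v‖ ≤ 1 →
      (fderiv ℝ g z v) ^ 2 ≤ M * g z := by
  have : ProperSpace F := FiniteDimensional.proper_real F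
  have s1 : ContDiffOn ℝ ∞ (fderiv ℝ g) O := hg.fderiv_of_isOpen hO (by simp)
  have s1' : ContDiffAt ℝ 1 (fderiv ℝ g) z0 :=
    (s1.contDiffAt (hO.mem_nhds hz0)).of_le (by exact_mod_cast le_top)
  obtain ⟨M1, t1, ht1, hlip1⟩ := s1'.exists_lipschitzOnWith
  obtain ⟨ε, hε, hball⟩ := Metric.nhds_basis_closedBall.mem_iff.1
    (Filter.inter_mem (hO.mem_nhds hz0) ht1)
  set δ : ℝ := ε / 2 with hδdef
  have hδ : 0 < δ := by positivity
  have hBt : Metric.closedBall z0 (2 * δ) ⊆ O ∩ t1 := by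
    have : 2 * δ = ε := by rw [hδdef]; ring
    rw [this]; exact hball
  have hB : Metric.closedBall z0 (2 * δ) ⊆ O := hBt.trans Set.inter_subset_left
  have hcomp : IsCompact (Metric.closedBall z0 (2 * δ)) := isCompact_closedBall _ _
  obtain ⟨S, hS⟩ := hcomp.exists_bound_of_continuousOn (hg.continuousOn.mono hB)
  set M : ℝ := |(M1 : ℝ)| + |S| / δ ^ 2 + 1 with hMdef
  have hM : 0 < M := by positivity
  have hM1' : (M1 : ℝ) ≤ M := by
    have h1 := le_abs_self (M1 : ℝ)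
    have h2 : 0 ≤ |S| / δ ^ 2 := by positivity
    linarith
  have hMS : ∀ z ∈ Metric.closedBall z0 (2 * δ), g z ≤ M * δ ^ 2 := by
    intro z hz
    have h1 := hS z hz
    have h2 : g z ≤ |S| := by
      have h3 := le_abs_self (g z)
      have h4 := le_abs_self S
      rw [Real.norm_eq_abs] at h1
      linarith
    have h3 : |S| = |S| / δ ^ 2 * δ ^ 2 := by field_simp
    have h4 : |S| / δ ^ 2 * δ ^ 2 ≤ M * δ ^ 2 := by
      apply mul_le_mul_of_nonneg_right _ (by positivity)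
      have := abs_nonneg (M1 : ℝ)
      linarith
    linarith
  refine ⟨Metric.ball z0 δ, Metric.ball_mem_nhds _ hδ, 4 * M, by positivity, ?_⟩
  intro z hz v hv
  have hzB : z ∈ Metric.closedBall z0 (2 * δ) := by
    rw [Metric.mem_closedBall]
    rw [Metric.mem_ball] at hz
    linarith
  -- Taylor bound
  have htay : ∀ t : ℝ, |t| ≤ δ → g (z + t • v) ≤ g z + t * fderiv ℝ g z v + M * t ^ 2 := by
    intro t ht
    have hsub : Metric.closedBall z |t| ⊆ Metric.closedBall z0 (2 * δ) := by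
      intro x hx
      rw [Metric.mem_closedBall] at hx ⊢
      rw [Metric.mem_ball] at hz
      have := dist_triangle x z z0
      linarith
    have hlip : ∀ x ∈ Metric.closedBall z |t|, ‖fderiv ℝ g x - fderiv ℝ g z‖ ≤ M * |t| := by
      intro x hx
      have h1 := hlip1.dist_le_mul x (hBt (hsub hx)).2 z (hBt hzB).2
      rw [dist_eq_norm, dist_eq_norm] at h1
      refine h1.trans ?_
      have h2 : ‖x - z‖ ≤ |t| := by
        rw [← dist_eq_norm]
        exact hx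
      exact mul_le_mul hM1' h2 (norm_nonneg _) hM.le
    have hd : ∀ x ∈ Metric.closedBall z |t|, DifferentiableAt ℝ g x := fun x hx =>
      (hg.contDiffAt (hO.mem_nhds (hB (hsub hx)))).differentiableAt (by simp)
    have hfd : ∀ x ∈ Metric.closedBall z |t|,
        HasFDerivWithinAt (fun x => g x - fderiv ℝ g z x) (fderiv ℝ g x - fderiv ℝ g z)
          (Metric.closedBall z |t|) x := by
      intro x hx
      exact ((hd x hx).hasFDerivAt.sub (fderiv ℝ g z).hasFDerivAt).hasFDerivWithinAt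
    have h2 := (convex_closedBall z |t|).norm_image_sub_le_of_norm_hasFDerivWithin_le
      (f := fun x => g x - fderiv ℝ g z x) hfd hlip
      (x := z) (y := z + t • v) (by simp) (by
        rw [Metric.mem_closedBall, dist_eq_norm]
        simp only [add_sub_cancel_left]
        rw [norm_smul, Real.norm_eq_abs]
        have h3 : |t| * ‖v‖ ≤ |t| * 1 := mul_le_mul_of_nonneg_left hv (abs_nonneg t)
        linarith)
    have h3 : ‖z + t • v - z‖ ≤ |t| := by
      simp only [add_sub_cancel_left]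
      rw [norm_smul, Real.norm_eq_abs]
      have h3 : |t| * ‖v‖ ≤ |t| * 1 := mul_le_mul_of_nonneg_left hv (abs_nonneg t)
      linarith
    have h4 : M * |t| * ‖z + t • v - z‖ ≤ M * |t| * |t| :=
      mul_le_mul_of_nonneg_left h3 (by positivity)
    have h5 := (le_abs_self _).trans (h2.trans h4)
    rw [map_add, (fderiv ℝ g z).map_smul, smul_eq_mul] at h5
    have h6 : M * |t| * |t| = M * t ^ 2 := by
      rw [mul_assoc, abs_mul_abs_self]; ring
    linarith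
  have hin : ∀ t : ℝ, |t| ≤ δ → z + t • v ∈ O := by
    intro t ht
    apply hB
    rw [Metric.mem_closedBall]
    rw [Metric.mem_ball] at hz
    have h1 := dist_triangle (z + t • v) z z0
    have h2 : dist (z + t • v) z ≤ δ := by
      rw [dist_eq_norm]
      simp only [add_sub_cancel_left]
      rw [norm_smul, Real.norm_eq_abs]
      have h3 : |t| * ‖v‖ ≤ |t| * 1 := mul_le_mul_of_nonneg_left hv (abs_nonneg t)
      linarith
    linarith
  set a : ℝ := fderiv ℝ g z v with ha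
  have hsmall : |a| ≤ 2 * M * δ := by
    by_contra hlt
    have hlt : 2 * M * δ < |a| := not_le.1 hlt
    have hgz := hMS z hzB
    rcases le_total 0 a with h | h
    · rw [abs_of_nonneg h] at hlt
      have h1 := htay (-δ) (by rw [abs_neg, abs_of_pos hδ])
      have h2 := h0 _ (hin (-δ) (by rw [abs_neg, abs_of_pos hδ]))
      have h3 : 2 * M * δ * δ < a * δ := mul_lt_mul_of_pos_right hlt hδ
      nlinarith
    · rw [abs_of_nonpos h] at hlt
      have h1 := htay δ (by rw [abs_of_pos hδ])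
      have h2 := h0 _ (hin δ (by rw [abs_of_pos hδ]))
      have h3 : 2 * M * δ * δ < -a * δ := mul_lt_mul_of_pos_right hlt hδ
      nlinarith
  have ht : |(-a / (2 * M))| ≤ δ := by
    rw [abs_div, abs_neg, abs_of_pos (by positivity : 0 < 2 * M), div_le_iff₀ (by positivity)]
    linarith
  have h1 := htay _ ht
  have h2 := h0 _ (hin _ ht)
  have h3 : -a / (2 * M) * a + M * (-a / (2 * M)) ^ 2 = -(a ^ 2 / (4 * M)) := by
    field_simp
    ring
  have h4 : a ^ 2 / (4 * M) ≤ g z := by linarith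
  rw [div_le_iff₀ (by positivity)] at h4
  linarith

theorem grd_gen {F : Type*} [NormedAddCommGroup F] [NormedSpace ℝ F] [FiniteDimensional ℝ F]
    {O : Set F} (hO : IsOpen O) {g : F → ℝ} (hg : ContDiffOn ℝ ∞ g O) (h0 : ∀ z ∈ O, 0 ≤ g z)
    {K : Set F} (hK : IsCompact K) (hKO : K ⊆ O) :
    ∃ C : ℝ, 0 ≤ C ∧ ∀ z ∈ K, ∀ v : F, ‖v‖ ≤ 1 → (fderiv ℝ g z v) ^ 2 ≤ C * g z := by
  have h := hK.induction_on (p := fun s => ∃ C : ℝ, 0 ≤ C ∧ ∀ z ∈ s, z ∈ O → ∀ v : F, ‖v‖ ≤ 1 →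
      (fderiv ℝ g z v) ^ 2 ≤ C * g z) ?_ ?_ ?_ ?_
  · obtain ⟨C, hC, h⟩ := h
    exact ⟨C, hC, fun z hz v hv => h z hz (hKO hz) v hv⟩
  · exact ⟨0, le_rfl, fun z hz => absurd hz (Set.notMem_empty z)⟩
  · rintro s t hst ⟨C, hC, h⟩
    exact ⟨C, hC, fun z hz => h z (hst hz)⟩
  · rintro s t ⟨C, hC, h⟩ ⟨C', hC', h'⟩
    refine ⟨max C C', le_max_of_le_left hC, ?_⟩
    rintro z (hz | hz) hzO v hv
    · exact (h z hz hzO v hv).trans (mul_le_mul_of_nonneg_right (le_max_left _ _) (h0 z hzO))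
    · exact (h' z hz hzO v hv).trans (mul_le_mul_of_nonneg_right (le_max_right _ _) (h0 z hzO))
  · intro z hz
    obtain ⟨t, ht, M, hM, h⟩ := Trk_local hO hg h0 (hKO hz)
    exact ⟨t, mem_nhdsWithin_of_mem_nhds ht, M, hM, fun y hy _ v hv => h y hy v hv⟩

private theorem Trk_LM {M : ℕ} {B : Set (E M)} (hB : IsOpen B) {W : E M → ℝ}
    (hW : ContDiffOn ℝ ∞ W B) (p q : Fin M) : ContDiffOn ℝ ∞ (fun y => LM W y p q) B :=
  contDiffOn_pk hB (contDiffOn_pb hB (contDiffOn_cx hW) q) p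

private theorem Trk_conj {F : Type*} [NormedAddCommGroup F] [NormedSpace ℝ F] {f : F → ℂ} {s : Set F}
    (hf : ContDiffOn ℝ ∞ f s) : ContDiffOn ℝ ∞ (fun x => conj (f x)) s := by
  have h := (Complex.conjCLE : ℂ ≃L[ℝ] ℂ).contDiff (n := ∞) |>.comp_contDiffOn hf
  exact h

private theorem Trk_smooth {M : ℕ} {B : Set (E M)} (hB : IsOpen B) {W : E M → ℝ}
    (hW : ContDiffOn ℝ ∞ W B) :
    ContDiffOn ℝ ∞ (fun p : E M × E M => (levi W p.1 p.2 p.2).re) (B ×ˢ Set.univ) := by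
  have h1 : ContDiffOn ℝ ∞ (fun p : E M × E M =>
      ∑ k, ∑ l, p.2 k * conj (p.2 l) * LM W p.1 k l) (B ×ˢ Set.univ) := by
    refine ContDiffOn.sum fun k _ => ContDiffOn.sum fun l _ => ?_
    refine ContDiffOn.mul (ContDiffOn.mul ?_ ?_) ?_
    · exact contDiffOn_pi.1 contDiffOn_snd k
    · exact Trk_conj (contDiffOn_pi.1 contDiffOn_snd l)
    · exact (Trk_LM hB hW k l).comp contDiffOn_fst fun p hp => hp.1
  have h2 : ContDiffOn ℝ ∞ (fun p : E M × E M => levi W p.1 p.2 p.2) (B ×ˢ Set.univ) := by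
    refine h1.congr fun p hp => ?_
    exact levi_eq_sum (hW.contDiffAt (hB.mem_nhds hp.1)) _ _
  exact Complex.reCLM.contDiff.comp_contDiffOn h2

private theorem Trk_fd {M : ℕ} {B : Set (E M)} (hB : IsOpen B) {W : E M → ℝ}
    (hW : ContDiffOn ℝ ∞ W B) {y : E M} (hy : y ∈ B) (v c : E M) :
    fderiv ℝ (fun p : E M × E M => (levi W p.1 p.2 p.2).re) (y, v) (c, 0)
      = (∑ p, ∑ q, v p * conj (v q) * fderiv ℝ (fun x => LM W x p q) y c).re := by
  have hg : DifferentiableAt ℝ (fun p : E M × E M => (levi W p.1 p.2 p.2).re) (y, v) :=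
    ((Trk_smooth hB hW).contDiffAt ((hB.prod isOpen_univ).mem_nhds ⟨hy, Set.mem_univ _⟩)).differentiableAt
      (by simp)
  have h1 : HasFDerivAt (fun x : E M => (levi W x v v).re)
      ((fderiv ℝ (fun p : E M × E M => (levi W p.1 p.2 p.2).re) (y, v)).comp
        (ContinuousLinearMap.inl ℝ (E M) (E M))) y :=
    hg.hasFDerivAt.comp (f := fun x : E M => (x, v)) y (hasFDerivAt_prodMk_left y v)
  have hd : ∀ p q, HasFDerivAt (fun x => v p * conj (v q) * LM W x p q)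
      ((v p * conj (v q)) • fderiv ℝ (fun x => LM W x p q) y) y := fun p q =>
    (diffAt_of hB (Trk_LM hB hW p q) hy).hasFDerivAt.const_mul _
  have h2 : HasFDerivAt (fun x : E M => ∑ p, ∑ q, v p * conj (v q) * LM W x p q)
      (∑ p, ∑ q, (v p * conj (v q)) • fderiv ℝ (fun x => LM W x p q) y) y :=
    HasFDerivAt.fun_sum fun p _ => HasFDerivAt.fun_sum fun q _ => hd p q
  have h3 : HasFDerivAt (fun x : E M => (levi W x v v).re)
      (Complex.reCLM.comp (∑ p, ∑ q, (v p * conj (v q)) • fderiv ℝ (fun x => LM W x p q) y)) y := by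
    have h4 := Complex.reCLM.hasFDerivAt.comp y h2
    refine h4.congr_of_eventuallyEq ?_
    filter_upwards [hB.mem_nhds hy] with x hx
    show (levi W x v v).re = Complex.reCLM _
    rw [levi_eq_sum (hW.contDiffAt (hB.mem_nhds hx)) v v]
    rfl
  have h5 := h1.unique h3
  have h6 := congrArg (fun T => T c) h5
  simp only [ContinuousLinearMap.comp_apply, ContinuousLinearMap.inl_apply] at h6
  rw [h6]
  simp [sum_apply, smul_apply, smul_eq_mul]

/-- the derivative of the Levi matrix is hermitian -/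
private theorem Trk_herm {M : ℕ} {B : Set (E M)} (hB : IsOpen B) {W : E M → ℝ}
    (hW : ContDiffOn ℝ ∞ W B) {y : E M} (hy : y ∈ B) (c : E M) (p q : Fin M) :
    conj (fderiv ℝ (fun x => LM W x p q) y c) = fderiv ℝ (fun x => LM W x q p) y c := by
  rw [← fderiv_conj (diffAt_of hB (Trk_LM hB hW p q) hy)]
  have h : (fun x => conj (LM W x p q)) =ᶠ[𝓝 y] fun x => LM W x q p := by
    filter_upwards [hB.mem_nhds hy] with x hx
    exact LM_conj hB hW hx p q
  rw [h.fderiv_eq]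

/-- expansion of a hermitian form -/
private theorem Trk_exp {M : ℕ} (D : Fin M → Fin M → ℂ) (hD : ∀ p q, conj (D p q) = D q p)
    (u b : E M) :
    (∑ p, ∑ q, (u + b) p * conj ((u + b) q) * D p q).re
      = (∑ p, ∑ q, u p * conj (u q) * D p q).re + 2 * (∑ p, ∑ q, u p * conj (b q) * D p q).re
        + (∑ p, ∑ q, b p * conj (b q) * D p q).re := by
  have h1 : (∑ p, ∑ q, b p * conj (u q) * D p q)
      = conj (∑ p, ∑ q, u p * conj (b q) * D p q) := by
    simp only [map_sum, map_mul, Complex.conj_conj, hD]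
    rw [Finset.sum_comm]
    refine Finset.sum_congr rfl fun p _ => Finset.sum_congr rfl fun q _ => ?_
    ring
  have h2 : (∑ p, ∑ q, (u + b) p * conj ((u + b) q) * D p q)
      = (∑ p, ∑ q, u p * conj (u q) * D p q) + (∑ p, ∑ q, u p * conj (b q) * D p q)
        + (∑ p, ∑ q, b p * conj (u q) * D p q) + (∑ p, ∑ q, b p * conj (b q) * D p q) := by
    simp only [← Finset.sum_add_distrib]
    refine Finset.sum_congr rfl fun p _ => Finset.sum_congr rfl fun q _ => ?_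
    simp only [Pi.add_apply, map_add]
    ring
  rw [h2, h1]
  simp only [Complex.add_re, Complex.conj_re]
  ring

/-- the Levi form at `u + b` for `u` in the kernel -/
private theorem Trk_levi {M : ℕ} {B : Set (E M)} (hB : IsOpen B) {W : E M → ℝ}
    (hW : ContDiffOn ℝ ∞ W B) {y : E M} (hy : y ∈ B) {u : E M}
    (hu : ∀ q, ∑ p, u p * LM W y p q = 0) (b : E M) :
    (levi W y (u + b) (u + b)).re = (levi W y b b).re := by
  have h0 : ∀ a : E M, ∑ p, ∑ q, u p * conj (a q) * LM W y p q = 0 := by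
    intro a
    rw [Finset.sum_comm]
    refine Finset.sum_eq_zero fun q _ => ?_
    have h1 : ∑ p, u p * conj (a q) * LM W y p q = conj (a q) * ∑ p, u p * LM W y p q := by
      rw [Finset.mul_sum]
      refine Finset.sum_congr rfl fun p _ => ?_
      ring
    rw [h1, hu q, mul_zero]
  rw [levi_eq_sum (hW.contDiffAt (hB.mem_nhds hy)), levi_eq_sum (hW.contDiffAt (hB.mem_nhds hy)),
    Trk_exp (fun p q => LM W y p q) (fun p q => LM_conj hB hW hy p q), h0 u, h0 b]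
  simp

private theorem Trk_re {M : ℕ} {B : Set (E M)} (hB : IsOpen B) {W : E M → ℝ}
    (hW : ContDiffOn ℝ ∞ W B) {y : E M} (hy : y ∈ B) {C : ℝ}
    (hC : ∀ v : E M, ‖v‖ ≤ 2 → ∀ c : E M, ‖c‖ ≤ 1 →
      ((∑ p, ∑ q, v p * conj (v q) * fderiv ℝ (fun x => LM W x p q) y c).re) ^ 2
        ≤ C * (levi W y v v).re)
    {u : E M} (hu : ∀ q, ∑ p, u p * LM W y p q = 0) (hu1 : ‖u‖ ≤ 1) {b : E M} (hb : ‖b‖ ≤ 1)
    {c : E M} (hc : ‖c‖ ≤ 1) :
    4 * ((∑ p, ∑ q, u p * conj (b q) * fderiv ℝ (fun x => LM W x p q) y c).re) ^ 2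
      ≤ C * (levi W y b b).re := by
  have hD := fun p q => Trk_herm hB hW hy c p q
  have e0 : (levi W y u u).re = 0 := by
    have h1 := Trk_levi hB hW hy hu 0
    rw [add_zero] at h1
    rw [h1, levi_eq_sum (hW.contDiffAt (hB.mem_nhds hy))]
    simp
  have k0 := hC u (hu1.trans (by norm_num)) c hc
  rw [e0, mul_zero] at k0
  have k0' : (∑ p, ∑ q, u p * conj (u q) * fderiv ℝ (fun x => LM W x p q) y c).re = 0 :=
    pow_eq_zero_iff (two_ne_zero) |>.1 (le_antisymm k0 (sq_nonneg _))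
  have n1 : ‖u + b‖ ≤ 2 := (norm_add_le u b).trans (by linarith)
  have n2 : ‖u + -b‖ ≤ 2 := (norm_add_le u (-b)).trans (by rw [norm_neg]; linarith)
  have k1 := hC _ n1 c hc
  have k2 := hC _ n2 c hc
  rw [Trk_levi hB hW hy hu, Trk_exp (fun p q => fderiv ℝ (fun x => LM W x p q) y c) hD, k0'] at k1
  rw [Trk_levi hB hW hy hu, Trk_exp (fun p q => fderiv ℝ (fun x => LM W x p q) y c) hD, k0'] at k2
  have e1 : (levi W y (-b) (-b)).re = (levi W y b b).re := by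
    rw [levi_eq_sum (hW.contDiffAt (hB.mem_nhds hy)), levi_eq_sum (hW.contDiffAt (hB.mem_nhds hy))]
    simp
  have e2 : (∑ p, ∑ q, u p * conj ((-b) q) * fderiv ℝ (fun x => LM W x p q) y c)
      = -∑ p, ∑ q, u p * conj (b q) * fderiv ℝ (fun x => LM W x p q) y c := by
    simp only [← Finset.sum_neg_distrib]
    refine Finset.sum_congr rfl fun p _ => Finset.sum_congr rfl fun q _ => ?_
    simp only [Pi.neg_apply, map_neg]
    ring
  have e3 : (∑ p, ∑ q, (-b) p * conj ((-b) q) * fderiv ℝ (fun x => LM W x p q) y c)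
      = ∑ p, ∑ q, b p * conj (b q) * fderiv ℝ (fun x => LM W x p q) y c := by
    refine Finset.sum_congr rfl fun p _ => Finset.sum_congr rfl fun q _ => ?_
    simp only [Pi.neg_apply, map_neg]
    ring
  rw [e1, e2, e3, Complex.neg_re] at k2
  generalize (∑ p, ∑ q, u p * conj (b q) * fderiv ℝ (fun x => LM W x p q) y c).re = s at k1 k2 ⊢
  generalize (∑ p, ∑ q, b p * conj (b q) * fderiv ℝ (fun x => LM W x p q) y c).re = β at k1 k2
  generalize (levi W y b b).re = G at k1 k2 ⊢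
  nlinarith [sq_nonneg β]

private theorem Trk_nm {M : ℕ} {B : Set (E M)} (hB : IsOpen B) {W : E M → ℝ}
    (hW : ContDiffOn ℝ ∞ W B) {y : E M} (hy : y ∈ B) {C : ℝ}
    (hC : ∀ v : E M, ‖v‖ ≤ 2 → ∀ c : E M, ‖c‖ ≤ 1 →
      ((∑ p, ∑ q, v p * conj (v q) * fderiv ℝ (fun x => LM W x p q) y c).re) ^ 2
        ≤ C * (levi W y v v).re)
    {u : E M} (hu : ∀ q, ∑ p, u p * LM W y p q = 0) (hu1 : ‖u‖ ≤ 1) {b : E M} (hb : ‖b‖ ≤ 1)
    {c : E M} (hc : ‖c‖ ≤ 1) :
    2 * ‖∑ p, ∑ q, u p * conj (b q) * fderiv ℝ (fun x => LM W x p q) y c‖ ^ 2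
      ≤ C * (levi W y b b).re := by
  have h1 := Trk_re hB hW hy hC hu hu1 hb hc
  have hIb : ‖(I • b : E M)‖ ≤ 1 := by
    rw [norm_smul, Complex.norm_I, one_mul]
    exact hb
  have h2 := Trk_re hB hW hy hC hu hu1 hIb hc
  have e1 : (levi W y (I • b) (I • b)) = (levi W y b b) := by
    rw [levi_eq_sum (hW.contDiffAt (hB.mem_nhds hy)), levi_eq_sum (hW.contDiffAt (hB.mem_nhds hy))]
    refine Finset.sum_congr rfl fun p _ => Finset.sum_congr rfl fun q _ => ?_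
    simp only [Pi.smul_apply, smul_eq_mul, map_mul, Complex.conj_I]
    linear_combination (-(b p * conj (b q) * LM W y p q)) * Complex.I_mul_I
  have e2 : (∑ p, ∑ q, u p * conj ((I • b) q) * fderiv ℝ (fun x => LM W x p q) y c)
      = -I * ∑ p, ∑ q, u p * conj (b q) * fderiv ℝ (fun x => LM W x p q) y c := by
    simp only [Finset.mul_sum]
    refine Finset.sum_congr rfl fun p _ => Finset.sum_congr rfl fun q _ => ?_
    simp only [Pi.smul_apply, smul_eq_mul, map_mul, Complex.conj_I]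
    ring
  rw [e1, e2] at h2
  generalize (∑ p, ∑ q, u p * conj (b q) * fderiv ℝ (fun x => LM W x p q) y c) = s at h1 h2 ⊢
  have h3 : (-I * s).re = s.im := by simp
  rw [h3] at h2
  have h4 : ‖s‖ ^ 2 = s.re ^ 2 + s.im ^ 2 := by
    rw [← Complex.normSq_eq_norm_sq, Complex.normSq_apply]
    ring
  rw [h4]
  linarith

private theorem Trk_d01 {M : ℕ} {W : E M → ℝ} {y : E M} (u b c : E M) :
    ∑ p, ∑ q, ∑ s, u p * conj (b q) * conj (c s) * pb s (fun x => LM W x p q) y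
      = ((∑ p, ∑ q, u p * conj (b q) * fderiv ℝ (fun x => LM W x p q) y c)
        + I * ∑ p, ∑ q, u p * conj (b q) * fderiv ℝ (fun x => LM W x p q) y (I • c)) / 2 := by
  rw [Finset.mul_sum, ← Finset.sum_add_distrib, Finset.sum_div]
  refine Finset.sum_congr rfl fun p _ => ?_
  rw [Finset.mul_sum, ← Finset.sum_add_distrib, Finset.sum_div]
  refine Finset.sum_congr rfl fun q _ => ?_
  have h := d01_eq_sum (fun x => LM W x p q) y c
  have h2 : ∑ s, u p * conj (b q) * conj (c s) * pb s (fun x => LM W x p q) y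
      = u p * conj (b q) * ∑ s, conj (c s) * pb s (fun x => LM W x p q) y := by
    rw [Finset.mul_sum]
    refine Finset.sum_congr rfl fun s _ => ?_
    ring
  rw [h2, ← h]
  unfold d01
  ring

private theorem Trk_unit {M : ℕ} {B : Set (E M)} (hB : IsOpen B) {W : E M → ℝ}
    (hW : ContDiffOn ℝ ∞ W B) {y : E M} (hy : y ∈ B) {C : ℝ}
    (hC : ∀ v : E M, ‖v‖ ≤ 2 → ∀ c : E M, ‖c‖ ≤ 1 →
      ((∑ p, ∑ q, v p * conj (v q) * fderiv ℝ (fun x => LM W x p q) y c).re) ^ 2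
        ≤ C * (levi W y v v).re)
    {u : E M} (hu : ∀ q, ∑ p, u p * LM W y p q = 0) (hu1 : ‖u‖ ≤ 1) {b : E M} (hb : ‖b‖ ≤ 1)
    {c : E M} (hc : ‖c‖ ≤ 1) :
    ‖∑ p, ∑ q, ∑ s, u p * conj (b q) * conj (c s) * pb s (fun x => LM W x p q) y‖ ^ 2
      ≤ C * (levi W y b b).re := by
  have h1 := Trk_nm hB hW hy hC hu hu1 hb hc
  have hIc : ‖(I • c : E M)‖ ≤ 1 := by
    rw [norm_smul, Complex.norm_I, one_mul]
    exact hc
  have h2 := Trk_nm hB hW hy hC hu hu1 hb hIc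
  rw [Trk_d01]
  generalize (∑ p, ∑ q, u p * conj (b q) * fderiv ℝ (fun x => LM W x p q) y c) = s at h1 ⊢
  generalize (∑ p, ∑ q, u p * conj (b q) * fderiv ℝ (fun x => LM W x p q) y (I • c)) = t at h2 ⊢
  have h3 : ‖(s + I * t) / 2‖ ≤ (‖s‖ + ‖t‖) / 2 := by
    rw [norm_div, Complex.norm_ofNat]
    have h4 := norm_add_le s (I * t)
    rw [norm_mul, Complex.norm_I, one_mul] at h4
    linarith
  have h5 : ‖(s + I * t) / 2‖ ^ 2 ≤ ((‖s‖ + ‖t‖) / 2) ^ 2 :=
    pow_le_pow_left₀ (norm_nonneg _) h3 2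
  nlinarith [sq_nonneg (‖s‖ - ‖t‖), sq_nonneg (‖s‖), sq_nonneg (‖t‖)]

theorem trk {M : ℕ} {B : Set (E M)} (hB : IsOpen B) {W : E M → ℝ} (hW : ContDiffOn ℝ ∞ W B)
    (hpsh : ∀ y ∈ B, ∀ a, 0 ≤ (levi W y a a).re) {K₀ : Set (E M)} (hK : IsCompact K₀)
    (hKB : K₀ ⊆ B) :
    ∃ C : ℝ, 0 ≤ C ∧ ∀ y ∈ K₀, ∀ u : E M, (∀ q, ∑ p, u p * LM W y p q = 0) → ∀ b c : E M,
      ‖∑ p, ∑ q, ∑ s, u p * conj (b q) * conj (c s) * pb s (fun x => LM W x p q) y‖ ^ 2
        ≤ C * (∑ p, ‖u p‖ ^ 2) * (∑ s, ‖c s‖ ^ 2) * (levi W y b b).re := by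
  obtain ⟨C, hC0, hC⟩ := grd_gen (hB.prod isOpen_univ) (Trk_smooth hB hW)
    (fun p hp => hpsh p.1 hp.1 p.2) (hK.prod (isCompact_closedBall (0 : E M) 2))
    (Set.prod_mono hKB (Set.subset_univ _))
  refine ⟨C, hC0, fun y hy u hu b c => ?_⟩
  have hyB := hKB hy
  have hC' : ∀ v : E M, ‖v‖ ≤ 2 → ∀ c : E M, ‖c‖ ≤ 1 →
      ((∑ p, ∑ q, v p * conj (v q) * fderiv ℝ (fun x => LM W x p q) y c).re) ^ 2
        ≤ C * (levi W y v v).re := by
    intro v hv c hc
    have h1 := hC (y, v) ⟨hy, by simpa using hv⟩ (c, 0) (by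
      rw [Prod.norm_mk, norm_zero]
      exact max_le hc zero_le_one)
    rw [Trk_fd hB hW hyB] at h1
    exact h1
  have hsq : ∀ a : E M, ‖a‖ ^ 2 ≤ ∑ p, ‖a p‖ ^ 2 := by
    intro a
    have h0 : 0 ≤ ∑ p, ‖a p‖ ^ 2 := Finset.sum_nonneg fun p _ => sq_nonneg _
    have h1 : ‖a‖ ≤ Real.sqrt (∑ p, ‖a p‖ ^ 2) := by
      rw [pi_norm_le_iff_of_nonneg (Real.sqrt_nonneg _)]
      intro p
      refine Real.le_sqrt_of_sq_le ?_
      exact Finset.single_le_sum (f := fun p => ‖a p‖ ^ 2) (fun p _ => sq_nonneg _)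
        (Finset.mem_univ p)
    calc ‖a‖ ^ 2 ≤ (Real.sqrt (∑ p, ‖a p‖ ^ 2)) ^ 2 := pow_le_pow_left₀ (norm_nonneg _) h1 2
      _ = _ := Real.sq_sqrt h0
  have hG : 0 ≤ (levi W y b b).re := hpsh y hyB b
  have hRHS : 0 ≤ C * (∑ p, ‖u p‖ ^ 2) * (∑ s, ‖c s‖ ^ 2) * (levi W y b b).re := by
    have h0 : 0 ≤ ∑ p, ‖u p‖ ^ 2 := Finset.sum_nonneg fun p _ => sq_nonneg _
    have h1 : 0 ≤ ∑ p, ‖c p‖ ^ 2 := Finset.sum_nonneg fun p _ => sq_nonneg _
    positivity
  by_cases hu0 : u = 0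
  · subst hu0
    simp
  by_cases hb0 : b = 0
  · subst hb0
    simpa using hRHS
  by_cases hc0 : c = 0
  · subst hc0
    simp
  have nu : 0 < ‖u‖ := norm_pos_iff.2 hu0
  have nb : 0 < ‖b‖ := norm_pos_iff.2 hb0
  have nc : 0 < ‖c‖ := norm_pos_iff.2 hc0
  have hnorm : ∀ a : E M, 0 < ‖a‖ → ‖((‖a‖ : ℂ)⁻¹ • a : E M)‖ ≤ 1 := by
    intro a ha
    rw [norm_smul, norm_inv, Complex.norm_real, norm_norm, inv_mul_cancel₀ ha.ne']
  have hu' : ∀ q, ∑ p, ((‖u‖ : ℂ)⁻¹ • u : E M) p * LM W y p q = 0 := by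
    intro q
    have h1 : ∑ p, ((‖u‖ : ℂ)⁻¹ • u : E M) p * LM W y p q
        = (‖u‖ : ℂ)⁻¹ * ∑ p, u p * LM W y p q := by
      rw [Finset.mul_sum]
      refine Finset.sum_congr rfl fun p _ => ?_
      simp only [Pi.smul_apply, smul_eq_mul]
      ring
    rw [h1, hu q, mul_zero]
  have key := Trk_unit hB hW hyB hC' hu' (hnorm u nu) (hnorm b nb) (hnorm c nc)
  have e1 : (∑ p, ∑ q, ∑ s, ((‖u‖ : ℂ)⁻¹ • u : E M) p * conj (((‖b‖ : ℂ)⁻¹ • b : E M) q)
      * conj (((‖c‖ : ℂ)⁻¹ • c : E M) s) * pb s (fun x => LM W x p q) y)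
      = ((‖u‖ : ℂ)⁻¹ * (‖b‖ : ℂ)⁻¹ * (‖c‖ : ℂ)⁻¹) *
        ∑ p, ∑ q, ∑ s, u p * conj (b q) * conj (c s) * pb s (fun x => LM W x p q) y := by
    simp only [Finset.mul_sum]
    refine Finset.sum_congr rfl fun p _ => Finset.sum_congr rfl fun q _ =>
      Finset.sum_congr rfl fun s _ => ?_
    simp only [Pi.smul_apply, smul_eq_mul, map_mul, map_inv₀, Complex.conj_ofReal]
    ring
  have e2 : (levi W y ((‖b‖ : ℂ)⁻¹ • b) ((‖b‖ : ℂ)⁻¹ • b)).re = (‖b‖⁻¹) ^ 2 * (levi W y b b).re := by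
    have h1 : levi W y ((‖b‖ : ℂ)⁻¹ • b) ((‖b‖ : ℂ)⁻¹ • b)
        = (((‖b‖⁻¹) ^ 2 : ℝ) : ℂ) * levi W y b b := by
      rw [levi_eq_sum (hW.contDiffAt (hB.mem_nhds hyB)), levi_eq_sum (hW.contDiffAt (hB.mem_nhds hyB))]
      simp only [Finset.mul_sum]
      refine Finset.sum_congr rfl fun p _ => Finset.sum_congr rfl fun q _ => ?_
      simp only [Pi.smul_apply, smul_eq_mul, map_mul, map_inv₀, Complex.conj_ofReal]
      push_cast
      ring
    rw [h1, Complex.re_ofReal_mul]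
  rw [e1, e2, norm_mul, norm_mul, norm_mul, norm_inv, norm_inv, norm_inv, Complex.norm_real,
    Complex.norm_real, Complex.norm_real, norm_norm, norm_norm, norm_norm] at key
  set T : ℝ := ‖∑ p, ∑ q, ∑ s, u p * conj (b q) * conj (c s) * pb s (fun x => LM W x p q) y‖
    with hT
  set G : ℝ := (levi W y b b).re with hGd
  have k2 : T ^ 2 ≤ C * ‖u‖ ^ 2 * ‖c‖ ^ 2 * G := by
    have h1 : (‖u‖⁻¹ * ‖b‖⁻¹ * ‖c‖⁻¹ * T) ^ 2 * (‖u‖ ^ 2 * ‖b‖ ^ 2 * ‖c‖ ^ 2) = T ^ 2 := by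
      field_simp
    have h2 : C * ((‖b‖⁻¹) ^ 2 * G) * (‖u‖ ^ 2 * ‖b‖ ^ 2 * ‖c‖ ^ 2) = C * ‖u‖ ^ 2 * ‖c‖ ^ 2 * G := by
      field_simp
    rw [← h1, ← h2]
    exact mul_le_mul_of_nonneg_right key (by positivity)
  refine k2.trans (mul_le_mul_of_nonneg_right ?_ hG)
  exact mul_le_mul (mul_le_mul_of_nonneg_left (hsq u) hC0) (hsq c) (sq_nonneg _)
    (mul_nonneg hC0 (Finset.sum_nonneg fun p _ => sq_nonneg _))

end Pool.Agent.CYN
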