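import Pool.Agent.CYN.Lam
import Pool.Agent.CYN.Trk
import Pool.Agent.CYN.Alg

/-!
CYN module Kbd (size 5): the a priori bound `K ≤ C det (Jᴴ J)`, `λ ≤ C det (Jᴴ J)`.
PROOF. `Emb.psd`: `lm w z` is hermitian (`LM_conj`) and `levi w z a a = levi W (φ z) (J a) (J a) ≥ 0` (`levi_eq_sum`), as in `lm_psd` of
CYF/Geo.lean.
`kbd`: take `C₁` from `trk`, and `c₁ ≥ 0` with `‖LM W y p q‖ ≤ c₁` for `y ∈ K₀` (continuity of `LM W · p q`, `contDiffOn_pk`,
`contDiffOn_pb`, compactness), so `(levi W y a a).re ≤ M c₁ ∑ ‖a p‖²`. Constant `C = C₁ n² (1 + M c₁)^n + (1 + M c₁)^n`.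
Let `N k l = ∑_a J_ak conj J_al`, so `∑_kl a_k conj (b_l) N_kl = ∑_p (J a)_p conj (J b)_p`; `N` is positive definite (`imm`), `det N = conj (det (Jᴴ J))`
(`N = (Jᴴ J)ᵀ`), and it is a nonnegative real number, so `N.det.re = dj φ z`. If `rho w m z = 0` for all `m` then
`lam = 0` (`rho_of_lam`). Let `rho w m z ≠ 0`, `u = uu w m · z`, `h = kf_of` on `Um w m U`. Apply `alg` with `F = lm w z`, `X = Mx (uu w m) z`,
`hX = h.adm_M`, `c = M c₁`, `C = C₁`. `hFN`: `compat`. `hS`: differentiate `∑_k uu_k LM w · k l = 0` (`h.ker`, on the open set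
`Um`) with `∂̄_j`: `∑_k X k j F k l = - ∑_k u_k ∂̄_j (LM w · k l)` (as in CYF/Syx.lean); `LM w y k l = LM (W ∘ φ) y k l` on `U`
(`compat`, `LM_comp'`), so by `S_comp` this is `- ∑_pqs (J u)_p conj (J_ql) conj (J_sj) ∂̄_s LM W p q`; its hypothesis `∑_p (J u)_p LM W (φ z) p q = 0`
holds because `levi W (φ z) (J u) (J u) = levi w z u u = 0` and `levi W` is psd (Cauchy-Schwarz, or `Matrix.PosSemidef.dotProduct_mulVec_zero_iff`).
The sum in `hS` is then `- ∑_pqs (J u)_p conj ((J a)_q) conj ((J b)_s) ∂̄_s LM W p q` and `trk` gives the bound.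
`(F.adjugate m m).re * (X * cj X).trace.re = Kf w m z` (`Lgk_Kf`, CYF/Lgk.lean).
-/

open scoped ContDiff ComplexConjugate Topology ComplexOrder
open Complex Matrix

namespace Pool.Agent.CYN

open Pool.Agent.CYF

variable {n M : ℕ}

/-- the determinant of the metric induced by `φ` -/
noncomputable def dj (φ : E n → E M) (z : E n) : ℝ :=
  ‖((jm φ z).conjTranspose * jm φ z).det‖

/-- the local situation: the Levi form of `w` on `U` is the pull-back by the holomorphic immersion
`φ` of the Levi form of the plurisubharmonic function `W` on `B` -/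
structure Emb (w : E n → ℝ) (U : Set (E n)) (φ : E n → E M) (W : E M → ℝ) (B : Set (E M)) :
    Prop where
  isOpen : IsOpen U
  sw : ContDiffOn ℝ ∞ w U
  hol : ContDiffOn ℂ ∞ φ U
  imm : ∀ z ∈ U, Function.Injective (fderiv ℂ φ z)
  isOpen_B : IsOpen B
  sW : ContDiffOn ℝ ∞ W B
  maps : ∀ z ∈ U, φ z ∈ B
  psh : ∀ y ∈ B, ∀ a, 0 ≤ (levi W y a a).re
  compat : ∀ z ∈ U, ∀ a b : E n, levi w z a b
    = levi W (φ z) (fderiv ℂ φ z a) (fderiv ℂ φ z b)
  sing : ∀ z ∈ U, (lm w z).det = 0

private theorem kbd_form {w : E n → ℝ} {z : E n} (hw : ContDiffAt ℝ ∞ w z) (x : E n) :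
    star x ⬝ᵥ (lm w z *ᵥ x) = levi w z (fun k => conj (x k)) (fun k => conj (x k)) := by
  rw [levi_eq_sum hw]
  simp only [dotProduct, mulVec, Finset.mul_sum]
  refine Finset.sum_congr rfl fun k _ => Finset.sum_congr rfl fun l _ => ?_
  have h2 : lm w z k l = LM w z k l := rfl
  rw [h2, Pi.star_apply, Complex.star_def, Complex.conj_conj]
  ring

private theorem kbd_psd {w : E n → ℝ} {U : Set (E n)} (hU : IsOpen U) (hw : ContDiffOn ℝ ∞ w U)
    {z : E n} (hz : z ∈ U) (h0 : ∀ a, 0 ≤ (levi w z a a).re) : (lm w z).PosSemidef := by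
  have hw' := hw.contDiffAt (hU.mem_nhds hz)
  have hherm : (lm w z).IsHermitian := by
    ext k l
    rw [conjTranspose_apply]
    exact LM_conj hU hw hz l k
  refine Matrix.PosSemidef.of_dotProduct_mulVec_nonneg hherm fun x => ?_
  rw [Complex.le_def]
  refine ⟨?_, ?_⟩
  · rw [kbd_form hw']
    exact h0 _
  · have h3 := hherm.im_star_dotProduct_mulVec_self x
    rw [Complex.zero_im]
    exact h3.symm

theorem Emb.psd {w : E n → ℝ} {U : Set (E n)} {φ : E n → E M} {W : E M → ℝ} {B : Set (E M)}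
    (h : Emb w U φ W B) {z : E n} (hz : z ∈ U) : (lm w z).PosSemidef := by
  refine kbd_psd h.isOpen h.sw hz fun a => ?_
  rw [h.compat z hz a a]
  exact h.psh _ (h.maps z hz) _

/-- a null vector of a semidefinite Levi form is a kernel vector -/
private theorem kbd_null {W : E n → ℝ} {B : Set (E n)} (hB : IsOpen B) (hW : ContDiffOn ℝ ∞ W B)
    {y : E n} (hy : y ∈ B) (h0 : ∀ a, 0 ≤ (levi W y a a).re) {v : E n} (hv : levi W y v v = 0)
    (q : Fin n) : ∑ p, v p * LM W y p q = 0 := by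
  have h1 := kbd_psd hB hW hy h0
  have h2 := kbd_form (hW.contDiffAt (hB.mem_nhds hy)) (fun k => conj (v k))
  simp only [Complex.conj_conj] at h2
  rw [hv] at h2
  have h3 := (h1.dotProduct_mulVec_zero_iff _).1 h2
  have h4 : ∑ l, LM W y q l * conj (v l) = 0 := congrFun h3 q
  have h5 := congrArg conj h4
  rw [map_sum, map_zero] at h5
  rw [← h5]
  refine Finset.sum_congr rfl fun l _ => ?_
  rw [map_mul, Complex.conj_conj, LM_conj hB hW hy, mul_comm]

private theorem kbd_sum (b a : Fin n → ℂ) (U : Fin M → ℂ) (J : Fin M → Fin n → ℂ)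
    (D : Fin M → Fin M → Fin M → ℂ) :
    ∑ j, ∑ l, b j * a l * ∑ p, ∑ q, ∑ s, U p * J q l * J s j * D p q s
      = ∑ p, ∑ q, ∑ s, U p * (∑ l, J q l * a l) * (∑ j, J s j * b j) * D p q s := by
  have e1 : ∀ f : Fin M → Fin M → Fin M → ℂ, ∑ p, ∑ q, ∑ s, f p q s
      = ∑ t : Fin M × Fin M × Fin M, f t.1 t.2.1 t.2.2 := by
    intro f
    rw [Fintype.sum_prod_type]
    refine Finset.sum_congr rfl fun p _ => ?_
    rw [Fintype.sum_prod_type]
  simp only [e1]
  have e2 : ∀ t : Fin M × Fin M × Fin M,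
      U t.1 * (∑ l, J t.2.1 l * a l) * (∑ j, J t.2.2 j * b j) * D t.1 t.2.1 t.2.2
      = ∑ j, ∑ l, b j * a l * (U t.1 * J t.2.1 l * J t.2.2 j * D t.1 t.2.1 t.2.2) := by
    intro t
    rw [Finset.mul_sum, Finset.sum_mul]
    refine Finset.sum_congr rfl fun j _ => ?_
    rw [Finset.mul_sum, Finset.sum_mul, Finset.sum_mul]
    refine Finset.sum_congr rfl fun l _ => ?_
    ring
  rw [Finset.sum_congr rfl fun t _ => e2 t]
  conv_rhs => rw [Finset.sum_comm]
  refine Finset.sum_congr rfl fun j _ => ?_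
  conv_rhs => rw [Finset.sum_comm]
  refine Finset.sum_congr rfl fun l _ => ?_
  rw [Finset.mul_sum]

private theorem kbd_N (φ : E n → E M) (z a b : E n) :
    ∑ k, ∑ l, a k * conj (b l) * (∑ p, jm φ z p k * conj (jm φ z p l))
      = ∑ p, fderiv ℂ φ z a p * conj (fderiv ℂ φ z b p) := by
  simp only [jm_apply, Finset.mul_sum, Finset.sum_mul, map_sum, map_mul]
  have e1 : ∀ f : Fin n → Fin n → Fin M → ℂ, ∑ k, ∑ l, ∑ p, f k l p = ∑ p, ∑ l, ∑ k, f k l p := by
    intro f
    rw [Finset.sum_comm]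
    simp_rw [Finset.sum_comm (s := (Finset.univ : Finset (Fin n))) (t := (Finset.univ : Finset (Fin M)))]
  rw [e1]
  refine Finset.sum_congr rfl fun p _ => Finset.sum_congr rfl fun l _ =>
    Finset.sum_congr rfl fun k _ => ?_
  ring

theorem kbd (n : ℕ) {W : E M → ℝ} {B : Set (E M)} (hB : IsOpen B) (hW : ContDiffOn ℝ ∞ W B)
    (hpsh : ∀ y ∈ B, ∀ a, 0 ≤ (levi W y a a).re) {K₀ : Set (E M)} (hK : IsCompact K₀)
    (hKB : K₀ ⊆ B) :
    ∃ C : ℝ, 0 ≤ C ∧ ∀ (w : E n → ℝ) (U : Set (E n)) (φ : E n → E M), Emb w U φ W B →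
      ∀ z ∈ U, φ z ∈ K₀ →
        (∀ m, rho w m z ≠ 0 → Kf w m z ≤ C * dj φ z) ∧ lam w φ z ≤ C * dj φ z := by
  obtain ⟨C₁, hC₁, htrk⟩ := trk hB hW hpsh hK hKB
  have hWc := contDiffOn_cx hW
  have hLM : ∀ p q, ContDiffOn ℝ ∞ (fun y => LM W y p q) B := fun p q =>
    contDiffOn_pk hB (contDiffOn_pb hB hWc q) p
  have hcont : ContinuousOn (fun y => ∑ p, ∑ q, ‖LM W y p q‖) K₀ :=
    continuousOn_finsetSum _ fun p _ => continuousOn_finsetSum _ fun q _ =>
      (((hLM p q).continuousOn).mono hKB).norm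
  obtain ⟨c₀, hc₀⟩ := hK.exists_bound_of_continuousOn hcont
  set c₁ : ℝ := |c₀| with hc₁
  have hc₁0 : 0 ≤ c₁ := abs_nonneg _
  have hent : ∀ y ∈ K₀, ∀ p q, ‖LM W y p q‖ ≤ c₁ := by
    intro y hy p q
    have h1 := hc₀ y hy
    rw [Real.norm_eq_abs] at h1
    have h2 : ‖LM W y p q‖ ≤ ∑ p, ∑ q, ‖LM W y p q‖ :=
      (Finset.single_le_sum (f := fun q => ‖LM W y p q‖) (fun _ _ => norm_nonneg _)
        (Finset.mem_univ q)).trans
      (Finset.single_le_sum (f := fun p => ∑ q, ‖LM W y p q‖)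
        (fun _ _ => Finset.sum_nonneg fun _ _ => norm_nonneg _) (Finset.mem_univ p))
    exact h2.trans ((le_abs_self _).trans (h1.trans (le_abs_self _)))
  have hlev : ∀ y ∈ K₀, ∀ a : E M, (levi W y a a).re ≤ M * c₁ * ∑ p, ‖a p‖ ^ 2 := by
    intro y hy a
    rw [levi_eq_sum (hW.contDiffAt (hB.mem_nhds (hKB hy)))]
    refine (Complex.re_le_norm _).trans ?_
    calc ‖∑ p, ∑ q, a p * conj (a q) * LM W y p q‖
        ≤ ∑ p, ∑ q, ‖a p‖ * ‖a q‖ * c₁ := by
          refine (norm_sum_le _ _).trans (Finset.sum_le_sum fun p _ => ?_)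
          refine (norm_sum_le _ _).trans (Finset.sum_le_sum fun q _ => ?_)
          rw [norm_mul, norm_mul, Complex.norm_conj]
          exact mul_le_mul_of_nonneg_left (hent y hy p q) (by positivity)
      _ = c₁ * (∑ p, ‖a p‖) ^ 2 := by
          rw [sq, Finset.sum_mul_sum, Finset.mul_sum]
          refine Finset.sum_congr rfl fun p _ => ?_
          rw [Finset.mul_sum]
          exact Finset.sum_congr rfl fun q _ => by ring
      _ ≤ c₁ * (M * ∑ p, ‖a p‖ ^ 2) := by
          refine mul_le_mul_of_nonneg_left ?_ hc₁0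
          have h1 := sq_sum_le_card_mul_sum_sq (s := (Finset.univ : Finset (Fin M)))
            (f := fun p => ‖a p‖)
          rwa [Finset.card_univ, Fintype.card_fin] at h1
      _ = M * c₁ * ∑ p, ‖a p‖ ^ 2 := by ring
  have hM0 : 0 ≤ (M : ℝ) * c₁ := by positivity
  refine ⟨C₁ * n ^ 2 * (1 + M * c₁) ^ n + (1 + M * c₁) ^ n, by positivity, ?_⟩
  intro w U φ h z hz hzK
  have hpsd : ∀ y ∈ U, (lm w y).PosSemidef := fun y hy => h.psd hy
  have hwz := h.sw.contDiffAt (h.isOpen.mem_nhds hz)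
  -- the metric
  set N : Matrix (Fin n) (Fin n) ℂ :=
    Matrix.of fun k l => ∑ p, jm φ z p k * conj (jm φ z p l) with hNdef
  have hNT : N = ((jm φ z).conjTranspose * jm φ z)ᵀ := by
    ext k l
    rw [Matrix.transpose_apply, Matrix.mul_apply]
    show ∑ p, jm φ z p k * conj (jm φ z p l) = _
    refine Finset.sum_congr rfl fun p _ => ?_
    rw [Matrix.conjTranspose_apply, Complex.star_def]
    ring
  have hinj : Function.Injective (jm φ z).mulVec := by
    intro x y hxy
    apply h.imm z hz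
    funext p
    rw [jm_apply, jm_apply]
    exact congrFun hxy p
  have hJJ : ((jm φ z).conjTranspose * jm φ z).PosDef :=
    Matrix.PosDef.conjTranspose_mul_self _ hinj
  have hN : N.PosDef := by
    rw [hNT]
    exact hJJ.transpose
  have hdN : N.det.re = dj φ z := by
    have h1 : N.det = ((jm φ z).conjTranspose * jm φ z).det := by
      rw [hNT, Matrix.det_transpose]
    have h2 := hJJ.det_pos
    rw [← h1] at h2
    have h3 := Complex.lt_def.1 h2
    unfold dj
    rw [← h1]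
    have h4 : N.det = ((N.det.re : ℝ) : ℂ) := by
      apply Complex.ext
      · simp
      · have h5 : (0 : ℂ).im = N.det.im := h3.2
        simpa using h5.symm
    rw [h4, Complex.ofReal_re, Complex.norm_real, Real.norm_eq_abs, abs_of_pos h3.1]
  have hdj : 0 ≤ dj φ z := norm_nonneg _
  have hNN : ∀ a : E n, (∑ k, ∑ l, a k * conj (a l) * N k l).re
      = ∑ p, ‖fderiv ℂ φ z a p‖ ^ 2 := by
    intro a
    have h1 : (∑ k, ∑ l, a k * conj (a l) * N k l)
        = ∑ p, fderiv ℂ φ z a p * conj (fderiv ℂ φ z a p) := kbd_N φ z a a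
    rw [h1, Complex.re_sum]
    refine Finset.sum_congr rfl fun p _ => ?_
    rw [Complex.mul_conj, Complex.ofReal_re, Complex.normSq_eq_norm_sq]
  have hFl : ∀ a : E n, (∑ k, ∑ l, a k * conj (a l) * lm w z k l).re
      = (levi W (φ z) (fderiv ℂ φ z a) (fderiv ℂ φ z a)).re := by
    intro a
    rw [← h.compat z hz a a, levi_eq_sum hwz]
    rfl
  have hFN : ∀ a : Fin n → ℂ, (∑ k, ∑ l, a k * conj (a l) * lm w z k l).re
      ≤ M * c₁ * (∑ k, ∑ l, a k * conj (a l) * N k l).re := by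
    intro a
    rw [hFl, hNN]
    exact hlev _ hzK _
  by_cases hreg : ∃ m, rho w m z ≠ 0
  swap
  · have hl0 : lam w φ z = 0 := by
      by_contra hne
      exact hreg (rho_of_lam (hpsd z hz) hne)
    refine ⟨fun m hm => absurd ⟨m, hm⟩ hreg, ?_⟩
    rw [hl0]
    positivity
  -- the main estimate
  have key : ∀ m, rho w m z ≠ 0 → Kf w m z ≤ C₁ * n ^ 2 * (1 + M * c₁) ^ n * dj φ z ∧
      lam w φ z ≤ (1 + M * c₁) ^ n * dj φ z := by
    intro m hm
    have hzm : z ∈ Um w m U := ⟨hz, hm⟩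
    have hk := kf_of h.isOpen h.sw hpsd h.sing m
    have hadm := hk.adm_M hzm
    have hker := hk.ker z hzm
    -- differentiated kernel relation
    have hdu : ∀ k, DifferentiableAt ℝ (uu w m k) z := fun k =>
      diffAt_of hk.isOpen (hk.su k) hzm
    have hdLM : ∀ k l, DifferentiableAt ℝ (fun y => LM w y k l) z := fun k l =>
      diffAt_of h.isOpen (contDiffOn_LM h.isOpen h.sw k l) hz
    have hpb : ∀ i j, ∑ k, Mx (fun k => uu w m k) z k i * LM w z k j
        = -∑ k, uu w m k z * pb i (fun y => LM w y k j) z := by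
      intro i j
      have h0 : pb i (fun y => ∑ k, uu w m k y * LM w y k j) z = 0 := by
        have : (fun y => ∑ k, uu w m k y * LM w y k j) =ᶠ[𝓝 z] fun _ => (0 : ℂ) := by
          filter_upwards [hk.isOpen.mem_nhds hzm] with y hy
          exact hk.ker y hy j
        rw [pb_congr this]
        exact d01_const 0
      have h1 : pb i (fun y => ∑ k, uu w m k y * LM w y k j) z =
          ∑ k, (pb i (uu w m k) z * LM w z k j + uu w m k z * pb i (fun y => LM w y k j) z) := by
        have h2 := d01_sum (z := z) (a := e i) Finset.univ (fun k y => uu w m k y * LM w y k j)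
          (fun k _ => (hdu k).mul (hdLM k j))
        refine h2.trans (Finset.sum_congr rfl fun k _ => ?_)
        exact d01_mul (hdu k) (hdLM k j)
      rw [h1, Finset.sum_add_distrib] at h0
      exact eq_neg_of_add_eq_zero_left h0
    -- the kernel vector in the ambient space
    set u : E n := fun k => uu w m k z with hu
    have hlu : levi W (φ z) (fderiv ℂ φ z u) (fderiv ℂ φ z u) = 0 := by
      rw [← h.compat z hz u u, levi_eq_sum hwz, Finset.sum_comm]
      refine Finset.sum_eq_zero fun l _ => ?_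
      have h1 : ∑ k, u k * conj (u l) * LM w z k l = conj (u l) * ∑ k, u k * LM w z k l := by
        rw [Finset.mul_sum]
        exact Finset.sum_congr rfl fun k _ => by ring
      rw [h1, hker l, mul_zero]
    have hamb : ∀ q, ∑ p, fderiv ℂ φ z u p * LM W (φ z) p q = 0 := fun q =>
      kbd_null hB hW (h.maps z hz) (hpsh _ (h.maps z hz)) hlu q
    have hcompLM : ∀ y ∈ U, ∀ k l, LM w y k l = LM (fun x => W (φ x)) y k l := by
      intro y hy k l
      rw [LM_comp' h.isOpen h.hol hB hW hy (h.maps y hy) k l]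
      have h1 : LM w y k l = levi w y (e k) (e l) := rfl
      rw [h1, h.compat y hy (e k) (e l),
        levi_eq_sum (hW.contDiffAt (hB.mem_nhds (h.maps y hy)))]
      rfl
    have hS1 : ∀ j l, ∑ k, Mx (fun k => uu w m k) z k j * lm w z k l
        = -∑ p, ∑ q, ∑ s, fderiv ℂ φ z u p * conj (jm φ z q l) * conj (jm φ z s j)
          * pb s (fun x => LM W x p q) (φ z) := by
      intro j l
      have h1 := hpb j l
      have h2 : ∀ k, pb j (fun y => LM w y k l) z
          = pb j (fun y => LM (fun x => W (φ x)) y k l) z := by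
        intro k
        refine pb_congr ?_
        filter_upwards [h.isOpen.mem_nhds hz] with y hy
        exact hcompLM y hy k l
      have h3 := S_comp h.isOpen h.hol hB hW h.maps hz hamb j l
      rw [← h3]
      refine h1.trans ?_
      congr 1
      exact Finset.sum_congr rfl fun k _ => by rw [h2 k]
    have hS : ∀ a b : Fin n → ℂ,
        ‖∑ j, ∑ l, conj (b j) * conj (a l) * (∑ k, Mx (fun k => uu w m k) z k j * lm w z k l)‖ ^ 2
          ≤ C₁ * (∑ k, ∑ l, u k * conj (u l) * N k l).re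
            * (∑ k, ∑ l, b k * conj (b l) * N k l).re
            * (∑ k, ∑ l, a k * conj (a l) * lm w z k l).re := by
      intro a b
      have h1 : ∑ j, ∑ l, conj (b j) * conj (a l)
            * (∑ k, Mx (fun k => uu w m k) z k j * lm w z k l)
          = -∑ p, ∑ q, ∑ s, fderiv ℂ φ z u p * conj (fderiv ℂ φ z a q)
            * conj (fderiv ℂ φ z b s) * pb s (fun x => LM W x p q) (φ z) := by
        have h2 := kbd_sum (fun j => conj (b j)) (fun l => conj (a l)) (fderiv ℂ φ z u)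
          (fun q l => conj (jm φ z q l)) (fun p q s => pb s (fun x => LM W x p q) (φ z))
        have h3 : ∀ (v : E n) (q : Fin M), conj (fderiv ℂ φ z v q)
            = ∑ l, conj (jm φ z q l) * conj (v l) := by
          intro v q
          rw [jm_apply, map_sum]
          exact Finset.sum_congr rfl fun l _ => map_mul _ _ _
        simp only [h3]
        rw [← h2, ← Finset.sum_neg_distrib]
        refine Finset.sum_congr rfl fun j _ => ?_
        rw [← Finset.sum_neg_distrib]
        refine Finset.sum_congr rfl fun l _ => ?_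
        rw [hS1 j l]
        ring
      rw [h1, norm_neg, hNN, hNN, hFl]
      exact htrk (φ z) hzK (fderiv ℂ φ z u) hamb (fderiv ℂ φ z a) (fderiv ℂ φ z b)
    have hone : u m = 1 := hk.one z hzm
    obtain ⟨r1, r2⟩ := alg hM0 hC₁ (hpsd z hz) (h.sing z hz) hN hm hone hker hadm hFN hS
    rw [hdN] at r1 r2
    refine ⟨?_, ?_⟩
    · rw [Lgk_Kf h.isOpen h.sw hpsd h.sing hzm]
      exact r1
    · exact r2
  refine ⟨fun m hm => ?_, ?_⟩
  · refine (key m hm).1.trans ?_
    have h1 : 0 ≤ (1 + M * c₁) ^ n * dj φ z := by positivity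
    linarith [add_mul (C₁ * n ^ 2 * (1 + M * c₁) ^ n) ((1 + M * c₁) ^ n) (dj φ z)]
  · obtain ⟨m, hm⟩ := hreg
    refine (key m hm).2.trans ?_
    have h1 : 0 ≤ C₁ * n ^ 2 * (1 + M * c₁) ^ n * dj φ z := by positivity
    linarith [add_mul (C₁ * n ^ 2 * (1 + M * c₁) ^ n) ((1 + M * c₁) ^ n) (dj φ z)]

end Pool.Agent.CYN
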