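import Pool.Agent.CYN.Hol
import Pool.Agent.CYF.Lgk
import Pool.Agent.CYF.Inv
import Pool.Agent.CYF.Cut

/-!
CYN module Lam (size 5): the weight `lam w φ = Re ∑_kl ad_lk ∑_a ∂_k φ_a conj (∂_l φ_a)`.
PROOFS. `F = lm w z` psd with `det F = 0`. `lam_nonneg`: interchange the sums, `quad_nonneg` (CYF/Lpx.lean) for every `a`.
`lam_eq`: `ad w z l k = ρ u_k conj u_l` (`adj_rank`), `ρ` real (`adj_diag_real`). `lam_pos`: `u ≠ 0` (`u_m = 1`), so
`J u = fderiv ℂ φ z u ≠ 0` (`jm_apply`). `rho_of_lam`: if all `rho w m z = 0` then `ad w z = 0` (`adj_diag`) and `lam = 0`.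
`contDiffOn_lam`: `contDiffOn_ad`, `contDiffOn_jm` (restrict_scalars), `contDiffOn_conj`. `lam_chg`:
`jm (ψ ∘ γ) z = jm ψ (γ z) * TT γ z` (chain rule) and `Cc.ad_chg`. `lam_comp_le`: if `ad w z = 0` both sides are `0`; otherwise
`lam_eq` and Cauchy-Schwarz: `J_(g ∘ φ) u = g' (J_φ u)`. `lp_nn_comp`: `LM_comp'` with `W = nn c` and `LM_nn` (CYF/Cut.lean).
`gr_nn_comp`: `∂_k (nn c ∘ φ) = ∑_p J_pk conj (φ_p - c_p)` (`pk_comp'`, `pk_nn`); if `ad = 0` trivial, otherwise `adj_rank`: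
`gr = ρ |∑_p (J u)_p conj (φ_p - c_p)|²`, Cauchy-Schwarz.
`lp_log_lam`: on `Um w m U` (open, `kf_of`) put `f_a = ∑_k jm φ · a k * uu w m k`; near `z`
`log lam = log ρ.re + log s`, `s = ∑_a ‖f_a‖²` (`lam_eq`, `lam_pos`, positivity is an open condition), `lp (log ρ.re) = Kf`
(`lp_log_rho`). `D̄ f_a = 0` on `Um` (`Db_mul`, `diff_jm`, `KF.Db_u`), so `D̄ (D f_a) = 0` (`KF.comm`, `Db_congr`), `D conj f_a = 0`.
`D log s = (∑ D f_a conj f_a) / s`, `D̄ D log s = (s ∑ |D f_a|² - |∑ D f_a conj f_a|²) / s² ≥ 0`; `Lgk_lp` (CYF/Lgk.lean).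
-/

open scoped ContDiff ComplexConjugate Topology ComplexOrder
open Complex Matrix

namespace Pool.Agent.CYN

open Pool.Agent.CYF

variable {n M : ℕ} {φ : E n → E M} {z : E n} {U : Set (E n)} {w : E n → ℝ}

/-- `λ = Re ∑ ad_lk ∑_a ∂_k φ_a conj (∂_l φ_a)` -/
noncomputable def lam (w : E n → ℝ) {M : ℕ} (φ : E n → E M) (z : E n) : ℝ :=
  (∑ k, ∑ l, ad w z l k * ∑ a, jm φ z a k * conj (jm φ z a l)).re

private theorem Lam_sum (w : E n → ℝ) (φ : E n → E M) (z : E n) : lam w φ z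
    = ∑ a, (∑ k, ∑ l, ad w z l k * (jm φ z a k * conj (jm φ z a l))).re := by
  unfold lam
  rw [← Complex.re_sum]
  congr 1
  rw [Finset.sum_comm]
  have h : ∀ k, ∑ a, ∑ l, ad w z l k * (jm φ z a k * conj (jm φ z a l))
      = ∑ l, ad w z l k * ∑ a, jm φ z a k * conj (jm φ z a l) := by
    intro k
    rw [Finset.sum_comm]
    refine Finset.sum_congr rfl fun l _ => ?_
    rw [Finset.mul_sum]
  conv_rhs => rw [Finset.sum_comm]
  rw [Finset.sum_comm]
  refine Finset.sum_congr rfl fun k _ => ?_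
  rw [h k]

private theorem Lam_quad (hF : (lm w z).PosSemidef) (hd : (lm w z).det = 0) {m : Fin n}
    (hm : rho w m z ≠ 0) (a b : Fin n → ℂ) :
    ∑ k, ∑ l, ad w z l k * (a k * conj (b l))
      = rho w m z * ((∑ k, a k * uu w m k z) * conj (∑ l, b l * uu w m l z)) := by
  rw [map_sum, Finset.sum_mul_sum, Finset.mul_sum]
  refine Finset.sum_congr rfl fun k _ => ?_
  rw [Finset.mul_sum]
  refine Finset.sum_congr rfl fun l _ => ?_
  have h := adj_rank hF hd (m := m) hm k l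
  have h1 : ad w z l k = rho w m z * uu w m k z * conj (uu w m l z) := h
  rw [h1, map_mul]
  ring

private theorem Lam_quad_re (hF : (lm w z).PosSemidef) (hd : (lm w z).det = 0) {m : Fin n}
    (hm : rho w m z ≠ 0) (a : Fin n → ℂ) :
    (∑ k, ∑ l, ad w z l k * (a k * conj (a l))).re
      = (rho w m z).re * ‖∑ k, a k * uu w m k z‖ ^ 2 := by
  rw [Lam_quad hF hd hm, Complex.mul_conj, Complex.normSq_eq_norm_sq, Complex.re_mul_ofReal]

private theorem Lam_rho (hF : (lm w z).PosSemidef) {m : Fin n} (hm : rho w m z ≠ 0) :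
    0 < (rho w m z).re := by
  have h := adj_diag_real hF m
  refine lt_of_le_of_ne h.2 fun h0 => hm ?_
  exact Complex.ext h0.symm h.1

private theorem Lam_ad (hF : (lm w z).PosSemidef) (h : ad w z ≠ 0) : ∃ m, rho w m z ≠ 0 :=
  adj_diag hF h

private theorem Lam_cs {κ : Type*} (s : Finset κ) (a b : κ → ℂ) :
    ‖∑ k ∈ s, a k * b k‖ ^ 2 ≤ (∑ k ∈ s, ‖a k‖ ^ 2) * ∑ k ∈ s, ‖b k‖ ^ 2 := by
  have h5 : ‖∑ k ∈ s, a k * b k‖ ≤ ∑ k ∈ s, ‖a k‖ * ‖b k‖ := by
    refine (norm_sum_le _ _).trans (le_of_eq ?_)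
    exact Finset.sum_congr rfl fun k _ => norm_mul _ _
  exact (pow_le_pow_left₀ (norm_nonneg _) h5 2).trans (Finset.sum_mul_sq_le_sq_mul_sq _ _ _)

theorem lam_nonneg (hF : (lm w z).PosSemidef) : 0 ≤ lam w φ z := by
  rw [Lam_sum]
  exact Finset.sum_nonneg fun a _ => quad_nonneg hF fun k => jm φ z a k

theorem lam_eq (hF : (lm w z).PosSemidef) (hd : (lm w z).det = 0) {m : Fin n}
    (hm : rho w m z ≠ 0) :
    lam w φ z = (rho w m z).re * ∑ a, ‖∑ k, jm φ z a k * uu w m k z‖ ^ 2 := by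
  rw [Lam_sum, Finset.mul_sum]
  exact Finset.sum_congr rfl fun a _ => Lam_quad_re hF hd hm fun k => jm φ z a k

theorem lam_pos (hF : (lm w z).PosSemidef) (hd : (lm w z).det = 0) {m : Fin n}
    (hm : rho w m z ≠ 0) (hi : Function.Injective (fderiv ℂ φ z)) : 0 < lam w φ z := by
  rw [lam_eq hF hd hm]
  refine mul_pos (Lam_rho hF hm) ?_
  have h0 : 0 ≤ ∑ a, ‖∑ k, jm φ z a k * uu w m k z‖ ^ 2 := Finset.sum_nonneg fun _ _ => sq_nonneg _
  refine lt_of_le_of_ne h0 fun h1 => ?_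
  have h2 := (Finset.sum_eq_zero_iff_of_nonneg (fun a _ => sq_nonneg _)).1 h1.symm
  have h3 : fderiv ℂ φ z (fun k => uu w m k z) = fderiv ℂ φ z 0 := by
    rw [map_zero]
    funext a
    rw [jm_apply]
    have h4 := h2 a (Finset.mem_univ a)
    have h5 : ‖∑ k, jm φ z a k * uu w m k z‖ = 0 := pow_eq_zero_iff (two_ne_zero) |>.1 h4
    exact norm_eq_zero.1 h5
  have h6 := congrFun (hi h3) m
  have h7 : uu w m m z = 1 := div_self hm
  rw [h7] at h6
  exact one_ne_zero h6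

theorem rho_of_lam (hF : (lm w z).PosSemidef) (h : lam w φ z ≠ 0) : ∃ m, rho w m z ≠ 0 := by
  refine Lam_ad hF fun h0 => h ?_
  unfold lam
  rw [h0]
  simp

theorem contDiffOn_lam (hU : IsOpen U) (hw : ContDiffOn ℝ ∞ w U) (hφ : ContDiffOn ℂ ∞ φ U) :
    ContDiffOn ℝ ∞ (lam w φ) U := by
  have hj : ∀ a k, ContDiffOn ℝ ∞ (fun y => jm φ y a k) U := fun a k =>
    (contDiffOn_jm hU hφ a k).restrict_scalars ℝ
  have h : ContDiffOn ℝ ∞ (fun y => ∑ k, ∑ l, ad w y l k * ∑ a, jm φ y a k * conj (jm φ y a l)) U :=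
    ContDiffOn.sum fun k _ => ContDiffOn.sum fun l _ => (contDiffOn_ad hU hw l k).mul
      (ContDiffOn.sum fun a _ => (hj a k).mul (contDiffOn_conj (hj a l)))
  exact Complex.reCLM.contDiff.comp_contDiffOn h

private theorem Lam_form (A : Matrix (Fin n) (Fin n) ℂ) (a b : Fin n → ℂ) :
    ∑ k, ∑ l, A l k * (a k * conj (b l)) = star b ⬝ᵥ (A *ᵥ a) := by
  rw [Finset.sum_comm]
  simp only [dotProduct, Matrix.mulVec, Finset.mul_sum, Pi.star_apply]
  refine Finset.sum_congr rfl fun l _ => Finset.sum_congr rfl fun k _ => ?_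
  have h : star (b l) = conj (b l) := rfl
  rw [h]
  ring

private theorem Lam_jm_comp {N : ℕ} {γ : E n → E N} {ψ : E N → E M} (hγ : DifferentiableAt ℂ γ z)
    (hψ : DifferentiableAt ℂ ψ (γ z)) (a : Fin M) (k : Fin n) :
    jm (fun y => ψ (γ y)) z a k = ∑ p, jm ψ (γ z) a p * jm γ z p k := by
  have h : HasFDerivAt (fun y => ψ (γ y)) ((fderiv ℂ ψ (γ z)).comp (fderiv ℂ γ z)) z :=
    hψ.hasFDerivAt.comp z hγ.hasFDerivAt
  have h1 : jm (fun y => ψ (γ y)) z a k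
      = fderiv ℂ ψ (γ z) (fderiv ℂ γ z (Pi.single k 1)) a := by
    unfold jm
    rw [Matrix.of_apply, h.fderiv]
    rfl
  rw [h1, jm_apply]
  rfl

theorem lam_chg {v : E n → ℝ} {O V : Set (E n)} {γ : E n → E n} (h : Cc w v O V γ) (hz : z ∈ O)
    {ψ : E n → E M} (hψ : DifferentiableAt ℂ ψ (γ z)) :
    lam w (fun y => ψ (γ y)) z = lam v ψ (γ z) := by
  have hγ : DifferentiableAt ℂ γ z := diff_of_hol h.isOpen h.hol hz
  rw [Lam_sum, Lam_sum]
  refine Finset.sum_congr rfl fun a _ => ?_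
  congr 1
  have h1 : ∀ k, jm (fun y => ψ (γ y)) z a k
      = ((Matrix.of (TT γ z))ᵀ *ᵥ (fun p => jm ψ (γ z) a p)) k := by
    intro k
    rw [Lam_jm_comp hγ hψ]
    simp only [Matrix.mulVec, dotProduct, Matrix.transpose_apply, Matrix.of_apply]
    refine Finset.sum_congr rfl fun p _ => ?_
    have h2 : jm γ z p k = TT γ z p k := rfl
    rw [h2, mul_comm]
  have h3 : (fun k => jm (fun y => ψ (γ y)) z a k)
      = (Matrix.of (TT γ z))ᵀ *ᵥ (fun p => jm ψ (γ z) a p) := funext h1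
  have e1 := Lam_form (ad w z) (fun k => jm (fun y => ψ (γ y)) z a k)
    (fun k => jm (fun y => ψ (γ y)) z a k)
  have e2 := Lam_form (ad v (γ z)) (fun k => jm ψ (γ z) a k) (fun k => jm ψ (γ z) a k)
  rw [e1, e2, h3, h.ad_chg hz, ← Matrix.mulVec_mulVec, ← Matrix.mulVec_mulVec,
    Matrix.dotProduct_mulVec _ (cj (Matrix.of (TT γ z)))]
  congr 1
  funext l
  simp only [Pi.star_apply, Matrix.mulVec, Matrix.vecMul, dotProduct, Matrix.transpose_apply,
    Matrix.of_apply, cj_apply, star_sum, star_mul']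
  refine Finset.sum_congr rfl fun p _ => ?_
  rw [mul_comm]
  rfl

theorem lam_comp_le (hF : (lm w z).PosSemidef) (hd : (lm w z).det = 0)
    (hφ : DifferentiableAt ℂ φ z) {M' : ℕ} {g : E M → E M'} (hg : DifferentiableAt ℂ g (φ z)) :
    lam w (fun y => g (φ y)) z ≤ (∑ a, ∑ b, ‖jm g (φ z) a b‖ ^ 2) * lam w φ z := by
  by_cases h0 : ad w z = 0
  · have h1 : lam w (fun y => g (φ y)) z = 0 := by
      unfold lam
      rw [h0]
      simp
    have h2 : lam w φ z = 0 := by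
      unfold lam
      rw [h0]
      simp
    rw [h1, h2, mul_zero]
  · obtain ⟨m, hm⟩ := Lam_ad hF h0
    rw [lam_eq hF hd hm, lam_eq hF hd hm]
    have hr := Lam_rho hF hm
    have h1 : ∀ b, ∑ k, jm (fun y => g (φ y)) z b k * uu w m k z
        = ∑ a, jm g (φ z) b a * ∑ k, jm φ z a k * uu w m k z := by
      intro b
      simp only [Lam_jm_comp hφ hg, Finset.sum_mul, Finset.mul_sum]
      rw [Finset.sum_comm]
      refine Finset.sum_congr rfl fun a _ => Finset.sum_congr rfl fun k _ => ?_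
      ring
    have h2 : ∑ b, ‖∑ k, jm (fun y => g (φ y)) z b k * uu w m k z‖ ^ 2
        ≤ (∑ a, ∑ b, ‖jm g (φ z) a b‖ ^ 2) * ∑ a, ‖∑ k, jm φ z a k * uu w m k z‖ ^ 2 := by
      rw [Finset.sum_mul]
      refine Finset.sum_le_sum fun b _ => ?_
      rw [h1 b]
      exact Lam_cs _ _ _
    calc (rho w m z).re * ∑ b, ‖∑ k, jm (fun y => g (φ y)) z b k * uu w m k z‖ ^ 2
        ≤ (rho w m z).re * ((∑ a, ∑ b, ‖jm g (φ z) a b‖ ^ 2)
          * ∑ a, ‖∑ k, jm φ z a k * uu w m k z‖ ^ 2) := mul_le_mul_of_nonneg_left h2 hr.le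
      _ = _ := by ring

theorem lp_nn_comp (hU : IsOpen U) (hφ : ContDiffOn ℂ ∞ φ U) (hz : z ∈ U) (c : E M) :
    lp w (fun y => nn c (φ y)) z = lam w φ z := by
  unfold Pool.Agent.CYF.lp lam
  congr 1
  refine Finset.sum_congr rfl fun k _ => Finset.sum_congr rfl fun l _ => ?_
  rw [LM_comp' hU hφ isOpen_univ (contDiff_nn c).contDiffOn hz (Set.mem_univ _)]
  congr 1
  refine Finset.sum_congr rfl fun p _ => ?_
  rw [Finset.sum_eq_single p]
  · rw [LM_nn, if_pos rfl, mul_one]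
  · intro q _ hq
    rw [LM_nn, if_neg (Ne.symm hq), mul_zero]
  · intro h
    exact absurd (Finset.mem_univ p) h

theorem gr_nn_comp (hF : (lm w z).PosSemidef) (hd : (lm w z).det = 0)
    (hφ : DifferentiableAt ℂ φ z) (c : E M) :
    gr w (fun y => nn c (φ y)) z ≤ lam w φ z * nn c (φ z) := by
  have hnn : DifferentiableAt ℝ (cx (nn c)) (φ z) :=
    ((contDiffAt_cx (contDiff_nn c).contDiffAt)).differentiableAt (by simp)
  have h1 : ∀ k, pk k (cx (fun y => nn c (φ y))) z = ∑ p, jm φ z p k * conj (φ z p - c p) := by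
    intro k
    have h2 := pk_comp' hφ hnn k
    have h3 : pk k (cx (fun y => nn c (φ y))) z = pk k (fun y => cx (nn c) (φ y)) z := rfl
    rw [h3, h2]
    refine Finset.sum_congr rfl fun p _ => ?_
    rw [pk_nn]
  by_cases h0 : ad w z = 0
  · have h4 : gr w (fun y => nn c (φ y)) z = 0 := by
      unfold gr
      rw [h0]
      simp
    have h2 : lam w φ z = 0 := by
      unfold lam
      rw [h0]
      simp
    rw [h4, h2, zero_mul]
  · obtain ⟨m, hm⟩ := Lam_ad hF h0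
    have hr := Lam_rho hF hm
    have h4 : gr w (fun y => nn c (φ y)) z
        = (rho w m z).re * ‖∑ k, pk k (cx (fun y => nn c (φ y))) z * uu w m k z‖ ^ 2 :=
      Lam_quad_re hF hd hm fun k => pk k (cx (fun y => nn c (φ y))) z
    have h5 : ∑ k, pk k (cx (fun y => nn c (φ y))) z * uu w m k z
        = ∑ p, (∑ k, jm φ z p k * uu w m k z) * conj (φ z p - c p) := by
      simp only [h1, Finset.sum_mul]
      rw [Finset.sum_comm]
      refine Finset.sum_congr rfl fun p _ => Finset.sum_congr rfl fun k _ => ?_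
      ring
    have h6 : ∑ p, ‖conj (φ z p - c p)‖ ^ 2 = nn c (φ z) := by
      unfold nn
      refine Finset.sum_congr rfl fun p _ => ?_
      rw [RCLike.norm_conj]
    rw [h4, h5, lam_eq hF hd hm, mul_assoc]
    refine mul_le_mul_of_nonneg_left ?_ hr.le
    have h7 := Lam_cs Finset.univ (fun p => ∑ k, jm φ z p k * uu w m k z)
      (fun p => conj (φ z p - c p))
    rw [h6] at h7
    exact h7

private noncomputable def Lam_f (w : E n → ℝ) (m : Fin n) (φ : E n → E M) (a : Fin M) (y : E n) : ℂ :=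
  ∑ k, jm φ y a k * uu w m k y

private noncomputable def Lam_s (w : E n → ℝ) (m : Fin n) (φ : E n → E M) (y : E n) : ℝ :=
  ∑ a, ‖Lam_f w m φ a y‖ ^ 2

private theorem Lam_sf (hU : IsOpen U) (hw : ContDiffOn ℝ ∞ w U)
    (hp : ∀ z ∈ U, (lm w z).PosSemidef) (hd : ∀ z ∈ U, (lm w z).det = 0)
    (hφ : ContDiffOn ℂ ∞ φ U) (m : Fin n) (a : Fin M) :
    ContDiffOn ℝ ∞ (Lam_f w m φ a) (Um w m U) := by
  have h := kf_of hU hw hp hd m
  refine ContDiffOn.sum fun k _ => ?_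
  exact (((contDiffOn_jm hU hφ a k).restrict_scalars ℝ).mono fun y hy => hy.1).mul (h.su k)

private theorem Lam_Db (hU : IsOpen U) (hw : ContDiffOn ℝ ∞ w U)
    (hp : ∀ z ∈ U, (lm w z).PosSemidef) (hd : ∀ z ∈ U, (lm w z).det = 0)
    (hφ : ContDiffOn ℂ ∞ φ U) {m : Fin n} (hz : z ∈ Um w m U) (a : Fin M) :
    Db (fun k => uu w m k) (Lam_f w m φ a) z = 0 := by
  have h := kf_of hU hw hp hd m
  have dj : ∀ k, DifferentiableAt ℂ (fun y => jm φ y a k) z := fun k => diff_jm hU hφ hz.1 a k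
  have du : ∀ k, DifferentiableAt ℝ (uu w m k) z := fun k => diffAt_of h.isOpen (h.su k) hz
  have h1 := Db_sum (u := fun k => uu w m k) (z := z) Finset.univ
    (fun k y => jm φ y a k * uu w m k y)
    (fun k _ => ((dj k).restrictScalars ℝ).mul (du k))
  refine h1.trans (Finset.sum_eq_zero fun k _ => ?_)
  rw [Db_mul ((dj k).restrictScalars ℝ) (du k), h.Db_u hz k, mul_zero, add_zero, Db_eq,
    d01_of_diff (dj k), zero_mul]

private theorem Lam_DbDd (hU : IsOpen U) (hw : ContDiffOn ℝ ∞ w U)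
    (hp : ∀ z ∈ U, (lm w z).PosSemidef) (hd : ∀ z ∈ U, (lm w z).det = 0)
    (hφ : ContDiffOn ℂ ∞ φ U) {m : Fin n} (hz : z ∈ Um w m U) (a : Fin M) :
    Db (fun k => uu w m k) (Dd (fun k => uu w m k) (Lam_f w m φ a)) z = 0 := by
  have h := kf_of hU hw hp hd m
  rw [h.comm (Lam_sf hU hw hp hd hφ m a) hz]
  have h1 : Db (fun k => uu w m k) (Lam_f w m φ a) =ᶠ[𝓝 z] fun _ => (0 : ℂ) := by
    filter_upwards [h.isOpen.mem_nhds hz] with y hy
    exact Lam_Db hU hw hp hd hφ hy a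
  rw [Dd_congr h1, Dd_const]

private theorem Lam_cxs (w : E n → ℝ) (m : Fin n) (φ : E n → E M) :
    cx (Lam_s w m φ) = fun y => ∑ a, Lam_f w m φ a y * conj (Lam_f w m φ a y) := by
  funext y
  unfold cx Lam_s
  push_cast
  refine Finset.sum_congr rfl fun a _ => ?_
  rw [Complex.mul_conj, Complex.normSq_eq_norm_sq]
  push_cast
  rfl

/-- `D s = ∑ D f_a conj f_a` -/
private theorem Lam_Dds (hU : IsOpen U) (hw : ContDiffOn ℝ ∞ w U)
    (hp : ∀ z ∈ U, (lm w z).PosSemidef) (hd : ∀ z ∈ U, (lm w z).det = 0)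
    (hφ : ContDiffOn ℂ ∞ φ U) {m : Fin n} (hz : z ∈ Um w m U) :
    Dd (fun k => uu w m k) (cx (Lam_s w m φ)) z
      = ∑ a, Dd (fun k => uu w m k) (Lam_f w m φ a) z * conj (Lam_f w m φ a z) := by
  have h := kf_of hU hw hp hd m
  have df : ∀ a, DifferentiableAt ℝ (Lam_f w m φ a) z := fun a =>
    diffAt_of h.isOpen (Lam_sf hU hw hp hd hφ m a) hz
  rw [Lam_cxs]
  have h1 := Dd_sum (u := fun k => uu w m k) (z := z) Finset.univ
    (fun a y => Lam_f w m φ a y * conj (Lam_f w m φ a y))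
    (fun a _ => (df a).mul (conjd (df a)))
  refine h1.trans (Finset.sum_congr rfl fun a _ => ?_)
  rw [Dd_mul (df a) (conjd (df a)), Dd_conj (df a), Lam_Db hU hw hp hd hφ hz a, map_zero, mul_zero,
    add_zero]

/-- `D̄ s = conj (D s)` -/
private theorem Lam_Dbs (hU : IsOpen U) (hw : ContDiffOn ℝ ∞ w U)
    (hp : ∀ z ∈ U, (lm w z).PosSemidef) (hd : ∀ z ∈ U, (lm w z).det = 0)
    (hφ : ContDiffOn ℂ ∞ φ U) {m : Fin n} (hz : z ∈ Um w m U) :
    Db (fun k => uu w m k) (cx (Lam_s w m φ)) z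
      = conj (∑ a, Dd (fun k => uu w m k) (Lam_f w m φ a) z * conj (Lam_f w m φ a z)) := by
  have h := kf_of hU hw hp hd m
  have df : ∀ a, DifferentiableAt ℝ (Lam_f w m φ a) z := fun a =>
    diffAt_of h.isOpen (Lam_sf hU hw hp hd hφ m a) hz
  have ds : DifferentiableAt ℝ (cx (Lam_s w m φ)) z := by
    rw [Lam_cxs]
    exact DifferentiableAt.fun_sum fun a _ => (df a).mul (conjd (df a))
  have h1 := Db_conj (u := fun k => uu w m k) ds
  have h2 : (fun y => conj (cx (Lam_s w m φ) y)) = cx (Lam_s w m φ) := by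
    funext y
    exact conj_cx _ y
  rw [h2] at h1
  rw [h1, Lam_Dds hU hw hp hd hφ hz]

private theorem Lam_DbP (hU : IsOpen U) (hw : ContDiffOn ℝ ∞ w U)
    (hp : ∀ z ∈ U, (lm w z).PosSemidef) (hd : ∀ z ∈ U, (lm w z).det = 0)
    (hφ : ContDiffOn ℂ ∞ φ U) {m : Fin n} (hz : z ∈ Um w m U) :
    Db (fun k => uu w m k) (fun y => ∑ a, Dd (fun k => uu w m k) (Lam_f w m φ a) y
      * conj (Lam_f w m φ a y)) z
      = ((∑ a, ‖Dd (fun k => uu w m k) (Lam_f w m φ a) z‖ ^ 2 : ℝ) : ℂ) := by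
  have h := kf_of hU hw hp hd m
  have df : ∀ a, DifferentiableAt ℝ (Lam_f w m φ a) z := fun a =>
    diffAt_of h.isOpen (Lam_sf hU hw hp hd hφ m a) hz
  have dD : ∀ a, DifferentiableAt ℝ (Dd (fun k => uu w m k) (Lam_f w m φ a)) z := fun a =>
    diffAt_of h.isOpen (contDiffOn_Dd h.isOpen h.su (Lam_sf hU hw hp hd hφ m a)) hz
  have h1 := Db_sum (u := fun k => uu w m k) (z := z) Finset.univ
    (fun a y => Dd (fun k => uu w m k) (Lam_f w m φ a) y * conj (Lam_f w m φ a y))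
    (fun a _ => (dD a).mul (conjd (df a)))
  rw [Complex.ofReal_sum]
  refine h1.trans (Finset.sum_congr rfl fun a _ => ?_)
  rw [Db_mul (dD a) (conjd (df a)), Db_conj (df a), Lam_DbDd hU hw hp hd hφ hz a, zero_mul,
    zero_add, Complex.mul_conj, Complex.normSq_eq_norm_sq]

private theorem Lam_lps (hU : IsOpen U) (hw : ContDiffOn ℝ ∞ w U)
    (hp : ∀ z ∈ U, (lm w z).PosSemidef) (hd : ∀ z ∈ U, (lm w z).det = 0)
    (hφ : ContDiffOn ℂ ∞ φ U) {m : Fin n} (hz : z ∈ Um w m U) {V : Set (E n)} (hV : IsOpen V)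
    (hVU : V ⊆ Um w m U) (hzV : z ∈ V) (hpos : ∀ y ∈ V, 0 < Lam_s w m φ y)
    (hs : ContDiffOn ℝ ∞ (Lam_s w m φ) V) :
    0 ≤ lp w (fun y => Real.log (Lam_s w m φ y)) z := by
  have h := kf_of hU hw hp hd m
  have hlog : ContDiffOn ℝ ∞ (fun y => Real.log (Lam_s w m φ y)) V :=
    hs.log fun y hy => (hpos y hy).ne'
  rw [(Lgk_lp hU hw hp hd hz hV hVU hzV hlog).1]
  refine mul_nonneg (Lgk_rho hp hz).2.le ?_
  have df : ∀ a, DifferentiableAt ℝ (Lam_f w m φ a) z := fun a =>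
    diffAt_of h.isOpen (Lam_sf hU hw hp hd hφ m a) hz
  have dD : ∀ a, DifferentiableAt ℝ (Dd (fun k => uu w m k) (Lam_f w m φ a)) z := fun a =>
    diffAt_of h.isOpen (contDiffOn_Dd h.isOpen h.su (Lam_sf hU hw hp hd hφ m a)) hz
  have hcg : Dd (fun k => uu w m k) (cx (fun y => Real.log (Lam_s w m φ y))) =ᶠ[𝓝 z]
      fun y => (cx (Lam_s w m φ) y)⁻¹ * ∑ a, Dd (fun k => uu w m k) (Lam_f w m φ a) y
        * conj (Lam_f w m φ a y) := by
    filter_upwards [hV.mem_nhds hzV] with y hy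
    rw [Lgk_Dd_log (Lgk_diffAt_real hV hs hy) (hpos y hy), Lam_Dds hU hw hp hd hφ (hVU hy)]
  have dsR : DifferentiableAt ℝ (Lam_s w m φ) z := Lgk_diffAt_real hV hs hzV
  have ds : DifferentiableAt ℝ (cx (Lam_s w m φ)) z :=
    (Complex.ofRealCLM.differentiableAt).comp z dsR
  have hsz := hpos z hzV
  have hne : cx (Lam_s w m φ) z ≠ 0 := by
    unfold cx
    exact_mod_cast hsz.ne'
  have dsi : DifferentiableAt ℝ (fun y => (cx (Lam_s w m φ) y)⁻¹) z := ds.inv hne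
  have dP : DifferentiableAt ℝ (fun y => ∑ a, Dd (fun k => uu w m k) (Lam_f w m φ a) y
      * conj (Lam_f w m φ a y)) z :=
    DifferentiableAt.fun_sum fun a _ => (dD a).mul (conjd (df a))
  have e3 : Db (fun k => uu w m k) (fun y => (cx (Lam_s w m φ) y)⁻¹) z
      = -((cx (Lam_s w m φ) z)⁻¹ * (cx (Lam_s w m φ) z)⁻¹)
        * Db (fun k => uu w m k) (cx (Lam_s w m φ)) z := by
    have h1 : Db (fun k => uu w m k) (fun y => cx (Lam_s w m φ) y * (cx (Lam_s w m φ) y)⁻¹) z = 0 := by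
      have : (fun y => cx (Lam_s w m φ) y * (cx (Lam_s w m φ) y)⁻¹) =ᶠ[𝓝 z] fun _ => (1 : ℂ) := by
        filter_upwards [hV.mem_nhds hzV] with y hy
        apply mul_inv_cancel₀
        unfold cx
        exact_mod_cast (hpos y hy).ne'
      rw [Db_congr this, Db_const]
    rw [Db_mul ds dsi] at h1
    have h2 : cx (Lam_s w m φ) z * Db (fun k => uu w m k) (fun y => (cx (Lam_s w m φ) y)⁻¹) z
        = -(Db (fun k => uu w m k) (cx (Lam_s w m φ)) z * (cx (Lam_s w m φ) z)⁻¹) := by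
      linear_combination h1
    have h3 : Db (fun k => uu w m k) (fun y => (cx (Lam_s w m φ) y)⁻¹) z
        = (cx (Lam_s w m φ) z)⁻¹
          * (cx (Lam_s w m φ) z * Db (fun k => uu w m k) (fun y => (cx (Lam_s w m φ) y)⁻¹) z) := by
      rw [← mul_assoc, inv_mul_cancel₀ hne, one_mul]
    rw [h3, h2]
    ring
  rw [Db_congr hcg, Db_mul dsi dP, e3, Lam_Dbs hU hw hp hd hφ hz, Lam_DbP hU hw hp hd hφ hz]
  have hcs := Lam_cs Finset.univ (fun a => Dd (fun k => uu w m k) (Lam_f w m φ a) z)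
    (fun a => conj (Lam_f w m φ a z))
  have hss : ∑ a, ‖conj (Lam_f w m φ a z)‖ ^ 2 = Lam_s w m φ z := by
    unfold Lam_s
    refine Finset.sum_congr rfl fun a _ => ?_
    rw [RCLike.norm_conj]
  rw [hss] at hcs
  set P : ℂ := ∑ a, Dd (fun k => uu w m k) (Lam_f w m φ a) z * conj (Lam_f w m φ a z) with hP
  set G : ℝ := ∑ a, ‖Dd (fun k => uu w m k) (Lam_f w m φ a) z‖ ^ 2 with hG
  set s : ℝ := Lam_s w m φ z with hsd
  have hcx : cx (Lam_s w m φ) z = (s : ℂ) := rfl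
  rw [hcx]
  have e5 : -((s : ℂ)⁻¹ * (s : ℂ)⁻¹) * conj P * P + (s : ℂ)⁻¹ * (G : ℂ)
      = ((-(s⁻¹ * s⁻¹) * ‖P‖ ^ 2 + s⁻¹ * G : ℝ) : ℂ) := by
    have h1 : conj P * P = ((‖P‖ ^ 2 : ℝ) : ℂ) := by
      rw [mul_comm, Complex.mul_conj, Complex.normSq_eq_norm_sq]
    rw [mul_assoc (-((s : ℂ)⁻¹ * (s : ℂ)⁻¹)), h1]
    push_cast
    ring
  rw [e5, Complex.ofReal_re]
  have h6 : -(s⁻¹ * s⁻¹) * ‖P‖ ^ 2 + s⁻¹ * G = s⁻¹ * s⁻¹ * (G * s - ‖P‖ ^ 2) := by
    field_simp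
    ring
  rw [h6]
  have h7 : 0 < s⁻¹ := inv_pos.2 hsz
  have h8 : 0 ≤ G * s - ‖P‖ ^ 2 := by linarith
  positivity

theorem lp_log_lam (hU : IsOpen U) (hw : ContDiffOn ℝ ∞ w U)
    (hp : ∀ z ∈ U, (lm w z).PosSemidef) (hd : ∀ z ∈ U, (lm w z).det = 0)
    (hφ : ContDiffOn ℂ ∞ φ U) {m : Fin n} (hz : z ∈ Um w m U)
    (hi : Function.Injective (fderiv ℂ φ z)) :
    Kf w m z ≤ lp w (fun y => Real.log (lam w φ y)) z := by
  have h := kf_of hU hw hp hd m
  have hsm : ContDiffOn ℝ ∞ (Lam_s w m φ) (Um w m U) := by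
    refine ContDiffOn.sum fun a _ => ?_
    exact (Lam_sf hU hw hp hd hφ m a).norm_sq ℝ
  have hlm : ∀ y ∈ Um w m U, lam w φ y = (rho w m y).re * Lam_s w m φ y := fun y hy =>
    lam_eq (hp y hy.1) (hd y hy.1) hy.2
  have hsz : 0 < Lam_s w m φ z := by
    have h1 := lam_pos (hp z hz.1) (hd z hz.1) hz.2 hi
    rw [hlm z hz] at h1
    exact (pos_iff_pos_of_mul_pos h1).1 (Lgk_rho hp hz).2
  set V : Set (E n) := Um w m U ∩ (Lam_s w m φ) ⁻¹' Set.Ioi 0 with hVd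
  have hV : IsOpen V := hsm.continuousOn.isOpen_inter_preimage h.isOpen isOpen_Ioi
  have hzV : z ∈ V := ⟨hz, hsz⟩
  have hVU : V ⊆ Um w m U := Set.inter_subset_left
  have hpos : ∀ y ∈ V, 0 < Lam_s w m φ y := fun y hy => hy.2
  have hr : ContDiffOn ℝ ∞ (fun y => (rho w m y).re) V :=
    (contDiffOn_rho_re hU hw m).mono (fun y hy => hy.1.1)
  have sA : ContDiffOn ℝ ∞ (fun y => Real.log (rho w m y).re) V :=
    hr.log (fun y hy => (Lgk_rho hp (hVU hy)).2.ne')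
  have sB : ContDiffOn ℝ ∞ (fun y => Real.log (Lam_s w m φ y)) V :=
    (hsm.mono hVU).log (fun y hy => (hpos y hy).ne')
  have hN : V ∈ 𝓝 z := hV.mem_nhds hzV
  have e1 : (fun y => Real.log (lam w φ y)) =ᶠ[𝓝 z]
      fun y => Real.log (rho w m y).re + Real.log (Lam_s w m φ y) := by
    filter_upwards [hN] with y hy
    rw [hlm y (hVU hy), Real.log_mul (Lgk_rho hp (hVU hy)).2.ne' (hpos y hy).ne']
  rw [lp_congr e1, lp_add (sA.contDiffAt hN) (sB.contDiffAt hN), lp_log_rho hU hw hp hd hz]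
  have key := Lam_lps hU hw hp hd hφ hz hV hVU hzV hpos (hsm.mono hVU)
  linarith

end Pool.Agent.CYN
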