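import Pool.Agent.CYN.Kbd

/-!
CYN module Lib (size 3): charts and local embeddings of the space `A`.
PROOFS. `isOpen_D`, `isOpen_O`: `OpenPartialHomeomorph.isOpen_inter_preimage` for `(A.c i).symm` and the open sets `A.V k`,
`(A.c j).source`. `mem_D`: `A.cover`. `emb_of`: the fields of `A` and `η` (restricted to `A.D k i ⊆ (A.c i).target`).
`psd`: `emb_of`, `Emb.psd` for some `k` (`mem_D`). `cc_of`: `Cc` (CYF/Inv.lean) for `γ = A.c j ∘ (A.c i).symm`,
`O = A.O i j`, `V = (A.c j).target`: `hol`, `unit` (the matrix of `fderiv ℂ γ z` is `Matrix.of (TT γ z)`, as in `cc_of` of CYF/Geo.lean: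
`LinearMap.det_toLin'` or `LinearMap.det_toMatrix`), and `lev`: at `z ∈ O` take `k` with `(A.c i).symm z ∈ V k`; near `z`
`A.Z k i = A.Z k j ∘ γ` (`left_inv`), so `fderiv ℂ (A.Z k i) z a = fderiv ℂ (A.Z k j) (γ z) (fderiv ℂ γ z a)` (chain rule), and `η.compat`
for `i` and `j` gives `levi (η.w i) z a b = levi (η.w j) (γ z) (γ' a) (γ' b)`; then `levi_eq_sum`, `TT_apply` (or: with `a = e k`, `b = e l`
both sides are the Levi matrices; expand by `levi_eq_sum` only on the right).
-/

open scoped ContDiff ComplexConjugate Topology ComplexOrder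
open Complex Matrix

namespace Pool.Agent.CYN

open Pool.Agent.CYF

variable {n : ℕ} {X : Type*} [TopologicalSpace X] {ι κ : Type*}

/-- the embedding `k` in the chart `i` -/
noncomputable def Spc.Z (A : Spc (Fin n) X ι κ) (k : κ) (i : ι) : E n → E (A.dim k) := A.ζ k ∘ (A.c i).symm

/-- its domain -/
def Spc.D (A : Spc (Fin n) X ι κ) (k : κ) (i : ι) : Set (E n) :=
  (A.c i).target ∩ (A.c i).symm ⁻¹' A.V k

/-- the overlap of the charts `i` and `j` in the coordinates of `i` -/
def Spc.O (A : Spc (Fin n) X ι κ) (i j : ι) : Set (E n) :=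
  (A.c i).target ∩ (A.c i).symm ⁻¹' (A.c j).source

/-- the change of charts -/
noncomputable def Spc.γ (A : Spc (Fin n) X ι κ) (i j : ι) : E n → E n := A.c j ∘ (A.c i).symm

variable {A : Spc (Fin n) X ι κ}

theorem isOpen_D (k : κ) (i : ι) : IsOpen (A.D k i) :=
  (A.c i).symm.isOpen_inter_preimage (A.isOpen_V k)

theorem isOpen_O (i j : ι) : IsOpen (A.O i j) :=
  (A.c i).symm.isOpen_inter_preimage (A.c j).open_source

theorem mem_D {i : ι} {z : E n} (hz : z ∈ (A.c i).target) : ∃ k, z ∈ A.D k i := by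
  obtain ⟨k, hk⟩ := A.cover ((A.c i).symm z)
  exact ⟨k, hz, hk⟩

theorem emb_of (η : Form A) (k : κ) (i : ι) : Emb (η.w i) (A.D k i) (A.Z k i) (η.W k) (η.B k) where
  isOpen := isOpen_D k i
  sw := (η.smooth i).mono Set.inter_subset_left
  hol := A.hol_ζ k i
  imm := fun z hz => A.imm k i z hz
  isOpen_B := η.isOpen_B k
  sW := η.smooth_W k
  maps := fun _ hz => η.maps k hz.2
  psh := η.psh k
  compat := fun z hz a b => η.compat k i z hz a b
  sing := fun z hz => η.det_eq_zero i z hz.1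

theorem psd (η : Form A) {i : ι} {z : E n} (hz : z ∈ (A.c i).target) :
    (lm (η.w i) z).PosSemidef := by
  obtain ⟨k, hk⟩ := mem_D hz
  exact (emb_of η k i).psd hk

private theorem Lib_maps (i j : ι) {z : E n} (hz : z ∈ A.O i j) :
    A.γ i j z ∈ (A.c j).target := (A.c j).map_source hz.2

private theorem Lib_left (i j : ι) {z : E n} (hz : z ∈ A.O i j) :
    (A.c j).symm (A.γ i j z) = (A.c i).symm z := (A.c j).left_inv hz.2

private theorem Lib_chain (k : κ) (i j : ι) {z : E n} (hz : z ∈ A.O i j) (hk : z ∈ A.D k i)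
    (a : E n) : fderiv ℂ (A.Z k i) z a
      = fderiv ℂ (A.Z k j) (A.γ i j z) (fderiv ℂ (A.γ i j) z a) := by
  have hO : A.O i j ∈ 𝓝 z := (isOpen_O i j).mem_nhds hz
  have hk' : A.γ i j z ∈ A.D k j := by
    refine ⟨Lib_maps i j hz, ?_⟩
    show (A.c j).symm (A.γ i j z) ∈ A.V k
    rw [Lib_left i j hz]
    exact hk.2
  have h1 : A.Z k i =ᶠ[𝓝 z] A.Z k j ∘ A.γ i j := by
    filter_upwards [hO] with y hy
    show A.ζ k ((A.c i).symm y) = A.ζ k ((A.c j).symm (A.γ i j y))
    rw [Lib_left i j hy]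
  have h2 : DifferentiableAt ℂ (A.γ i j) z :=
    ((A.hol i j).contDiffAt hO).differentiableAt (by simp)
  have h3 : DifferentiableAt ℂ (A.Z k j) (A.γ i j z) :=
    ((A.hol_ζ k j).contDiffAt ((isOpen_D k j).mem_nhds hk')).differentiableAt (by simp)
  rw [h1.fderiv_eq, fderiv_comp z h3 h2]
  rfl

private theorem Lib_levi (η : Form A) (i j : ι) {z : E n} (hz : z ∈ A.O i j) (a b : E n) :
    levi (η.w i) z a b
      = levi (η.w j) (A.γ i j z) (fderiv ℂ (A.γ i j) z a) (fderiv ℂ (A.γ i j) z b) := by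
  obtain ⟨k, hk⟩ := mem_D (A := A) (i := i) (z := z) hz.1
  have hk' : A.γ i j z ∈ A.D k j := by
    refine ⟨Lib_maps i j hz, ?_⟩
    show (A.c j).symm (A.γ i j z) ∈ A.V k
    rw [Lib_left i j hz]
    exact hk.2
  have h1 := η.compat k i z hk a b
  have h2 := η.compat k j (A.γ i j z) hk' (fderiv ℂ (A.γ i j) z a) (fderiv ℂ (A.γ i j) z b)
  have h3 := Lib_chain k i j hz hk a
  have h4 := Lib_chain k i j hz hk b
  rw [h1, h2]
  have h5 : A.ζ k ((A.c j).symm (A.γ i j z)) = A.ζ k ((A.c i).symm z) := by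
    rw [Lib_left i j hz]
  rw [h5]
  show levi (η.W k) (A.ζ k ((A.c i).symm z)) (fderiv ℂ (A.Z k i) z a) (fderiv ℂ (A.Z k i) z b)
    = levi (η.W k) (A.ζ k ((A.c i).symm z))
      (fderiv ℂ (A.Z k j) (A.γ i j z) (fderiv ℂ (A.γ i j) z a))
      (fderiv ℂ (A.Z k j) (A.γ i j z) (fderiv ℂ (A.γ i j) z b))
  rw [h3, h4]

theorem cc_of (η : Form A) (i j : ι) :
    Cc (η.w i) (η.w j) (A.O i j) (A.c j).target (A.γ i j) := by
  refine
    { isOpen := isOpen_O i j
      isOpen' := (A.c j).open_target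
      hol := A.hol i j
      maps := fun z hz => Lib_maps i j hz
      sw := (η.smooth i).mono Set.inter_subset_left
      sv := η.smooth j
      det := ?_
      lev := ?_
      psd := fun z hz => psd η hz
      psd' := fun z hz => psd η hz.1
      sing := fun z hz => η.det_eq_zero j z hz
      sing' := fun z hz => η.det_eq_zero i z hz.1 }
  · intro z hz
    have h1 : (Matrix.of (TT (A.γ i j) z))
        = LinearMap.toMatrix' (fderiv ℂ (A.γ i j) z : E n →ₗ[ℂ] E n) := by
      ext p k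
      rw [LinearMap.toMatrix'_apply]
      rfl
    rw [h1, LinearMap.det_toMatrix']
    exact A.unit i j z hz
  · intro z hz k l
    have h1 := Lib_levi η i j hz (e k) (e l)
    have hw := (η.smooth j).contDiffAt ((A.c j).open_target.mem_nhds (Lib_maps i j hz))
    have h2 : LM (η.w i) z k l = levi (η.w i) z (e k) (e l) := rfl
    rw [h2, h1, levi_eq_sum hw]
    rfl

end Pool.Agent.CYN
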